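import Pool.Agent.R914.UN.BDefs

/-!
# Removing the signs from a system of tensors

Every system of tensors in which the permutations act with signs and which is closed under the
parity operators on the first index is a system of tensors in which the permutations act without
signs.
-/

set_option linter.unusedSectionVars false

namespace Pool.Agent.R914.UN
open MvPolynomial Matrix

variable {B : Type} [Fintype B] [DecidableEq B]

namespace BSys

variable (P : BSys B)

/-- Both parity operators on the first index. -/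
lemma ev_bool (n : ℕ) (β : Bool) {v : (Fin (n + 1) → B) → ℂ} (hv : v ∈ P.A n) :
    (fun w => if P.par (w 0) = β then v w else 0) ∈ P.A n := by
  cases β with
  | true => exact P.ev n v hv
  | false =>
    have h := (P.A n).sub_mem hv (P.ev n v hv)
    convert h using 1
    funext w
    simp only [Pi.sub_apply]
    cases P.par (w 0) <;> simp

/-- The parity operators on an arbitrary index, up to nonzero factors. -/
lemma exists_par (n : ℕ) (i : Fin (n + 1)) (β : Bool) :
    ∃ t : (Fin (n + 1) → Bool) → ℂ, (∀ p, t p ≠ 0) ∧ ∀ v ∈ P.A n,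
      (fun w => if P.par (w i) = β then t (P.par ∘ w) * v w else 0) ∈ P.A n := by
  obtain ⟨s, hs, h⟩ := P.perm n (Equiv.swap 0 i)
  refine ⟨fun p => s p * s (p ∘ Equiv.swap 0 i), fun p => mul_ne_zero (hs _) (hs _),
    fun v hv => ?_⟩
  have h1 := h _ (P.ev_bool n β (h v hv))
  convert h1 using 1
  funext w
  have e1 : (w ∘ (Equiv.swap 0 i)) 0 = w i := by
    simp only [Function.comp_apply, Equiv.swap_apply_left]
  have e2 : (w ∘ (Equiv.swap 0 i)) ∘ (Equiv.swap 0 i) = w := by
    funext j
    simp only [Function.comp_apply, Equiv.swap_apply_self]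
  have e3 : (P.par ∘ (w ∘ (Equiv.swap 0 i))) = ((P.par ∘ w) ∘ (Equiv.swap 0 i)) := rfl
  rw [e1, e2, e3]
  by_cases hc : P.par (w i) = β
  · rw [if_pos hc, if_pos hc, mul_assoc]
  · rw [if_neg hc, if_neg hc, mul_zero]

/-- The parity operators on a set of indices, up to nonzero factors. -/
lemma exists_par_finset (n : ℕ) (p : Fin (n + 1) → Bool) (s : Finset (Fin (n + 1))) :
    ∃ t : (Fin (n + 1) → Bool) → ℂ, (∀ q, t q ≠ 0) ∧ ∀ v ∈ P.A n,
      (fun w => if (∀ i ∈ s, P.par (w i) = p i) then t (P.par ∘ w) * v w else 0) ∈ P.A n := by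
  induction s using Finset.induction_on with
  | empty =>
    refine ⟨fun _ => 1, fun _ => one_ne_zero, fun v hv => ?_⟩
    convert hv using 1
    funext w
    simp
  | insert i s _ ih =>
    obtain ⟨t, ht, h⟩ := ih
    obtain ⟨t', ht', h'⟩ := P.exists_par n i (p i)
    refine ⟨fun q => t' q * t q, fun q => mul_ne_zero (ht' q) (ht q), fun v hv => ?_⟩
    have h1 := h' _ (h v hv)
    convert h1 using 1
    funext w
    by_cases hc : P.par (w i) = p i
    · by_cases hd : ∀ j ∈ s, P.par (w j) = p j
      · rw [if_pos hc, if_pos hd, if_pos, mul_assoc]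
        intro j hj
        rcases Finset.mem_insert.1 hj with rfl | hj
        · exact hc
        · exact hd j hj
      · rw [if_pos hc, if_neg hd, if_neg, mul_zero]
        intro hj
        exact hd fun j hj' => hj j (Finset.mem_insert_of_mem hj')
    · rw [if_neg hc, if_neg]
      intro hj
      exact hc (hj i (Finset.mem_insert_self i s))

/-- The restriction to the words with a given pattern of parities. -/
lemma pattern_mem (n : ℕ) (p : Fin (n + 1) → Bool) {v : (Fin (n + 1) → B) → ℂ}
    (hv : v ∈ P.A n) : (fun w => if P.par ∘ w = p then v w else 0) ∈ P.A n := by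
  obtain ⟨t, ht, h⟩ := P.exists_par_finset n p Finset.univ
  have h1 := (P.A n).smul_mem (t p)⁻¹ (h v hv)
  convert h1 using 1
  funext w
  simp only [Pi.smul_apply, smul_eq_mul, Finset.mem_univ, true_imp_iff]
  by_cases hc : P.par ∘ w = p
  · have hc' : ∀ i, P.par (w i) = p i := fun i => congrFun hc i
    rw [if_pos hc, if_pos hc', hc, ← mul_assoc, inv_mul_cancel₀ (ht p), one_mul]
  · have hc' : ¬ ∀ i, P.par (w i) = p i := fun h' => hc (funext h')
    rw [if_neg hc, if_neg hc', mul_zero]

/-- The permutations act without signs. -/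
lemma plain_mem (n : ℕ) (σ : Equiv.Perm (Fin (n + 1))) {v : (Fin (n + 1) → B) → ℂ}
    (hv : v ∈ P.A n) : (fun w => v (w ∘ σ)) ∈ P.A n := by
  obtain ⟨s, hs, h⟩ := P.perm n σ
  have key : ∀ q : Fin (n + 1) → Bool,
      (fun w : Fin (n + 1) → B => if P.par ∘ (w ∘ σ) = q then v (w ∘ σ) else 0) ∈ P.A n := by
    intro q
    have h1 := (P.A n).smul_mem (s (q ∘ σ.symm))⁻¹ (h _ (P.pattern_mem n q hv))
    convert h1 using 1
    funext w
    simp only [Pi.smul_apply, smul_eq_mul]
    by_cases hc : P.par ∘ (w ∘ σ) = q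
    · have hq : q ∘ σ.symm = P.par ∘ w := by
        rw [← hc]
        funext j
        simp
      rw [if_pos hc, hq, ← mul_assoc, inv_mul_cancel₀ (hs _), one_mul]
    · rw [if_neg hc, mul_zero, mul_zero]
  have h2 := (P.A n).sum_mem fun q (_ : q ∈ Finset.univ) => key q
  convert h2 using 1
  funext w
  rw [Finset.sum_apply, Finset.sum_ite_eq, if_pos (Finset.mem_univ _)]

/-- The tensors without signs. -/
def spaceA (ι : Type) : Submodule ℂ ((ι → B) → ℂ) where
  carrier := {v | ∀ (n : ℕ) (e : ι ≃ Fin (n + 1)), (fun w => v (w ∘ e)) ∈ P.A n}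
  zero_mem' := fun n _ => (P.A n).zero_mem
  add_mem' := fun hv hu n e => (P.A n).add_mem (hv n e) (hu n e)
  smul_mem' := fun c _ hv n e => (P.A n).smul_mem c (hv n e)

lemma mem_spaceA {ι : Type} {v : (ι → B) → ℂ} :
    v ∈ P.spaceA ι ↔ ∀ (n : ℕ) (e : ι ≃ Fin (n + 1)), (fun w => v (w ∘ e)) ∈ P.A n := Iff.rfl

lemma mem_spaceA_of {ι : Type} {v : (ι → B) → ℂ} {n : ℕ} (e : ι ≃ Fin (n + 1))
    (h : (fun w => v (w ∘ e)) ∈ P.A n) : v ∈ P.spaceA ι := by
  rw [mem_spaceA]
  intro m f
  have hmn : m = n := by
    have := Fintype.card_congr (f.symm.trans e)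
    simpa using this
  subst hmn
  have h1 := P.plain_mem m (e.symm.trans f) h
  convert h1 using 1
  funext w
  congr 1
  funext i
  simp

end BSys

/-- **The signs can be removed.** -/
theorem BSys.exists_psys (P : BSys B) : ∃ S : PSys B, S.J = P.J ∧ S.K = P.K ∧
    ∀ (n : ℕ) (v : (Fin (n + 1) → B) → ℂ), v ∈ S.A (Fin (n + 1)) ↔ v ∈ P.A n := by
  refine ⟨{
    A := fun ι _ _ => P.spaceA ι
    J := P.J
    K := P.K
    relabel := ?_
    empty := ?_
    mul := ?_
    bcon := ?_
    conj := ?_ }, rfl, rfl, ?_⟩
  · intro ι κ _ _ _ _ e v hv n f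
    exact hv n (e.trans f)
  · intro ι _ _ _ v n e
    exact isEmptyElim (e.symm 0)
  · intro ι κ _ _ _ _ v u hv hu
    rcases isEmpty_or_nonempty ι with hι | hι
    · intro n e
      have h1 := (P.A n).smul_mem (v isEmptyElim) (hu n ((Equiv.emptySum ι κ).symm.trans e))
      convert h1 using 1
      funext w
      simp only [mulT, Pi.smul_apply, smul_eq_mul]
      congr 1
      congr 1
      funext i
      exact isEmptyElim i
    · rcases isEmpty_or_nonempty κ with hκ | hκ
      · intro n e
        have h1 := (P.A n).smul_mem (u isEmptyElim) (hv n ((Equiv.sumEmpty ι κ).symm.trans e))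
        convert h1 using 1
        funext w
        simp only [mulT, Pi.smul_apply, smul_eq_mul]
        rw [mul_comm]
        congr 1
        congr 1
        funext i
        exact isEmptyElim i
      · obtain ⟨a, ha⟩ : ∃ a, Fintype.card ι = a + 1 :=
          Nat.exists_eq_succ_of_ne_zero Fintype.card_ne_zero
        obtain ⟨b, hb⟩ : ∃ b, Fintype.card κ = b + 1 :=
          Nat.exists_eq_succ_of_ne_zero Fintype.card_ne_zero
        let e1 : ι ≃ Fin (a + 1) := Fintype.equivFinOfCardEq ha
        let e2 : κ ≃ Fin (b + 1) := Fintype.equivFinOfCardEq hb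
        let e : ι ⊕ κ ≃ Fin (a + 1 + b + 1) := (Equiv.sumCongr e1 e2).trans finSumFinEquiv
        refine P.mem_spaceA_of e ?_
        exact P.mul a b _ (hv a e1) _ (hu b e2)
  · intro κ _ _ u hu n f
    let e : Fin 2 ⊕ κ ≃ Fin (n + 2 + 1) := ((Equiv.sumCongr (Equiv.refl (Fin 2)) f).trans
      finSumFinEquiv).trans (finCongr (by omega))
    have h1 := P.con n _ (hu (n + 2) e)
    convert h1 using 1
    funext w
    refine Finset.sum_congr rfl fun i _ => Finset.sum_congr rfl fun j _ => ?_
    congr 2
    funext x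
    rcases x with x | x
    · fin_cases x
      · rfl
      · rfl
    · have hx : e (Sum.inr x) = (f x).succ.succ := by
        apply Fin.ext
        simp [e]
      simp only [Sum.elim_inr, Function.comp_apply]
      rw [hx, Fin.cons_succ, Fin.cons_succ]
  · intro ι _ _ v hv n e
    have h1 := P.conj n _ (hv n e)
    convert h1 using 1
    funext w
    rw [mulVec, mulVec, dotProduct, dotProduct]
    refine Fintype.sum_equiv (e.arrowCongr (Equiv.refl B)) _ _ fun x => ?_
    rw [tp_apply, tp_apply, ← e.prod_comp]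
    simp only [Pi.star_apply, Function.comp_apply, Equiv.arrowCongr_apply, Equiv.coe_refl,
      Equiv.symm_apply_apply]
    congr 3
    funext i
    simp
  · intro n v
    constructor
    · intro h
      exact h n (Equiv.refl _)
    · intro h
      exact P.mem_spaceA_of (Equiv.refl _) h

end Pool.Agent.R914.UN
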