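import Pool.Agent.R914.UN.BDefs

/-!
# The theorem on systems of tensors with a bilinear contraction
-/

set_option linter.unusedSectionVars false
set_option linter.unusedVariables false

namespace Pool.Agent.R914.UN
open MvPolynomial Matrix

variable {B : Type} [Fintype B] [DecidableEq B]

section tpl

variable {ι ι' κ : Type} [Fintype ι] [DecidableEq ι] [Fintype κ] [DecidableEq κ]
  [Fintype ι'] [DecidableEq ι']

lemma tp_transpose (g : Matrix B B ℂ) : (tp ι g)ᵀ = tp ι gᵀ := rfl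

/-- Tensors with two groups of indices as matrices. -/
lemma tp_sum_mulVec (g : Matrix B B ℂ) (N : Matrix (ι' → B) (ι → B) ℂ) :
    tp (ι' ⊕ ι) g *ᵥ (fun w => N (w ∘ Sum.inl) (w ∘ Sum.inr)) =
      fun w => (tp ι' g * N * tp ι gᵀ) (w ∘ Sum.inl) (w ∘ Sum.inr) := by
  funext w
  rw [mulVec, dotProduct, TSys.sum_sum, Matrix.mul_apply]
  simp only [Matrix.mul_apply, Finset.sum_mul]
  rw [Finset.sum_comm]
  refine Finset.sum_congr rfl fun y _ => Finset.sum_congr rfl fun x _ => ?_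
  simp only [Sum.elim_comp_inl, Sum.elim_comp_inr]
  rw [tp_apply, tp_apply, tp_apply, Fintype.prod_sum_type]
  simp only [Sum.elim_inl, Sum.elim_inr, Function.comp_apply, transpose_apply]
  ring

lemma tp_relabel (e : ι ≃ κ) (g : Matrix B B ℂ) (v : (ι → B) → ℂ) :
    tp κ g *ᵥ (fun w => v (w ∘ e)) = fun w => (tp ι g *ᵥ v) (w ∘ e) := by
  funext w
  rw [mulVec, mulVec, dotProduct, dotProduct]
  refine Fintype.sum_equiv (e.symm.arrowCongr (Equiv.refl B)) _ _ fun x => ?_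
  have h1 : (e.symm.arrowCongr (Equiv.refl B)) x = x ∘ e := by
    funext i
    simp
  rw [h1, tp_apply, tp_apply]
  congr 1
  exact (e.prod_comp fun j => g (w j) (x j)).symm

end tpl

namespace PSys

variable (S : PSys B)

/-- Many contractions at once. -/
def MC (ι : Type) [Fintype ι] [DecidableEq ι] : Prop :=
  ∀ (κ : Type) [Fintype κ] [DecidableEq κ] (u : ((ι ⊕ ι) ⊕ κ → B) → ℂ), u ∈ S.A ((ι ⊕ ι) ⊕ κ) →
    (fun w : κ → B => ∑ x : ι → B, ∑ y : ι → B,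
      (∏ i, S.J (x i) (y i)) * u (Sum.elim (Sum.elim x y) w)) ∈ S.A κ

variable {S} {ι ι' κ : Type} [Fintype ι] [DecidableEq ι] [Fintype κ] [DecidableEq κ]
  [Fintype ι'] [DecidableEq ι']

lemma MC.equiv (h : S.MC ι) (e : ι ≃ ι') : S.MC ι' := by
  intro κ _ _ u hu
  have h1 := h κ _ (S.relabel (Equiv.sumCongr (Equiv.sumCongr e.symm e.symm) (Equiv.refl κ)) hu)
  have h2 : (fun w : κ → B => ∑ x : ι' → B, ∑ y : ι' → B,
      (∏ i, S.J (x i) (y i)) * u (Sum.elim (Sum.elim x y) w)) = fun w : κ → B =>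
      ∑ x : ι → B, ∑ y : ι → B, (∏ i, S.J (x i) (y i)) *
        u (Sum.elim (Sum.elim x y) w ∘
          (Equiv.sumCongr (Equiv.sumCongr e.symm e.symm) (Equiv.refl κ))) := by
    funext w
    refine Fintype.sum_equiv (e.symm.arrowCongr (Equiv.refl B)) _ _ fun x => ?_
    refine Fintype.sum_equiv (e.symm.arrowCongr (Equiv.refl B)) _ _ fun y => ?_
    have hx : ∀ x : ι' → B, (e.symm.arrowCongr (Equiv.refl B)) x = x ∘ e := by
      intro x
      funext i
      simp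
    rw [hx, hx]
    congr 1
    · exact (e.prod_comp fun j => S.J (x j) (y j)).symm
    · congr 1
      funext i
      rcases i with (i | i) | i <;> simp
  rw [h2]
  exact h1

lemma MC.sum (h : S.MC ι) (h' : S.MC ι') : S.MC (ι ⊕ ι') := by
  intro κ _ _ u hu
  let e : ((ι ⊕ ι') ⊕ (ι ⊕ ι')) ⊕ κ ≃ (ι ⊕ ι) ⊕ ((ι' ⊕ ι') ⊕ κ) :=
    (Equiv.sumCongr (Equiv.sumSumSumComm ι ι' ι ι') (Equiv.refl κ)).trans
      (Equiv.sumAssoc _ _ _)
  have h1 := h' κ _ (h _ _ (S.relabel e hu))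
  have h2 : (fun w : κ → B => ∑ x : ι ⊕ ι' → B, ∑ y : ι ⊕ ι' → B,
      (∏ i, S.J (x i) (y i)) * u (Sum.elim (Sum.elim x y) w)) = fun w : κ → B =>
      ∑ x' : ι' → B, ∑ y' : ι' → B, (∏ i, S.J (x' i) (y' i)) *
        (∑ x : ι → B, ∑ y : ι → B, (∏ i, S.J (x i) (y i)) *
          u (Sum.elim (Sum.elim x y) (Sum.elim (Sum.elim x' y') w) ∘ e)) := by
    funext w
    rw [TSys.sum_sum, Finset.sum_comm]
    refine Finset.sum_congr rfl fun x' _ => ?_
    rw [Finset.sum_congr rfl fun x _ => TSys.sum_sum _]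
    rw [Finset.sum_congr rfl fun x _ => Finset.sum_comm]
    rw [Finset.sum_comm]
    refine Finset.sum_congr rfl fun y' _ => ?_
    rw [Finset.mul_sum]
    refine Finset.sum_congr rfl fun x _ => ?_
    rw [Finset.mul_sum]
    refine Finset.sum_congr rfl fun y _ => ?_
    rw [Fintype.prod_sum_type]
    simp only [Sum.elim_inl, Sum.elim_inr]
    have h3 : (Sum.elim (Sum.elim x y) (Sum.elim (Sum.elim x' y') w) ∘ e) =
        Sum.elim (Sum.elim (Sum.elim x x') (Sum.elim y y')) w := by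
      funext i
      rcases i with ((i | i) | (i | i)) | i <;> rfl
    rw [h3]
    ring
  rw [h2]
  exact h1

lemma MC.zero : S.MC (Fin 0) := by
  intro κ _ _ u hu
  let e : (Fin 0 ⊕ Fin 0) ⊕ κ ≃ κ := Equiv.emptySum _ _
  have h1 := S.relabel e hu
  have h2 : (fun w : κ → B => ∑ x : Fin 0 → B, ∑ y : Fin 0 → B,
      (∏ i, S.J (x i) (y i)) * u (Sum.elim (Sum.elim x y) w)) = fun w => u (w ∘ e) := by
    funext w
    rw [Fintype.sum_unique, Fintype.sum_unique, Fin.prod_univ_zero, one_mul]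
    congr 1
    funext i
    rcases i with (i | i) | i
    · exact i.elim0
    · exact i.elim0
    · rfl
  rw [h2]
  exact h1

lemma MC.one : S.MC (Fin 1) := by
  intro κ _ _ u hu
  let e : (Fin 1 ⊕ Fin 1) ⊕ κ ≃ Fin 2 ⊕ κ := Equiv.sumCongr finSumFinEquiv (Equiv.refl κ)
  have h1 := S.bcon (S.relabel e hu)
  have h2 : (fun w : κ → B => ∑ x : Fin 1 → B, ∑ y : Fin 1 → B,
      (∏ i, S.J (x i) (y i)) * u (Sum.elim (Sum.elim x y) w)) =
      fun w => ∑ i, ∑ j, S.J i j * u (Sum.elim ![i, j] w ∘ e) := by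
    funext w
    refine Fintype.sum_equiv (Equiv.funUnique (Fin 1) B) _ _ fun x => ?_
    refine Fintype.sum_equiv (Equiv.funUnique (Fin 1) B) _ _ fun y => ?_
    rw [Fin.prod_univ_one]
    congr 1
    congr 1
    funext i
    rcases i with (i | i) | i
    · fin_cases i
      rfl
    · fin_cases i
      rfl
    · rfl
  rw [h2]
  exact h1

lemma MC.fin : ∀ n : ℕ, S.MC (Fin n)
  | 0 => MC.zero
  | n + 1 => ((MC.fin n).sum MC.one).equiv finSumFinEquiv

lemma MC.all : S.MC ι := (MC.fin (Fintype.card ι)).equiv (Fintype.equivFin ι).symm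

variable (S) in
/-- The product tensors belong to the system. -/
def PT (c : (Fin 2 → B) → ℂ) (ι : Type) [Fintype ι] [DecidableEq ι] : Prop :=
  (fun w : ι ⊕ ι → B => ∏ i, c ![w (Sum.inl i), w (Sum.inr i)]) ∈ S.A (ι ⊕ ι)

lemma PT.equiv {c : (Fin 2 → B) → ℂ} (h : S.PT c ι) (e : ι ≃ ι') : S.PT c ι' := by
  have h1 := S.relabel (Equiv.sumCongr e e) h
  have h2 : (fun w : ι' ⊕ ι' → B => ∏ i, c ![w (Sum.inl i), w (Sum.inr i)]) =
      fun w => ∏ i, c ![(w ∘ (Equiv.sumCongr e e)) (Sum.inl i),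
        (w ∘ (Equiv.sumCongr e e)) (Sum.inr i)] := by
    funext w
    exact (e.prod_comp fun i => c ![w (Sum.inl i), w (Sum.inr i)]).symm
  rw [PT, h2]
  exact h1

lemma PT.sum {c : (Fin 2 → B) → ℂ} (h : S.PT c ι) (h' : S.PT c ι') : S.PT c (ι ⊕ ι') := by
  have h1 := S.relabel (Equiv.sumSumSumComm ι ι ι' ι') (S.mul h h')
  have h2 : (fun w : (ι ⊕ ι') ⊕ (ι ⊕ ι') → B => ∏ i, c ![w (Sum.inl i), w (Sum.inr i)]) =
      fun w => mulT (fun w : ι ⊕ ι → B => ∏ i, c ![w (Sum.inl i), w (Sum.inr i)])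
        (fun w : ι' ⊕ ι' → B => ∏ i, c ![w (Sum.inl i), w (Sum.inr i)])
        (w ∘ (Equiv.sumSumSumComm ι ι ι' ι')) := by
    funext w
    rw [Fintype.prod_sum_type]
    rfl
  rw [PT, h2]
  exact h1

lemma PT.zero {c : (Fin 2 → B) → ℂ} : S.PT c (Fin 0) := S.empty _

lemma PT.one {c : (Fin 2 → B) → ℂ} (hc : c ∈ S.A (Fin 2)) : S.PT c (Fin 1) := by
  have h1 := S.relabel (finSumFinEquiv (m := 1) (n := 1)).symm hc
  have h2 : (fun w : Fin 1 ⊕ Fin 1 → B => ∏ i, c ![w (Sum.inl i), w (Sum.inr i)]) =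
      fun w => c (w ∘ (finSumFinEquiv (m := 1) (n := 1)).symm) := by
    funext w
    rw [Fin.prod_univ_one]
    congr 1
    funext i
    fin_cases i
    · rfl
    · rfl
  rw [PT, h2]
  exact h1

lemma PT.fin {c : (Fin 2 → B) → ℂ} (hc : c ∈ S.A (Fin 2)) : ∀ n : ℕ, S.PT c (Fin n)
  | 0 => PT.zero
  | n + 1 => ((PT.fin hc n).sum (PT.one hc)).equiv finSumFinEquiv

lemma PT.all {c : (Fin 2 → B) → ℂ} (hc : c ∈ S.A (Fin 2)) : S.PT c ι :=
  (PT.fin hc (Fintype.card ι)).equiv (Fintype.equivFin ι).symm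

/-- The system is preserved by the matrices given by its tensors. -/
lemma pres_of_mem (hJ : IsUnit S.J.det) {M : Matrix (ι' → B) (ι → B) ℂ}
    (hM : (fun w : ι' ⊕ ι → B => (M * tp ι S.J⁻¹) (w ∘ Sum.inl) (w ∘ Sum.inr)) ∈ S.A (ι' ⊕ ι))
    {u : (ι ⊕ κ → B) → ℂ} (hu : u ∈ S.A (ι ⊕ κ)) : opT M u ∈ S.A (ι' ⊕ κ) := by
  let e : (ι' ⊕ ι) ⊕ (ι ⊕ κ) ≃ (ι ⊕ ι) ⊕ (ι' ⊕ κ) :=
    (Equiv.sumCongr (Equiv.sumComm ι' ι) (Equiv.refl _)).trans (Equiv.sumSumSumComm ι ι' ι κ)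
  have h1 := (MC.all (S := S) (ι := ι)) _ _ (S.relabel e (S.mul hM hu))
  have h2 : opT M u = (fun w : ι' ⊕ κ → B => ∑ x : ι → B, ∑ y : ι → B,
      (∏ i, S.J (x i) (y i)) * (mulT (fun w : ι' ⊕ ι → B => (M * tp ι S.J⁻¹) (w ∘ Sum.inl)
        (w ∘ Sum.inr)) u) (Sum.elim (Sum.elim x y) w ∘ e)) := by
    funext w
    have h3 : M = (M * tp ι S.J⁻¹) * tp ι S.J := by
      rw [Matrix.mul_assoc, ← tp_mul, nonsing_inv_mul _ hJ, tp_one, Matrix.mul_one]
    rw [opT]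
    conv_lhs => rw [h3]
    rw [Finset.sum_comm]
    refine Finset.sum_congr rfl fun y _ => ?_
    rw [Matrix.mul_apply, Finset.sum_mul]
    refine Finset.sum_congr rfl fun x _ => ?_
    have h4 : (Sum.elim (Sum.elim x y) w ∘ e) ∘ Sum.inl = Sum.elim (w ∘ Sum.inl) x := by
      funext i
      rcases i with i | i <;> rfl
    have h5 : (Sum.elim (Sum.elim x y) w ∘ e) ∘ Sum.inr = Sum.elim y (w ∘ Sum.inr) := by
      funext i
      rcases i with i | i <;> rfl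
    rw [mulT, h4, h5, tp_apply]
    simp only [Sum.elim_comp_inl, Sum.elim_comp_inr]
    ring
  rw [h2]
  exact h1

/-- A matrix applied to all the factors. -/
lemma tp_mem (hJ : IsUnit S.J.det) {L : Matrix B B ℂ}
    (hL : (fun w : Fin 2 → B => (L * S.J⁻¹) (w 0) (w 1)) ∈ S.A (Fin 2))
    {v : (ι → B) → ℂ} (hv : v ∈ S.A ι) : tp ι L *ᵥ v ∈ S.A ι := by
  have h1 := S.relabel (Equiv.sumEmpty ι (Fin 0)).symm hv
  have h2 : (fun w : ι ⊕ ι → B => (tp ι L * tp ι S.J⁻¹) (w ∘ Sum.inl) (w ∘ Sum.inr)) ∈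
      S.A (ι ⊕ ι) := by
    have h3 := PT.all (ι := ι) hL
    rw [PT] at h3
    rw [← tp_mul]
    exact h3
  have h3 := S.relabel (Equiv.sumEmpty ι (Fin 0)) (pres_of_mem hJ h2 h1)
  have h4 : tp ι L *ᵥ v = (fun w : ι → B => opT (tp ι L) (fun w : ι ⊕ Fin 0 → B =>
      v (w ∘ (Equiv.sumEmpty ι (Fin 0)).symm)) (w ∘ (Equiv.sumEmpty ι (Fin 0)))) := by
    funext w
    rw [opT, mulVec, dotProduct]
    rfl
  rw [h4]
  exact h3

/-- The contraction with the bilinear form. -/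
lemma con_mem {v' : (ι → B) → ℂ} (hv : v' ∈ S.A ι) {u : (ι ⊕ κ → B) → ℂ}
    (hu : u ∈ S.A (ι ⊕ κ)) :
    (fun w : κ → B => ∑ x : ι → B, (tp ι S.Jᵀ *ᵥ v') x * u (Sum.elim x w)) ∈ S.A κ := by
  have h1 := (MC.all (S := S) (ι := ι)) _ _
    (S.relabel (Equiv.sumAssoc ι ι κ).symm (S.mul hv hu))
  have h2 : (fun w : κ → B => ∑ x : ι → B, (tp ι S.Jᵀ *ᵥ v') x * u (Sum.elim x w)) =
      (fun w : κ → B => ∑ x : ι → B, ∑ y : ι → B,
      (∏ i, S.J (x i) (y i)) * (mulT v' u)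
        (Sum.elim (Sum.elim x y) w ∘ (Equiv.sumAssoc ι ι κ).symm)) := by
    funext w
    rw [Finset.sum_comm]
    refine Finset.sum_congr rfl fun y _ => ?_
    rw [mulVec, dotProduct, Finset.sum_mul]
    refine Finset.sum_congr rfl fun x _ => ?_
    have h4 : (Sum.elim (Sum.elim x y) w ∘ (Equiv.sumAssoc ι ι κ).symm) ∘ Sum.inl = x := by
      funext i
      rfl
    have h5 : (Sum.elim (Sum.elim x y) w ∘ (Equiv.sumAssoc ι ι κ).symm) ∘ Sum.inr =
        Sum.elim y w := by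
      funext i
      rcases i with i | i <;> rfl
    rw [mulT, h4, h5, tp_apply]
    simp only [transpose_apply]
    ring
  rw [h2]
  exact h1

/-- The fixed tensors with few indices belong to the system. -/
lemma mem_of_fixed {G : Submonoid (Matrix B B ℂ)} {D : ℕ}
    (hH : ∀ n : ℕ, n ≤ 2 * D → ∀ v : (Fin n → B) → ℂ,
      (∀ g ∈ G, tp (Fin n) g *ᵥ v = v) → v ∈ S.A (Fin n))
    (hι : Fintype.card ι ≤ 2 * D) {v : (ι → B) → ℂ} (hv : ∀ g ∈ G, tp ι g *ᵥ v = v) :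
    v ∈ S.A ι := by
  have h1 := hH _ hι (fun w => v (w ∘ Fintype.equivFin ι)) fun g hg => by
    rw [tp_relabel, hv g hg]
  have h2 := S.relabel (Fintype.equivFin ι).symm h1
  have h3 : v = fun w : ι → B => v ((w ∘ (Fintype.equivFin ι).symm) ∘ (Fintype.equivFin ι)) := by
    funext w
    congr 1
    funext i
    simp
  rw [h3]
  exact h2

end PSys

section mat

/-- A matrix which preserves a nondegenerate form preserves the dual form. -/
lemma dual_form {J g : Matrix B B ℂ} (hJ : IsUnit J.det) (h : gᵀ * J * g = J) :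
    g * J⁻¹ * gᵀ = J⁻¹ := by
  have h1 : (J⁻¹ * gᵀ * J) * g = 1 := by
    rw [Matrix.mul_assoc, Matrix.mul_assoc, ← Matrix.mul_assoc gᵀ, h, nonsing_inv_mul _ hJ]
  have h2 : g * (J⁻¹ * gᵀ * J) = 1 := mul_eq_one_comm.1 h1
  calc g * J⁻¹ * gᵀ = g * (J⁻¹ * gᵀ * J) * J⁻¹ := by
        rw [Matrix.mul_assoc g, Matrix.mul_assoc g, Matrix.mul_assoc (J⁻¹ * gᵀ),
          mul_nonsing_inv _ hJ, Matrix.mul_one]
    _ = J⁻¹ := by rw [h2, Matrix.one_mul]

lemma isUnit_of_form {J g : Matrix B B ℂ} (hJ : IsUnit J.det) (h : gᵀ * J * g = J) :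
    IsUnit g.det := by
  have h1 := congrArg det h
  rw [det_mul, det_mul, det_transpose] at h1
  rw [isUnit_iff_ne_zero]
  intro h2
  rw [h2, mul_zero] at h1
  exact hJ.ne_zero h1.symm

end mat

theorem PSys.main (S : PSys B) {w : ℕ} {T : Set (ℤ → Matrix B B ℂ)}
    (hT : ∀ e ∈ T, curve w e 1 = 1)
    (hK : IsUnit S.K.det)
    (hinv : ∀ e ∈ T, ∀ z : ℂ, z ≠ 0 → ∃ g' ∈ gen w T, g' * (S.K * (curve w e z).map star) = S.K)
    {Ψ C C' : Matrix B B ℂ} (hC : C ∈ gen w T) (hC' : C' ∈ gen w T) (hCC : C' * C = 1)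
    (hpol : S.Kᵀ * Ψ * C = 1)
    (hJ : IsUnit S.J.det) (hJg : ∀ g ∈ gen w T, gᵀ * S.J * g = S.J)
    (hΨg : ∀ g ∈ gen w T, gᵀ * Ψ * g = Ψ)
    (hfix : ∀ (ι : Type) [Fintype ι] [DecidableEq ι] (v : (ι → B) → ℂ), v ∈ S.A ι →
      ∀ g ∈ gen w T, tp ι g *ᵥ v = v)
    {D : ℕ} (hD : degBound (Fintype.card B) w ≤ D)
    (hH : ∀ n : ℕ, n ≤ 2 * D → ∀ v : (Fin n → B) → ℂ,
      (∀ g ∈ gen w T, tp (Fin n) g *ᵥ v = v) → v ∈ S.A (Fin n))
    {ι : Type} [Fintype ι] [DecidableEq ι] {v : (ι → B) → ℂ}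
    (hv : ∀ g ∈ gen w T, tp ι g *ᵥ v = v) : v ∈ S.A ι := by
  have hD1 : 1 ≤ D := by
    refine le_trans ?_ hD
    rw [degBound]
    exact Nat.succ_le_of_lt (by positivity)
  have hCC' : C * C' = 1 := mul_eq_one_comm.1 hCC
  have hKΨ : S.Kᵀ * Ψ = C' := by
    calc S.Kᵀ * Ψ = S.Kᵀ * Ψ * C * C' := by rw [Matrix.mul_assoc, hCC', Matrix.mul_one]
      _ = C' := by rw [hpol, Matrix.one_mul]
  -- tensors of commuting matrices
  have hcomm : ∀ {ι ι' : Type} [Fintype ι] [DecidableEq ι] [Fintype ι'] [DecidableEq ι']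
      (M : Matrix (ι' → B) (ι → B) ℂ), Comm (gen w T) M →
      Fintype.card ι' + Fintype.card ι ≤ 2 * D →
      (fun w : ι' ⊕ ι → B => (M * tp ι S.J⁻¹) (w ∘ Sum.inl) (w ∘ Sum.inr)) ∈ S.A (ι' ⊕ ι) := by
    intro ι ι' _ _ _ _ M hM hcard
    refine PSys.mem_of_fixed hH (by rwa [Fintype.card_sum]) fun g hg => ?_
    rw [tp_sum_mulVec]
    have h1 : tp ι' g * (M * tp ι S.J⁻¹) * tp ι gᵀ = M * tp ι S.J⁻¹ := by
      rw [← Matrix.mul_assoc, hM g hg, Matrix.mul_assoc, Matrix.mul_assoc, ← tp_mul, ← tp_mul,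
        ← Matrix.mul_assoc, dual_form hJ (hJg g hg)]
    rw [h1]
  have hcomm1 : ∀ L : Matrix B B ℂ, (∀ g ∈ gen w T, g * L = L * g) →
      (fun w : Fin 2 → B => (L * S.J⁻¹) (w 0) (w 1)) ∈ S.A (Fin 2) := by
    intro L hL
    have h1 := hcomm (ι := Fin 1) (ι' := Fin 1) (tp (Fin 1) L) (fun g hg => by
      rw [← tp_mul, ← tp_mul, hL g hg]) (by simp only [Fintype.card_fin]; omega)
    have h2 := S.relabel (finSumFinEquiv (m := 1) (n := 1)) h1
    have h3 : (fun w : Fin 2 → B => (L * S.J⁻¹) (w 0) (w 1)) = fun w : Fin (1 + 1) → B =>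
        (tp (Fin 1) L * tp (Fin 1) S.J⁻¹) ((w ∘ (finSumFinEquiv (m := 1) (n := 1))) ∘ Sum.inl)
          ((w ∘ (finSumFinEquiv (m := 1) (n := 1))) ∘ Sum.inr) := by
      funext w
      rw [← tp_mul, tp_apply, Fin.prod_univ_one]
      rfl
    rw [h3]
    exact h2
  -- the system with the contraction
  set L : Matrix B B ℂ := (S.Jᵀ)⁻¹ * Ψᵀ with hLdef
  have hJt : IsUnit (S.Jᵀ).det := by rwa [det_transpose]
  have hJL : S.Jᵀ * L = Ψᵀ := by
    rw [hLdef, ← Matrix.mul_assoc, mul_nonsing_inv _ hJt, Matrix.one_mul]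
  have hLg : ∀ g ∈ gen w T, g * L = L * g := by
    intro g hg
    have h1 : gᵀ * S.Jᵀ * g = S.Jᵀ := by
      have := congrArg transpose (hJg g hg)
      rwa [transpose_mul, transpose_mul, transpose_transpose, ← Matrix.mul_assoc] at this
    have h2 : gᵀ * Ψᵀ * g = Ψᵀ := by
      have := congrArg transpose (hΨg g hg)
      rwa [transpose_mul, transpose_mul, transpose_transpose, ← Matrix.mul_assoc] at this
    have h3 : (gᵀ * S.Jᵀ) * (g * L) = (gᵀ * S.Jᵀ) * (L * g) := by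
      calc (gᵀ * S.Jᵀ) * (g * L) = (gᵀ * S.Jᵀ * g) * L := by rw [Matrix.mul_assoc _ g L]
        _ = Ψᵀ := by rw [h1, hJL]
        _ = gᵀ * (S.Jᵀ * L) * g := by rw [hJL, h2]
        _ = (gᵀ * S.Jᵀ) * (L * g) := by simp only [Matrix.mul_assoc]
    have h4 : IsUnit (gᵀ * S.Jᵀ).det := by
      rw [det_mul, det_transpose]
      exact (isUnit_of_form hJ (hJg g hg)).mul hJt
    calc g * L = (gᵀ * S.Jᵀ)⁻¹ * ((gᵀ * S.Jᵀ) * (g * L)) := by
          rw [← Matrix.mul_assoc (gᵀ * S.Jᵀ)⁻¹, nonsing_inv_mul _ h4, Matrix.one_mul]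
      _ = L * g := by
          rw [h3, ← Matrix.mul_assoc (gᵀ * S.Jᵀ)⁻¹, nonsing_inv_mul _ h4, Matrix.one_mul]
  have hJCLK : S.Jᵀ * (C' * L * S.K) = 1 := by
    have h1 : Cᵀ * S.Jᵀ * C = S.Jᵀ := by
      have := congrArg transpose (hJg C hC)
      rwa [transpose_mul, transpose_mul, transpose_transpose, ← Matrix.mul_assoc] at this
    have h2 : Cᵀ * S.Jᵀ = S.Jᵀ * C' := by
      calc Cᵀ * S.Jᵀ = Cᵀ * S.Jᵀ * C * C' := by
            rw [Matrix.mul_assoc _ C, hCC', Matrix.mul_one]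
        _ = S.Jᵀ * C' := by rw [h1]
    have h3 : Cᵀ * Ψᵀ * S.K = 1 := by
      have := congrArg transpose hpol
      rwa [transpose_mul, transpose_mul, transpose_transpose, transpose_one,
        ← Matrix.mul_assoc] at this
    calc S.Jᵀ * (C' * L * S.K) = S.Jᵀ * C' * L * S.K := by simp only [Matrix.mul_assoc]
      _ = Cᵀ * (S.Jᵀ * L) * S.K := by rw [← h2]; simp only [Matrix.mul_assoc]
      _ = 1 := by rw [hJL, h3]
  let TS : TSys B :=
    { A := S.A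
      relabel := S.relabel
      empty := S.empty
      mul := S.mul
      con := by
        intro ι κ _ _ _ _ v u hv hu
        have h1 := PSys.tp_mem hJ (hcomm1 L hLg) (S.conj hv)
        have h2 := hfix ι _ h1 C' hC'
        have h3 : tp ι S.Jᵀ *ᵥ (tp ι L *ᵥ (tp ι S.K *ᵥ star v)) = star v := by
          rw [← h2, mulVec_mulVec, mulVec_mulVec, mulVec_mulVec, ← tp_mul, ← tp_mul, ← tp_mul]
          rw [show S.Jᵀ * C' * L * S.K = S.Jᵀ * (C' * L * S.K) by simp only [Matrix.mul_assoc],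
            hJCLK, tp_one, one_mulVec]
        have h4 := PSys.con_mem h1 hu
        rw [h3] at h4
        exact h4 }
  have hform : TS.HasForm := by
    refine ⟨S.J⁻¹, ?_, ?_⟩
    · exact isUnit_nonsing_inv_det _ hJ
    · have h1 := hcomm1 1 fun g _ => by rw [Matrix.one_mul, Matrix.mul_one]
      simp only [Matrix.one_mul] at h1
      exact h1
  have hstar : ∀ g ∈ gen w T, gᴴ ∈ gen w T := by
    intro g hg
    rw [gen] at hg
    induction hg using Submonoid.closure_induction with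
    | mem g hg =>
      obtain ⟨e, he, z, hz, rfl⟩ := hg
      obtain ⟨g', hg', h1⟩ := hinv e he z hz
      set g := curve w e z with hgdef
      have h2 : gᴴ * S.Kᵀ * g'ᵀ = S.Kᵀ := by
        have := congrArg transpose h1
        rwa [transpose_mul, transpose_mul] at this
      have h3 : gᴴ * C' = C' * g' := by
        calc gᴴ * C' = gᴴ * (S.Kᵀ * (g'ᵀ * Ψ * g')) := by rw [hΨg g' hg', hKΨ]
          _ = (gᴴ * S.Kᵀ * g'ᵀ) * Ψ * g' := by simp only [Matrix.mul_assoc]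
          _ = C' * g' := by rw [h2, hKΨ]
      have h4 : gᴴ = C' * g' * C := by
        rw [← h3, Matrix.mul_assoc, hCC, Matrix.mul_one]
      rw [h4]
      exact Submonoid.mul_mem _ (Submonoid.mul_mem _ hC' hg') hC
    | one => rw [conjTranspose_one]; exact Submonoid.one_mem _
    | mul x y _ _ hx hy =>
      rw [conjTranspose_mul]
      exact Submonoid.mul_mem _ hy hx
  refine machine (S := TS) hform hT hstar ?_ hD ?_ hv
  · intro g hg ι _ _ v hv
    exact hfix ι v hv g hg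
  · intro n m hn hm M hM κ _ _ u hu
    exact PSys.pres_of_mem hJ (hcomm M hM (by simp only [Fintype.card_fin]; omega)) hu

end Pool.Agent.R914.UN
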