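import Pool.Agent.Y121.AHS.Ext

/-!
# Extension of the coefficients: automorphisms of the coefficients and bilinear forms
-/

open TensorProduct

namespace Pool.Agent.R914.UN

open Pool.Agent.Y121.AHS

variable (K L : Type) {A : Type} [Field K] [Field L] [Algebra K L] [Ring A] [Algebra K A]

/-- The map `l ⊗ a ↦ s l ⊗ a`, for a homomorphism `s` of the coefficients. -/
noncomputable def extConj (s : L →ₐ[K] L) (x : Ext K L A) : Ext K L A :=
  Algebra.TensorProduct.map s (AlgHom.id K A) (show L ⊗[K] A from x)

/-- The extension of a bilinear form: `(l ⊗ a, m ⊗ b) ↦ l m ψ(a, b)`. -/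
noncomputable def extBilForm (ψ : LinearMap.BilinForm K A) : LinearMap.BilinForm L (Ext K L A) :=
  (LinearMap.BilinForm.baseChange (R := K) (M₂ := A) L ψ : LinearMap.BilinForm L (L ⊗[K] A))

/-- The value of a bilinear form. -/
def bilVal {F M : Type} [Field F] [AddCommGroup M] [Module F M] (β : LinearMap.BilinForm F M)
    (x y : M) : F :=
  β x y

/-- The value of the extension of a bilinear form. -/
noncomputable def extBil (ψ : LinearMap.BilinForm K A) (x y : Ext K L A) : L :=
  bilVal (extBilForm K L ψ) x y

end Pool.Agent.R914.UN
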