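import Pool.Agent.R940.HDefs
import Pool.Agent.R914.UN.EDefs

/-!
# The bound, Hodge symmetry and polarisations: definitions

A Hodge theory `T` (`Pool.Agent.Y121.AHS.HodgeTheory`) is a Weil cohomology theory with rational
coefficients and a Hodge decomposition of its cohomology with complex coefficients; in the intended use
it is the cohomology of the smooth projective complex varieties.
-/

open CategoryTheory AlgebraicGeometry TensorProduct

universe u

namespace Pool.Agent.R914.UN

open Pool.Agent.H914 Pool.Agent.H914.VarClass Pool.Agent.H914.VarClass.Obj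
  Pool.Agent.H914.WeilCohomology Pool.Agent.Y121.AHS
open Pool.Agent.Y163 (pw)

variable {k : Type u} [Field k] {𝒱 : VarClass k} {ops : CycleOps 𝒱}

/-- The number `N = 2 (b ^ 2 + 1) ((4 d + 1) (b ^ 2 + 1)) ^ (b ^ 2)`. -/
def uniBound (b d : ℕ) : ℕ :=
  2 * ((b ^ 2 + 1) * ((4 * d + 1) * (b ^ 2 + 1)) ^ (b ^ 2))

/-- Complex conjugation, as an automorphism over the coefficients `T.W.K` (which are the rational
numbers). -/
noncomputable def conjAlg (T : HodgeTheory ops) : ℂ →ₐ[T.W.K] ℂ :=
  { (starRingEnd ℂ) with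
    commutes' := fun r => by
      obtain ⟨q, rfl⟩ := T.rat r
      change starRingEnd ℂ (algebraMap T.W.K ℂ (q : T.W.K)) = _
      rw [map_ratCast, map_ratCast] }

/-- Complex conjugation on the cohomology with complex coefficients. -/
noncomputable def conjH (T : HodgeTheory ops) {X : 𝒱.Obj} (x : HL T.W ℂ X) : HL T.W ℂ X :=
  extConj T.W.K ℂ (A := T.W.H X) (conjAlg T) x

/-- Rational bilinear forms on `H(X)`, the sum of the `H^i(X)`. -/
def BilH (T : HodgeTheory ops) (X : 𝒱.Obj) : Type := LinearMap.BilinForm T.W.K (T.W.H X)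

/-- The value of the bilinear form `ψ` on cohomology classes with complex coefficients. -/
noncomputable def bilC {T : HodgeTheory ops} {X : 𝒱.Obj} (ψ : BilH T X) (x y : HL T.W ℂ X) : ℂ :=
  extBil T.W.K ℂ (A := T.W.H X) ψ x y

/-- Hodge symmetry for `X`: the complex conjugates of classes of type `(p, q)` are of type
`(q, p)`. -/
def HodgeSymmetric (T : HodgeTheory ops) (X : 𝒱.Obj) : Prop :=
  ∀ (p q : ℤ) (x : HL T.W ℂ X), IsType T.pq p q x → IsType T.pq q p (conjH T x)

/-- The rational bilinear form `ψ` is a polarisation of the Hodge structure `H(X)`, the sum of the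
Hodge structures `H^i(X)`: `ψ(x, y) = 0` if `x` is of type `(p, q)` and `y` is of type `(r, s)`
different from `(q, p)`, and `i ^ (p - q) * ψ(x, conj x)` is a positive real number for every
nonzero `x` of type `(p, q)`. -/
structure IsPolarisation (T : HodgeTheory ops) (X : 𝒱.Obj) (ψ : BilH T X) : Prop where
  orth : ∀ (p q r s : ℤ) (x y : HL T.W ℂ X), IsType T.pq p q x → IsType T.pq r s y →
    (r, s) ≠ (q, p) → bilC ψ x y = 0
  pos : ∀ (p q : ℤ) (x : HL T.W ℂ X), IsType T.pq p q x → x ≠ 0 → ∃ c : ℝ, 0 < c ∧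
    Complex.I ^ (p - q) * bilC ψ x (conjH T x) = c

/-- The Hodge structure `H(X)` is polarisable. -/
def IsPolarisable (T : HodgeTheory ops) (X : 𝒱.Obj) : Prop := ∃ ψ : BilH T X, IsPolarisation T X ψ

end Pool.Agent.R914.UN
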