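import Pool.Agent.R914.UN.GFin
import Pool.Agent.R914.UN.HDefs
import Pool.Agent.R940.HFin

/-!
# Uniform bounded generation for Hodge theories
-/

set_option linter.unusedSectionVars false
set_option linter.unusedVariables false

open CategoryTheory AlgebraicGeometry CategoryTheory.Limits TensorProduct

universe u v

namespace Pool.Agent.R914.UN

open Pool.Agent.H914 Pool.Agent.H447 Pool.Agent.W534 Pool.Agent.Y163 VarClass Obj WeilCohomology
  Module
open Pool.Agent.Y121 Pool.Agent.Y121.AHS Pool.Agent.R940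
open Pool.Agent.Y133.Half (ClassPred)

variable {k : Type u} [Field k] {𝒱 : VarClass k} {ops : CycleOps 𝒱}

variable {T : HodgeTheory ops} {X Z : 𝒱.Obj}

lemma conj_eq (x : HL T.W ℂ X) : conjH T x = sm (T := toH T) (cK (toH T)) X x := rfl

lemma uniBound_eq (b d : ℕ) : uniBound b d = 2 * degBound b (2 * d) := by
  rw [uniBound, degBound]
  congr 4
  ring

/-- **The theorem for properties of Hodge classes.** -/
theorem hodge_pred (hpos : NonnegTypes T) (hsym : HodgeSymmetric T X) (hpol : IsPolarisable T X)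
    (Q : ClassPred T.W) (hQ : ∀ (Y : 𝒱.Obj) (j : ℕ) (c : T.W.H Y), Q.P Y j c → IsHodge T Y j c)
    (hN : ∀ j c, IsHodge T (pw X (uniBound (finrank T.W.K (T.W.H X)) X.dim - 1)) j c →
      Q.P (pw X (uniBound (finrank T.W.K (T.W.H X)) X.dim - 1)) j c)
    (n j : ℕ) (c : T.W.H (pw X n)) (hc : IsHodge T (pw X n) j c) : Q.P (pw X n) j c := by
  obtain ⟨ψ, hψ⟩ := hpol
  rw [uniBound_eq] at hN
  exact pred_main (T := toH T) hpos hsym (ψ := ψ) ⟨hψ.orth, hψ.pos⟩ Q hQ
    (D := degBound (finrank T.W.K (T.W.H X)) (2 * X.dim)) le_rfl hN n j c hc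

/-- **The reduction of the Hodge conjecture.** -/
theorem hodge_conj (hpos : NonnegTypes T) (hsym : HodgeSymmetric T X) (hpol : IsPolarisable T X)
    (hN : HodgeConj T (pw X (uniBound (finrank T.W.K (T.W.H X)) X.dim - 1))) (n : ℕ) :
    HodgeConj T (pw X n) :=
  fun j c hc => hodge_pred hpos hsym hpol (algP (toH T))
    (fun Y j c ⟨z, hz, hzc⟩ => hzc ▸ AH.IsHodge.cl (T := toH T) hz) hN n j c hc

end Pool.Agent.R914.UN
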