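import Pool.Agent.R914.UN.Mach

/-!
# Systems of tensors with signs and with a bilinear contraction
-/

set_option linter.unusedSectionVars false

namespace Pool.Agent.R914.UN
open MvPolynomial Matrix

variable {B : Type} [Fintype B] [DecidableEq B]

/-- A system of tensors in which the permutations act with signs. -/
structure BSys (B : Type) [Fintype B] [DecidableEq B] where
  /-- the tensors with `n + 1` indices -/
  A : ∀ n : ℕ, Submodule ℂ ((Fin (n + 1) → B) → ℂ)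
  /-- the parities of the indices -/
  par : B → Bool
  /-- the bilinear form -/
  J : Matrix B B ℂ
  /-- the complex conjugation -/
  K : Matrix B B ℂ
  perm : ∀ (n : ℕ) (σ : Equiv.Perm (Fin (n + 1))), ∃ s : (Fin (n + 1) → Bool) → ℂ,
    (∀ p, s p ≠ 0) ∧ ∀ v ∈ A n, (fun w => s (par ∘ w) * v (w ∘ σ)) ∈ A n
  ev : ∀ (n : ℕ), ∀ v ∈ A n, (fun w => if par (w 0) = true then v w else 0) ∈ A n
  mul : ∀ (n m : ℕ), ∀ v ∈ A n, ∀ u ∈ A m, (fun w : Fin (n + 1 + m + 1) → B =>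
    v (fun i => w (Fin.castAdd (m + 1) i)) * u (fun j => w (Fin.natAdd (n + 1) j))) ∈ A (n + 1 + m)
  con : ∀ (n : ℕ), ∀ v ∈ A (n + 2),
    (fun w => ∑ i, ∑ j, J i j * v (Fin.cons i (Fin.cons j w))) ∈ A n
  conj : ∀ (n : ℕ), ∀ v ∈ A n, tp (Fin (n + 1)) K *ᵥ star v ∈ A n

/-- A system of tensors with a bilinear contraction. -/
structure PSys (B : Type) [Fintype B] [DecidableEq B] where
  /-- the tensors -/
  A : ∀ (ι : Type) [Fintype ι] [DecidableEq ι], Submodule ℂ ((ι → B) → ℂ)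
  /-- the bilinear form -/
  J : Matrix B B ℂ
  /-- the complex conjugation -/
  K : Matrix B B ℂ
  relabel : ∀ {ι κ : Type} [Fintype ι] [DecidableEq ι] [Fintype κ] [DecidableEq κ] (e : ι ≃ κ)
    {v : (ι → B) → ℂ}, v ∈ A ι → (fun w : κ → B => v (w ∘ e)) ∈ A κ
  empty : ∀ {ι : Type} [Fintype ι] [DecidableEq ι] [IsEmpty ι] (v : (ι → B) → ℂ), v ∈ A ι
  mul : ∀ {ι κ : Type} [Fintype ι] [DecidableEq ι] [Fintype κ] [DecidableEq κ]
    {v : (ι → B) → ℂ} {u : (κ → B) → ℂ}, v ∈ A ι → u ∈ A κ → mulT v u ∈ A (ι ⊕ κ)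
  bcon : ∀ {κ : Type} [Fintype κ] [DecidableEq κ] {u : (Fin 2 ⊕ κ → B) → ℂ}, u ∈ A (Fin 2 ⊕ κ) →
    (fun w : κ → B => ∑ i, ∑ j, J i j * u (Sum.elim ![i, j] w)) ∈ A κ
  conj : ∀ {ι : Type} [Fintype ι] [DecidableEq ι] {v : (ι → B) → ℂ}, v ∈ A ι →
    tp ι K *ᵥ star v ∈ A ι

end Pool.Agent.R914.UN
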