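import Mathlib

/-!
Double commutant for conjugate transpose closed monoids of matrices, and bounded integer valued
polynomial sequences.
-/

set_option autoImplicit false

namespace Pool.Agent.R914.UN

section DoubleCommutant

variable {I : Type} [Fintype I] [DecidableEq I]

/-- left multiplication on the Euclidean space of matrices -/
noncomputable def lm (g : Matrix I I ℂ) : EuclideanSpace ℂ (I × I) →ₗ[ℂ] EuclideanSpace ℂ (I × I) where
  toFun v := WithLp.toLp 2 fun p => ∑ k, g p.1 k * v (k, p.2)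
  map_add' u v := by
    ext p
    simp [mul_add, Finset.sum_add_distrib]
  map_smul' c v := by
    ext p
    simp only [PiLp.smul_apply, smul_eq_mul, RingHom.id_apply, Finset.mul_sum]
    exact Finset.sum_congr rfl fun k _ => by ring

@[simp] lemma lm_apply (g : Matrix I I ℂ) (v : EuclideanSpace ℂ (I × I)) (p : I × I) :
    lm g v p = ∑ k, g p.1 k * v (k, p.2) := rfl

/-- matrices as vectors -/
noncomputable def mv : Matrix I I ℂ →ₗ[ℂ] EuclideanSpace ℂ (I × I) where
  toFun g := WithLp.toLp 2 fun p => g p.1 p.2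
  map_add' u v := by ext p; simp
  map_smul' c v := by ext p; simp

@[simp] lemma mv_apply (g : Matrix I I ℂ) (p : I × I) : mv g p = g p.1 p.2 := rfl

lemma mv_injective : Function.Injective (mv : Matrix I I ℂ → EuclideanSpace ℂ (I × I)) := by
  intro a b h
  ext i j
  have := congrArg (fun v : EuclideanSpace ℂ (I × I) => v (i, j)) h
  simpa using this

lemma lm_mv (g h : Matrix I I ℂ) : lm g (mv h) = mv (g * h) := by
  ext p
  simp [Matrix.mul_apply]

lemma inner_lm (g : Matrix I I ℂ) (u v : EuclideanSpace ℂ (I × I)) :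
    inner ℂ u (lm g v) = inner ℂ (lm g.conjTranspose u) v := by
  simp only [PiLp.inner_apply, RCLike.inner_apply, lm_apply, Matrix.conjTranspose_apply,
    map_sum, map_mul, Fintype.sum_prod_type, Finset.sum_mul, Finset.mul_sum]
  have h1 : ∀ i j : I, (∑ k, g i k * v (k, j) * (starRingEnd ℂ) (u (i, j))) =
      ∑ k, g i k * v (k, j) * (starRingEnd ℂ) (u (i, j)) := fun _ _ => rfl
  calc ∑ i, ∑ j, ∑ k, g i k * v (k, j) * (starRingEnd ℂ) (u (i, j))
      = ∑ j, ∑ i, ∑ k, g i k * v (k, j) * (starRingEnd ℂ) (u (i, j)) := Finset.sum_comm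
    _ = ∑ j, ∑ k, ∑ i, g i k * v (k, j) * (starRingEnd ℂ) (u (i, j)) :=
        Finset.sum_congr rfl fun j _ => Finset.sum_comm
    _ = ∑ k, ∑ j, ∑ i, g i k * v (k, j) * (starRingEnd ℂ) (u (i, j)) := Finset.sum_comm
    _ = _ := by
        refine Finset.sum_congr rfl fun k _ => Finset.sum_congr rfl fun j _ =>
          Finset.sum_congr rfl fun i _ => ?_
        simp
        ring

theorem double_commutant (G : Submonoid (Matrix I I ℂ)) (hG : ∀ g ∈ G, g.conjTranspose ∈ G)
    (E : Matrix I I ℂ)
    (hE : ∀ M : Matrix I I ℂ, (∀ g ∈ G, g * M = M * g) → E * M = M * E) :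
    E ∈ Submodule.span ℂ (G : Set (Matrix I I ℂ)) := by
  set A : Submodule ℂ (Matrix I I ℂ) := Submodule.span ℂ (G : Set (Matrix I I ℂ)) with hA
  let K : Submodule ℂ (EuclideanSpace ℂ (I × I)) := A.map mv
  have hinv : ∀ g ∈ G, ∀ v ∈ K, lm g v ∈ K := by
    rintro g hg _ ⟨a, ha, rfl⟩
    refine ⟨g * a, ?_, (lm_mv g a).symm⟩
    have : A ≤ A.comap (LinearMap.mulLeft ℂ g) := by
      rw [hA, Submodule.span_le]
      intro x hx
      exact Submodule.subset_span (G.mul_mem hg hx)
    exact this ha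
  let p := K.starProjection
  have hcomm : ∀ g ∈ G, ∀ v, p (lm g v) = lm g (p v) := by
    intro g hg v
    apply Submodule.eq_starProjection_of_mem_of_inner_eq_zero
    · exact hinv g hg _ (Submodule.starProjection_apply_mem K v)
    · intro w hw
      rw [← map_sub, ← inner_conj_symm, inner_lm, inner_conj_symm]
      have h1 := hinv _ (hG g hg) w hw
      have h2 := Submodule.sub_starProjection_mem_orthogonal (K := K) v
      rw [Submodule.mem_orthogonal'] at h2
      exact h2 _ h1
  let e : I × I → EuclideanSpace ℂ (I × I) := fun q => EuclideanSpace.single q 1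
  have hlme : ∀ (g : Matrix I I ℂ) (j l : I), lm g (e (j, l)) = ∑ m, g m j • e (m, l) := by
    intro g j l
    ext q
    obtain ⟨q1, q2⟩ := q
    simp [e, Pi.single_apply, Prod.ext_iff]
    by_cases h : q2 = l
    · simp [h]
    · simp [h]
  let P : I → I → Matrix I I ℂ := fun k l => Matrix.of fun i j => p (e (j, l)) (i, k)
  have hPa : ∀ k l i j, P k l i j = p (e (j, l)) (i, k) := fun _ _ _ _ => rfl
  have hP : ∀ k l, ∀ g ∈ G, g * P k l = P k l * g := by
    intro k l g hg
    ext i j
    have h1 : (g * P k l) i j = lm g (p (e (j, l))) (i, k) := by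
      simp [Matrix.mul_apply, hPa]
    rw [h1, ← hcomm g hg, hlme]
    simp [Matrix.mul_apply, hPa, mul_comm]
  have hEe : ∀ q, lm E (p (e q)) = p (lm E (e q)) := by
    rintro ⟨j, l⟩
    ext ⟨i, k⟩
    have h1 : (E * P k l) i j = lm E (p (e (j, l))) (i, k) := by
      simp [Matrix.mul_apply, hPa]
    rw [← h1, hE (P k l) (hP k l), hlme]
    simp [Matrix.mul_apply, hPa, mul_comm]
  have hEv : ∀ v, lm E (p v) = p (lm E v) := by
    intro v
    have hv : v = ∑ q, v q • e q := by
      ext q
      simp [e, Pi.single_apply]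
    rw [hv]
    simp only [map_sum, map_smul, hEe]
  have h1K : mv 1 ∈ K := ⟨1, Submodule.subset_span G.one_mem, rfl⟩
  have h1 := hEv (mv 1)
  rw [show p (mv 1) = mv 1 from (Submodule.starProjection_eq_self_iff).2 h1K, lm_mv, mul_one] at h1
  have h2 : mv E ∈ K := by
    rw [h1]
    exact Submodule.starProjection_apply_mem K _
  obtain ⟨a, ha, hae⟩ := h2
  rw [mv_injective hae] at ha
  exact ha

end DoubleCommutant

section Moment

lemma coeff_zero : ∀ (M : ℕ) (c : ℕ → ℂ) (B : ℝ),
    (∀ k : ℕ, ‖∑ j ∈ Finset.range M, (k.choose j : ℂ) * c j‖ ≤ B) →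
    ∀ j, 1 ≤ j → j < M → c j = 0 := by
  intro M
  induction M with
  | zero => intro c B h j _ hj; omega
  | succ M ih =>
    intro c B h j hj hjM
    have h1 : ∀ k : ℕ, ‖∑ j ∈ Finset.range M, (k.choose j : ℂ) * c (j + 1)‖ ≤ 2 * B := by
      intro k
      have h2 : ∑ j ∈ Finset.range M, (k.choose j : ℂ) * c (j + 1) =
          (∑ j ∈ Finset.range (M + 1), ((k + 1).choose j : ℂ) * c j) -
            ∑ j ∈ Finset.range (M + 1), (k.choose j : ℂ) * c j := by
        rw [Finset.sum_range_succ', Finset.sum_range_succ' (fun j => (k.choose j : ℂ) * c j)]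
        simp only [Nat.choose_zero_right]
        rw [add_sub_add_right_eq_sub, ← Finset.sum_sub_distrib]
        refine Finset.sum_congr rfl fun j _ => ?_
        rw [Nat.choose_succ_succ]
        push_cast
        ring
      rw [h2]
      refine (norm_sub_le _ _).trans ?_
      linarith [h (k + 1), h k]
    have h3 : ∀ i, 2 ≤ i → i < M + 1 → c i = 0 := by
      intro i hi hiM
      have := ih (fun j => c (j + 1)) (2 * B) h1 (i - 1) (by omega) (by omega)
      simpa [show i - 1 + 1 = i by omega] using this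
    rcases Nat.lt_or_ge 1 j with h4 | h4
    · exact h3 j h4 hjM
    obtain rfl : j = 1 := by omega
    have h5 : ∀ k : ℕ, ∑ j ∈ Finset.range (M + 1), (k.choose j : ℂ) * c j = c 0 + k * c 1 := by
      intro k
      obtain ⟨M', rfl⟩ : ∃ M', M = M' + 1 := ⟨M - 1, by omega⟩
      rw [Finset.sum_range_succ', Finset.sum_range_succ']
      rw [Finset.sum_eq_zero]
      · simp
        ring
      · intro i hi
        rw [h3 (i + 1 + 1) (by omega) (by simp at hi; omega)]
        simp
    by_contra hne
    have hpos : 0 < ‖c 1‖ := norm_pos_iff.2 hne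
    obtain ⟨k, hk⟩ := exists_nat_gt ((B + ‖c 0‖) / ‖c 1‖)
    have h6 := h k
    rw [h5] at h6
    have h7 : (k : ℝ) * ‖c 1‖ - ‖c 0‖ ≤ ‖c 0 + k * c 1‖ := by
      have := norm_sub_norm_le ((k : ℂ) * c 1) (-(c 0))
      rw [norm_neg, norm_mul, Complex.norm_natCast] at this
      refine this.trans (le_of_eq ?_)
      congr 1
      ring
    rw [div_lt_iff₀ hpos] at hk
    linarith

theorem moment {M : ℕ} (c : ℕ → ℂ)
    (h : ∀ k : ℕ, ‖∑ j ∈ Finset.range M, (k.choose j : ℂ) * c j‖ ≤ 1) (k : ℕ) :
    ∑ j ∈ Finset.range M, (k.choose j : ℂ) * c j =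
      ∑ j ∈ Finset.range M, ((0 : ℕ).choose j : ℂ) * c j := by
  have h0 := coeff_zero M c 1 h
  refine Finset.sum_congr rfl fun j hj => ?_
  rcases Nat.eq_zero_or_pos j with rfl | hj0
  · simp
  · rw [h0 j hj0 (Finset.mem_range.1 hj)]
    simp

end Moment

end Pool.Agent.R914.UN
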