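import Mathlib

/-!
# Matrices generated by curves, and polynomials in the matrix entries
-/

namespace Pool.Agent.R914.UN
open MvPolynomial

variable {B : Type} [Fintype B] [DecidableEq B]

/-- The value at `z` of the Laurent polynomial with the coefficients `e k`, `|k| ≤ w`. -/
noncomputable def curve (w : ℕ) (e : ℤ → Matrix B B ℂ) (z : ℂ) : Matrix B B ℂ :=
  ∑ k ∈ Finset.Icc (-(w : ℤ)) w, z ^ k • e k

/-- The monoid generated by the values of the curves. -/
def gen (w : ℕ) (T : Set (ℤ → Matrix B B ℂ)) : Submonoid (Matrix B B ℂ) :=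
  Submonoid.closure {g | ∃ e ∈ T, ∃ z : ℂ, z ≠ 0 ∧ g = curve w e z}

/-- The value of the polynomial `p` in the matrix entries at the matrix `g`. -/
noncomputable def ev (g : Matrix B B ℂ) : MvPolynomial (B × B) ℂ →+* ℂ := eval fun q => g q.1 q.2

/-- The ideal of the polynomials which vanish on `G`. -/
noncomputable def vanI (G : Set (Matrix B B ℂ)) : Ideal (MvPolynomial (B × B) ℂ) :=
  ⨅ g ∈ G, RingHom.ker (ev g)

end Pool.Agent.R914.UN
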