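import Pool.Agent.R914.UN.Sys

/-!
# The Haar functional of a system of tensors
-/

set_option linter.unusedSectionVars false
set_option linter.unusedSimpArgs false

namespace Pool.Agent.R914.UN
open MvPolynomial Matrix

section

variable {α : Type} [DecidableEq α]

lemma count_ofFn (k : ℕ) (U : Fin k → α) (x : α) :
    (List.ofFn U).count x = (Finset.univ.filter fun i => U i = x).card := by
  have h3 : List.ofFn U = (List.finRange k).map U := by
    rw [List.ofFn_eq_map]
  rw [h3, ← Multiset.coe_count, ← Multiset.map_coe, Multiset.count_map, Finset.card_def,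
    Finset.filter_val]
  congr 1
  refine Multiset.filter_congr fun i _ => ?_
  exact eq_comm

/-- Words with the same letters are permutations of each other. -/
lemma exists_equiv_of_perm {n m : ℕ} (W : Fin n → α) (V : Fin m → α)
    (h : (List.ofFn W).Perm (List.ofFn V)) : ∃ σ : Fin n ≃ Fin m, W = V ∘ σ := by
  classical
  have hc : ∀ x, Fintype.card {i // W i = x} = Fintype.card {i // V i = x} := by
    intro x
    have h1 := h.count_eq x
    rw [count_ofFn, count_ofFn] at h1
    rw [Fintype.card_subtype, Fintype.card_subtype, h1]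
  let e : ∀ x, {i // W i = x} ≃ {i // V i = x} := fun x => Fintype.equivOfCardEq (hc x)
  refine ⟨Equiv.ofFiberEquiv e, ?_⟩
  funext i
  exact (Equiv.ofFiberEquiv_map e i).symm

lemma perm_cast (R : ∀ n : ℕ, (Fin n → α) → ℂ)
    (hR : ∀ (n : ℕ) (σ : Equiv.Perm (Fin n)) (W : Fin n → α), R n (W ∘ σ) = R n W) {m n : ℕ}
    (σ : Fin m ≃ Fin n) (W : Fin n → α) : R m (W ∘ σ) = R n W := by
  have hn : m = n := by
    have := Fintype.card_congr σ
    simpa using this
  subst hn
  exact hR _ σ W

/-- A function on words which is invariant under permutations gives a functional. -/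
lemma exists_functional (R : ∀ n : ℕ, (Fin n → α) → ℂ)
    (hR : ∀ (n : ℕ) (σ : Equiv.Perm (Fin n)) (W : Fin n → α), R n (W ∘ σ) = R n W) :
    ∃ μ : MvPolynomial α ℂ →ₗ[ℂ] ℂ, ∀ (n : ℕ) (W : Fin n → α), μ (∏ i, X (W i)) = R n W := by
  classical
  let val : (α →₀ ℕ) → ℂ := fun s =>
    R (Finsupp.toMultiset s).toList.length fun i => (Finsupp.toMultiset s).toList.get i
  let μ : MvPolynomial α ℂ →ₗ[ℂ] ℂ := (basisMonomials α ℂ).constr ℂ val
  refine ⟨μ, fun n W => ?_⟩
  have h1 : (∏ i, X (W i) : MvPolynomial α ℂ) =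
      basisMonomials α ℂ (∑ i, Finsupp.single (W i) 1) := by
    rw [coe_basisMonomials]
    simp only [X]
    exact (monomial_sum_one _ _).symm
  have h2 : μ (∏ i, X (W i)) = val (∑ i, Finsupp.single (W i) 1) := by
    rw [h1]
    exact (basisMonomials α ℂ).constr_basis ℂ val _
  rw [h2]
  have h3 : (List.ofFn fun i : Fin (Finsupp.toMultiset (∑ i, Finsupp.single (W i) 1)).toList.length
      => (Finsupp.toMultiset (∑ i, Finsupp.single (W i) 1)).toList.get i).Perm
        (List.ofFn W) := by
    rw [List.ofFn_get, List.perm_iff_count]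
    intro x
    rw [count_ofFn, ← Multiset.coe_count, Multiset.coe_toList, Finsupp.count_toMultiset,
      Finsupp.finsetSum_apply, Finset.card_filter]
    refine Finset.sum_congr rfl fun i _ => ?_
    rw [Finsupp.single_apply]
  obtain ⟨σ, hσ⟩ := exists_equiv_of_perm _ _ h3
  change R _ (fun i => _) = R n W
  rw [hσ]
  exact perm_cast R hR σ W

end

variable {B : Type} [Fintype B] [DecidableEq B]

/-- The monomial of two words. -/
noncomputable def xm {ι : Type} [Fintype ι] (I J : ι → B) : MvPolynomial (B × B) ℂ :=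
  ∏ i, X (I i, J i)

lemma ev_xm {ι : Type} [Fintype ι] (g : Matrix B B ℂ) (I J : ι → B) :
    ev g (xm I J) = tp ι g I J := by
  rw [ev, xm, map_prod, tp_apply]
  exact Finset.prod_congr rfl fun i _ => by rw [eval_X]

lemma xm_mul {ι κ : Type} [Fintype ι] [Fintype κ] (I J : ι → B) (S T : κ → B) :
    xm I J * xm S T = xm (Sum.elim I S) (Sum.elim J T) := by
  rw [xm, xm, xm, Fintype.prod_sum_type]
  rfl

/-- Polynomials are combinations of monomials of words. -/
lemma poly_ind {p : MvPolynomial (B × B) ℂ → Prop}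
    (hx : ∀ (n : ℕ) (I J : Fin n → B), p (xm I J)) (h0 : p 0) (ha : ∀ f g, p f → p g → p (f + g))
    (hc : ∀ (c : ℂ) f, p f → p (C c * f)) (f : MvPolynomial (B × B) ℂ) : p f := by
  classical
  have h1 : ∀ s : B × B →₀ ℕ, ∃ (n : ℕ) (I J : Fin n → B), monomial s (1 : ℂ) = xm I J := by
    intro s
    induction s using Finsupp.induction with
    | zero => exact ⟨0, Fin.elim0, Fin.elim0, by rw [xm]; simp⟩
    | single_add a b f _ _ ih =>
      obtain ⟨n, I, J, h⟩ := ih
      clear * - h
      induction b with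
      | zero => exact ⟨n, I, J, by rw [Finsupp.single_zero, zero_add, h]⟩
      | succ b ih =>
        obtain ⟨m, I', J', h'⟩ := ih
        refine ⟨m + 1, Fin.cons a.1 I', Fin.cons a.2 J', ?_⟩
        rw [xm, Fin.prod_univ_succ]
        simp only [Fin.cons_zero, Fin.cons_succ]
        have h2 : (∏ i, X (I' i, J' i) : MvPolynomial (B × B) ℂ) = xm I' J' := rfl
        rw [h2, ← h', add_comm b 1, Finsupp.single_add, add_assoc, X, monomial_mul, one_mul]
  induction f using MvPolynomial.induction_on' with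
  | monomial s c =>
    obtain ⟨n, I, J, h⟩ := h1 s
    have h2 : monomial s c = C c * monomial s 1 := by rw [C_mul_monomial, mul_one]
    rw [h2, h]
    exact hc _ _ (hx n I J)
  | add f g hf hg => exact ha _ _ hf hg

namespace TSys

variable (S : TSys B) {ι ι' κ : Type} [Fintype ι] [DecidableEq ι] [Fintype κ] [DecidableEq κ]
  [Fintype ι'] [DecidableEq ι']

lemma exists_mu : ∃ μ : MvPolynomial (B × B) ℂ →ₗ[ℂ] ℂ,
    ∀ (ι : Type) [Fintype ι] [DecidableEq ι] (I J : ι → B), μ (xm I J) = S.R ι I J := by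
  obtain ⟨μ, hμ⟩ := exists_functional (α := B × B)
    (fun n W => S.R (Fin n) (fun i => (W i).1) fun i => (W i).2) (by
      intro n σ W
      exact S.R_apply_relabel σ (fun i => (W i).1) fun i => (W i).2)
  refine ⟨μ, fun ι _ _ I J => ?_⟩
  let e := (Fintype.equivFin ι).symm
  have h1 : xm I J = ∏ i, X ((fun i => ((I (e i), J (e i)) : B × B)) i) :=
    (e.prod_comp fun i => (X (I i, J i) : MvPolynomial (B × B) ℂ)).symm
  rw [h1, hμ]
  exact S.R_apply_relabel e I J

/-- The Haar functional. -/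
noncomputable def mu : MvPolynomial (B × B) ℂ →ₗ[ℂ] ℂ := Classical.choose S.exists_mu

lemma mu_xm (I J : ι → B) : S.mu (xm I J) = S.R ι I J :=
  Classical.choose_spec S.exists_mu ι I J

lemma mu_C_mul (c : ℂ) (p : MvPolynomial (B × B) ℂ) : S.mu (C c * p) = c * S.mu p := by
  rw [C_mul', map_smul, smul_eq_mul]

lemma mu_one : S.mu 1 = 1 := by
  have h1 : (1 : MvPolynomial (B × B) ℂ) = xm (Fin.elim0 : Fin 0 → B) Fin.elim0 := by
    rw [xm]; simp
  rw [h1, S.mu_xm]
  have h2 := congrFun ((S.isProj (Fin 0)).self (S.empty (Pi.single Fin.elim0 1))) Fin.elim0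
  rw [mulVec_single_one, Pi.single_eq_same] at h2
  exact h2

/-- The kernel of the Haar functional. -/
noncomputable def ker : Ideal (MvPolynomial (B × B) ℂ) where
  carrier := {p | ∀ q, S.mu (p * q) = 0}
  add_mem' := by
    intro a b ha hb q
    rw [add_mul, map_add, ha, hb, add_zero]
  zero_mem' := by
    intro q
    rw [zero_mul, map_zero]
  smul_mem' := by
    intro c x hx q
    rw [smul_eq_mul, mul_comm c x, mul_assoc]
    exact hx _

lemma mem_ker {p : MvPolynomial (B × B) ℂ} : p ∈ S.ker ↔ ∀ q, S.mu (p * q) = 0 := Iff.rfl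

lemma mem_ker_of_xm {p : MvPolynomial (B × B) ℂ}
    (h : ∀ (n : ℕ) (I J : Fin n → B), S.mu (p * xm I J) = 0) : p ∈ S.ker := by
  intro q
  induction q using poly_ind with
  | hx n I J => exact h n I J
  | h0 => rw [mul_zero, map_zero]
  | ha f g hf hg => rw [mul_add, map_add, hf, hg, add_zero]
  | hc c f hf => rw [mul_left_comm, mu_C_mul, hf, mul_zero]

lemma ker_ne_top : S.ker ≠ ⊤ := by
  intro h
  have h1 : (1 : MvPolynomial (B × B) ℂ) ∈ S.ker := h ▸ Submodule.mem_top
  have h2 := h1 1
  rw [mul_one, S.mu_one] at h2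
  exact one_ne_zero h2

/-- The matrices which fix all tensors of the system. -/
def Fixes (g : Matrix B B ℂ) : Prop :=
  ∀ (ι : Type) [Fintype ι] [DecidableEq ι] (v : (ι → B) → ℂ), v ∈ S.A ι → tp ι g *ᵥ v = v

/-- The tensors of the system give elements of the ideal. -/
lemma rel_mem_ker {v : (ι → B) → ℂ} (hv : v ∈ S.A ι) (I : ι → B) :
    ∑ J, xm I J * C (v J) - C (v I) ∈ S.ker := by
  apply S.mem_ker_of_xm
  intro n s t
  have h1 := congrFun (S.R_mul hv (κ := Fin n) (Pi.single t 1)) (Sum.elim I s)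
  rw [mulVec_single_one] at h1
  simp only [mulT, Sum.elim_comp_inl, Sum.elim_comp_inr, Matrix.col_apply] at h1
  have h2 : (S.R (ι ⊕ Fin n) *ᵥ mulT v (Pi.single t 1)) (Sum.elim I s) =
      ∑ J, S.R (ι ⊕ Fin n) (Sum.elim I s) (Sum.elim J t) * v J := by
    rw [mulVec, dotProduct, sum_sum]
    refine Finset.sum_congr rfl fun J _ => ?_
    rw [Finset.sum_eq_single t]
    · simp only [mulT, Sum.elim_comp_inl, Sum.elim_comp_inr, Pi.single_eq_same, mul_one]
    · intro y _ hy
      simp only [mulT, Sum.elim_comp_inl, Sum.elim_comp_inr, Pi.single_eq_of_ne hy, mul_zero]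
    · intro h; exact absurd (Finset.mem_univ _) h
  have h3 : (∑ J, xm I J * C (v J) - C (v I)) * xm s t =
      ∑ J, C (v J) * xm (Sum.elim I s) (Sum.elim J t) - C (v I) * xm s t := by
    rw [sub_mul, Finset.sum_mul]
    congr 1
    refine Finset.sum_congr rfl fun J _ => ?_
    rw [← xm_mul]
    ring
  rw [h3, map_sub, map_sum, mu_C_mul, S.mu_xm]
  simp only [mu_C_mul, S.mu_xm]
  rw [sub_eq_zero]
  have h4 : (S.R (ι ⊕ Fin n) *ᵥ mulT v (Pi.single t 1)) (Sum.elim I s) = v I * S.R (Fin n) s t := by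
    rw [S.R_mul hv]
    simp only [mulT, Sum.elim_comp_inl, Sum.elim_comp_inr, mulVec_single_one, Matrix.col_apply]
  rw [← h4, h2]
  exact Finset.sum_congr rfl fun J _ => mul_comm _ _

/-- The zeros of the ideal fix all tensors of the system. -/
lemma fixes_of_zero {g : Matrix B B ℂ} (hg : ∀ p ∈ S.ker, ev g p = 0) : S.Fixes g := by
  intro ι _ _ v hv
  funext I
  have h1 := hg _ (S.rel_mem_ker hv I)
  rw [map_sub, map_sum, sub_eq_zero] at h1
  rw [mulVec, dotProduct]
  have h2 : ∀ c : ℂ, ev g (C c) = c := fun c => eval_C c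
  rw [h2] at h1
  rw [← h1]
  refine Finset.sum_congr rfl fun J _ => ?_
  rw [map_mul, h2, ev_xm]

end TSys

end Pool.Agent.R914.UN
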