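import Pool.Agent.R940.HGen

/-!
# The action of the torus on the cohomology with complex coefficients
-/

set_option linter.unusedSectionVars false
set_option linter.unusedVariables false

open CategoryTheory AlgebraicGeometry CategoryTheory.Limits TensorProduct

universe u v

namespace Pool.Agent.R914.UN

open Pool.Agent.H914 Pool.Agent.H447 Pool.Agent.W534 Pool.Agent.Y163 VarClass Obj WeilCohomology
  Module
open Pool.Agent.Y121 Pool.Agent.R940

variable {k : Type u} [Field k] {𝒱 : VarClass k} {ops : CycleOps 𝒱}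

variable (T : AH.HodgeTheory ops) {X Y Z : 𝒱.Obj}

lemma pqInt (Y : 𝒱.Obj) : DirectSum.IsInternal (fun r : ℤ × ℤ => T.pq Y r.1 r.2) :=
  (DirectSum.isInternal_submodule_iff_iSupIndep_and_iSup_eq_top _).2 ⟨T.dec.indep Y, pq_top T Y⟩

/-- Induction over the types. -/
lemma pq_ind {p : (baseW T.W ℂ).H Y → Prop} (h0 : p 0) (hadd : ∀ x y, p x → p y → p (x + y))
    (h : ∀ (r : ℤ × ℤ), ∀ x ∈ T.pq Y r.1 r.2, p x) (x : (baseW T.W ℂ).H Y) : p x := by
  have h1 : x ∈ ⨆ r : ℤ × ℤ, T.pq Y r.1 r.2 := by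
    rw [pq_top T Y]
    exact Submodule.mem_top
  exact Submodule.iSup_induction _ (motive := p) h1 h h0 hadd

/-- The linear map which acts on the classes of type `(p, q)` by the scalar `φ (p, q)`. -/
noncomputable def act (φ : ℤ × ℤ → ℂ) (Y : 𝒱.Obj) :
    (baseW T.W ℂ).H Y →ₗ[(baseW T.W ℂ).K] (baseW T.W ℂ).H Y :=
  (DirectSum.toModule (baseW T.W ℂ).K (ℤ × ℤ) ((baseW T.W ℂ).H Y)
    (fun r => (show (baseW T.W ℂ).K from φ r) • (T.pq Y r.1 r.2).subtype)) ∘ₗ
    (LinearEquiv.ofBijective (DirectSum.coeLinearMap (fun r : ℤ × ℤ => T.pq Y r.1 r.2))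
      (pqInt T Y)).symm.toLinearMap

lemma act_of (φ : ℤ × ℤ → ℂ) {r : ℤ × ℤ} {x : (baseW T.W ℂ).H Y} (hx : x ∈ T.pq Y r.1 r.2) :
    act T φ Y x = (show (baseW T.W ℂ).K from φ r) • x := by
  have h1 : (LinearEquiv.ofBijective (DirectSum.coeLinearMap (fun r : ℤ × ℤ => T.pq Y r.1 r.2))
      (pqInt T Y)).symm x = DirectSum.lof (baseW T.W ℂ).K (ℤ × ℤ)
        (fun r : ℤ × ℤ => T.pq Y r.1 r.2) r ⟨x, hx⟩ := by
    rw [LinearEquiv.symm_apply_eq, LinearEquiv.ofBijective_apply, DirectSum.coeLinearMap_lof]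
  rw [act, LinearMap.comp_apply]
  have h2 := congrArg (DirectSum.toModule (baseW T.W ℂ).K (ℤ × ℤ) ((baseW T.W ℂ).H Y)
    (fun r => (show (baseW T.W ℂ).K from φ r) • (T.pq Y r.1 r.2).subtype)) h1
  refine h2.trans ?_
  rw [DirectSum.toModule_lof]
  rfl

lemma act_mem (φ : ℤ × ℤ → ℂ) {r : ℤ × ℤ} {x : (baseW T.W ℂ).H Y} (hx : x ∈ T.pq Y r.1 r.2) :
    act T φ Y x ∈ T.pq Y r.1 r.2 := by
  rw [act_of T φ hx]
  exact Submodule.smul_mem _ _ hx

lemma act_act (φ ψ : ℤ × ℤ → ℂ) (x : (baseW T.W ℂ).H Y) :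
    act T φ Y (act T ψ Y x) = act T (fun r => φ r * ψ r) Y x := by
  refine pq_ind T (p := fun x => act T φ Y (act T ψ Y x) = act T (fun r => φ r * ψ r) Y x)
    ?_ ?_ ?_ x
  · rw [map_zero, map_zero, map_zero]
  · intro x y hx hy; rw [map_add, map_add, hx, hy, map_add]
  · intro r x hx
    rw [act_of T φ (act_mem T ψ hx), act_of T ψ hx, act_of T _ hx, smul_smul]
    rfl

lemma act_one' (x : (baseW T.W ℂ).H Y) : act T (fun _ => 1) Y x = x := by
  refine pq_ind T (p := fun x => act T (fun _ => 1) Y x = x) ?_ ?_ ?_ x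
  · rw [map_zero]
  · intro x y hx hy; rw [map_add, hx, hy]
  · intro r x hx
    rw [act_of T _ hx]
    exact one_smul _ _

lemma act_mul {φ : ℤ × ℤ → ℂ} (hφ : ∀ r s, φ (r + s) = φ r * φ s) (x y : (baseW T.W ℂ).H Y) :
    act T φ Y (x * y) = act T φ Y x * act T φ Y y := by
  refine pq_ind T (p := fun x => act T φ Y (x * y) = act T φ Y x * act T φ Y y) ?_ ?_ ?_ x
  · rw [zero_mul, map_zero, zero_mul]
  · intro x x' hx hx'; rw [add_mul, map_add, hx, hx', map_add, add_mul]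
  · intro r x hx
    refine pq_ind T (p := fun y => act T φ Y (x * y) = act T φ Y x * act T φ Y y) ?_ ?_ ?_ y
    · rw [mul_zero, map_zero, mul_zero]
    · intro y y' hy hy'; rw [mul_add, map_add, hy, hy', map_add, mul_add]
    · intro s y hy
      have h1 : x * y ∈ T.pq Y (r + s).1 (r + s).2 := T.dec.mul hx hy
      rw [act_of T φ hx, act_of T φ hy, act_of T φ h1, hφ, smul_mul_smul_comm]
      rfl

lemma one_pq (Y : 𝒱.Obj) : (1 : (baseW T.W ℂ).H Y) ∈ T.pq Y 0 0 := by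
  have h1 := T.dec.cyc (X := Y) (j := 0) (z := Y.V.fundCycle) (SmVar.fundCycle_mem _)
  rw [T.W.cl_fund] at h1
  exact h1

lemma act_one {φ : ℤ × ℤ → ℂ} (hφ : φ 0 = 1) : act T φ Y 1 = 1 := by
  rw [act_of T φ (r := 0) (one_pq T Y), hφ]
  exact one_smul _ _

lemma act_map (φ : ℤ × ℤ → ℂ) (f : Y ⟶ Z) (x : (baseW T.W ℂ).H Z) :
    act T φ Y ((baseW T.W ℂ).map f x) = (baseW T.W ℂ).map f (act T φ Z x) := by
  refine pq_ind T (p := fun x => act T φ Y ((baseW T.W ℂ).map f x) =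
    (baseW T.W ℂ).map f (act T φ Z x)) ?_ ?_ ?_ x
  · rw [map_zero, map_zero, map_zero, map_zero]
  · intro x x' hx hx'; rw [map_add, map_add, hx, hx', map_add, map_add]
  · intro r x hx
    rw [act_of T φ hx, act_of T φ (T.dec.map f hx), map_smul]

lemma tr_inj {W : WeilCohomology.{u, v} ops} {Y : 𝒱.Obj} {x : W.H Y}
    (hx : x ∈ W.gr Y (2 * Y.dim)) (h : W.tr Y x = 0) : x = 0 := by
  refine W.nondeg x fun b => ?_
  refine gr_induction (W.isInternal Y) (p := fun b => W.tr Y (x * b) = 0) ?_ ?_ b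
  · intro j b hb
    rcases Nat.eq_zero_or_pos j with rfl | hj
    · rw [W.gr_zero, Submodule.mem_span_singleton] at hb
      obtain ⟨c, rfl⟩ := hb
      rw [mul_smul_comm, mul_one, map_smul, h, smul_zero]
    · have h1 := W.mul_mem hx hb
      rw [W.gr_eq_bot Y _ (by omega)] at h1
      rw [(Submodule.mem_bot _).1 h1, map_zero]
  · intro a b ha hb
    rw [mul_add, map_add, ha, hb, add_zero]

lemma em_pow_pq {D : Y.Cycles} (hD : Y.IsCyc 1 D) (n : ℕ) :
    AH.em T.W ℂ (T.W.cl Y D ^ n) ∈ T.pq Y n n := by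
  induction n with
  | zero =>
    rw [pow_zero, Nat.cast_zero]
    exact one_pq T Y
  | succ n ih =>
    have h1 := T.dec.mul ih (T.dec.cyc hD)
    rw [em_mul, ← pow_succ] at h1
    exact_mod_cast h1

/-- Classes in the top degree are of type `(d, d)`. -/
lemma top_type {p q : ℤ} (h : p + q = 2 * Y.dim) (hne : p ≠ Y.dim) {x : (baseW T.W ℂ).H Y}
    (hx : x ∈ T.pq Y p q) : x = 0 := by
  rcases subsingleton_or_nontrivial (T.W.H Y) with hs | hn
  · have h1 : (1 : (baseW T.W ℂ).H Y) = 0 := by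
      have h2 : (1 : (baseW T.W ℂ).H Y) = AH.em T.W ℂ (1 : T.W.H Y) := rfl
      rw [h2, Subsingleton.elim (1 : T.W.H Y) 0]
      exact TensorProduct.tmul_zero _ _
    rw [← one_mul x, h1, zero_mul]
  obtain ⟨D, hD, hl, -⟩ := T.dec.polar Y
  have hbig : T.W.cl Y D ^ Y.dim ≠ 0 := by
    intro h
    have h1 := (hl 0 (Nat.zero_le _)).1 1 (T.W.one_mem Y)
    rw [Nat.sub_zero, LinearMap.pow_mulLeft, LinearMap.mulLeft_apply, mul_one] at h1
    exact one_ne_zero (h1 h)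
  set y := AH.em T.W ℂ (T.W.cl Y D ^ Y.dim) with hy
  have hypq : y ∈ T.pq Y Y.dim Y.dim := em_pow_pq T hD _
  have hygr : y ∈ (baseW T.W ℂ).gr Y (2 * Y.dim) := T.dec.le Y (by push_cast; ring) hypq
  have hxgr : x ∈ (baseW T.W ℂ).gr Y (2 * Y.dim) := T.dec.le Y (by push_cast; exact h) hx
  have hy0 : y ≠ 0 := fun h => hbig (tmul_injective _ h)
  have htr : (baseW T.W ℂ).tr Y y ≠ 0 := fun h => hy0 (tr_inj hygr h)
  set c : (baseW T.W ℂ).K := (baseW T.W ℂ).tr Y x / (baseW T.W ℂ).tr Y y with hc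
  have h1 : x - c • y = 0 := by
    refine tr_inj (Submodule.sub_mem _ hxgr (Submodule.smul_mem _ _ hygr)) ?_
    rw [map_sub, map_smul, smul_eq_mul, hc, div_mul_cancel₀ _ htr, sub_self]
  have h2 : x = c • y := sub_eq_zero.1 h1
  have h3 : x ∈ T.pq Y Y.dim Y.dim := by
    rw [h2]
    exact Submodule.smul_mem _ _ hypq
  have h4 := (T.dec.indep Y).pairwiseDisjoint (show ((p, q) : ℤ × ℤ) ≠ ((Y.dim : ℤ), (Y.dim : ℤ))
    from fun h => hne (congrArg Prod.fst h))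
  exact (Submodule.disjoint_def.1 h4) x hx h3

lemma tr_act {φ : ℤ × ℤ → ℂ} (hpos : ∀ (Y : 𝒱.Obj) (p q : ℤ), p < 0 ∨ q < 0 → T.pq Y p q = ⊥)
    (hφ : ∀ d : ℤ, φ (d, d) = 1) (x : (baseW T.W ℂ).H Y) :
    (baseW T.W ℂ).tr Y (act T φ Y x) = (baseW T.W ℂ).tr Y x := by
  refine pq_ind T (p := fun x => (baseW T.W ℂ).tr Y (act T φ Y x) = (baseW T.W ℂ).tr Y x)
    ?_ ?_ ?_ x
  · rw [map_zero]
  · intro x x' hx hx'; rw [map_add, map_add, hx, hx', map_add]
  · intro r x hx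
    by_cases h0 : x = 0
    · rw [h0, map_zero]
    rw [act_of T φ hx, map_smul]
    have h1 : 0 ≤ r.1 ∧ 0 ≤ r.2 := by
      by_contra hcon
      have h2 : r.1 < 0 ∨ r.2 < 0 := by omega
      rw [hpos Y r.1 r.2 h2] at hx
      exact h0 ((Submodule.mem_bot _).1 hx)
    have h2 : x ∈ (baseW T.W ℂ).gr Y (r.1 + r.2).toNat :=
      T.dec.le Y (by rw [Int.toNat_of_nonneg (by linarith [h1.1, h1.2])]) hx
    by_cases hd : (r.1 + r.2).toNat = 2 * Y.dim
    · by_cases hr : r.1 = Y.dim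
      · have h3 : r = ((Y.dim : ℤ), (Y.dim : ℤ)) := by
          apply Prod.ext
          · exact hr
          · have : r.1 + r.2 = 2 * Y.dim := by omega
            simp only
            omega
        rw [h3, hφ]
        exact one_smul _ _
      · exact absurd (top_type T (by omega) hr hx) h0
    · rw [(baseW T.W ℂ).tr_eq_zero h2 hd]
      exact smul_zero _

end Pool.Agent.R914.UN
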