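import Pool.Agent.R914.UN.GPhi

/-!
# The cohomology of the powers in coordinates: contractions and operators
-/

set_option linter.unusedSectionVars false
set_option linter.unusedVariables false

open CategoryTheory AlgebraicGeometry CategoryTheory.Limits Matrix

universe u v

namespace Pool.Agent.R914.UN

open Pool.Agent.H914 Pool.Agent.H447 Pool.Agent.W534 Pool.Agent.Y163 VarClass Obj WeilCohomology
  Module

open Pool.Agent.Y133.Half (Sys)

variable {k : Type u} [Field k] {𝒱 : VarClass k} {ops : CycleOps 𝒱}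
  {W : WeilCohomology.{u, 0} ops} {X : 𝒱.Obj} {ι : Type} [Fintype ι] [DecidableEq ι]
  (B : HBasis W X ι)

lemma con_mon (n : ℕ) (i j : ι) (w : Fin (n + 1) → ι) :
    W.push (snd X (pw X n)) (W.map (Obj.lift (fst X (pw X n)) (𝟙 (X.prod (pw X n))) :
      X.prod (pw X n) ⟶ X.prod (X.prod (pw X n)))
      (mon B (n + 2) (Fin.cons i (Fin.cons j w) : Fin (n + 3) → ι))) =
      W.tr X (B.b i * B.b j) • mon B n w := by
  have h1 : mon B (n + 2) (Fin.cons i (Fin.cons j w) : Fin (n + 3) → ι) =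
      W.map (fst X (X.prod (pw X n))) (B.b i) * W.map (snd X (X.prod (pw X n)))
        (W.map (fst X (pw X n)) (B.b j) * W.map (snd X (pw X n)) (mon B n w)) := rfl
  have h2 : W.map (Obj.lift (fst X (pw X n)) (𝟙 (X.prod (pw X n))) :
      X.prod (pw X n) ⟶ X.prod (X.prod (pw X n)))
      (W.map (fst X (X.prod (pw X n))) (B.b i) * W.map (snd X (X.prod (pw X n)))
        (W.map (fst X (pw X n)) (B.b j) * W.map (snd X (pw X n)) (mon B n w))) =
      W.map (fst X (pw X n)) (B.b i * B.b j) * W.map (snd X (pw X n)) (mon B n w) := by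
    rw [map_mul, ← W.map_comp, ← W.map_comp, Obj.lift_fst, Obj.lift_snd, W.map_id,
      map_mul (W.map (fst X (pw X n))), mul_assoc]
  rw [h1, h2]
  exact W.push_snd _ _

/-- Contractions in coordinates. -/
theorem Phi_con (n : ℕ) : ∃ f : X.prod (pw X n) ⟶ pw X (n + 2),
    ∀ v : (Fin (n + 3) → ι) → W.K, W.push (snd X (pw X n)) (W.map f (Phi B (n + 2) v)) =
      Phi B n (fun w => ∑ i, ∑ j, W.tr X (B.b i * B.b j) * v (Fin.cons i (Fin.cons j w))) := by
  refine ⟨(Obj.lift (fst X (pw X n)) (𝟙 (X.prod (pw X n))) :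
      X.prod (pw X n) ⟶ X.prod (X.prod (pw X n))), fun v => ?_⟩
  let L : W.H (pw X (n + 2)) →ₗ[W.K] W.H (pw X n) :=
    (W.push (snd X (pw X n))) ∘ₗ (W.map (Obj.lift (fst X (pw X n)) (𝟙 (X.prod (pw X n))) :
      X.prod (pw X n) ⟶ X.prod (X.prod (pw X n)))).toLinearMap
  change L (Phi B (n + 2) v) = _
  rw [Phi_apply, Phi_apply, map_sum]
  have h1 : ∀ I : Fin (n + 3) → ι, L (v I • mon B (n + 2) I) =
      v I • (W.tr X (B.b (I 0) * B.b (I 1)) • mon B n (fun k => I k.succ.succ)) := by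
    intro I
    rw [map_smul]
    congr 1
    have h2 := con_mon B n (I 0) (I 1) (fun k => I k.succ.succ)
    have h3 : (Fin.cons (I 0) (Fin.cons (I 1) (fun k : Fin (n + 1) => I k.succ.succ)) :
        Fin (n + 3) → ι) = I := by
      funext k
      refine Fin.cases rfl (fun k => ?_) k
      refine Fin.cases rfl (fun k => rfl) k
    rw [h3] at h2
    exact h2
  rw [Finset.sum_congr rfl fun I _ => h1 I]
  -- reindexing
  have h4 : ∀ F : (Fin (n + 3) → ι) → W.H (pw X n), ∑ I, F I =
      ∑ w : Fin (n + 1) → ι, ∑ i, ∑ j, F (Fin.cons i (Fin.cons j w)) := by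
    intro F
    have e1 : ∑ I, F I = ∑ x : ι × (Fin (n + 2) → ι), F (Fin.cons x.1 x.2) :=
      (Fintype.sum_equiv (Fin.consEquiv (fun _ : Fin (n + 3) => ι)) _ _ (fun x => rfl)).symm
    have e2 : ∀ G : (Fin (n + 2) → ι) → W.H (pw X n), ∑ I, G I =
        ∑ x : ι × (Fin (n + 1) → ι), G (Fin.cons x.1 x.2) := fun G =>
      (Fintype.sum_equiv (Fin.consEquiv (fun _ : Fin (n + 2) => ι)) _ _ (fun x => rfl)).symm
    rw [e1, Fintype.sum_prod_type]
    have e3 : ∀ i : ι, ∑ I : Fin (n + 2) → ι, F (Fin.cons i I) =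
        ∑ w : Fin (n + 1) → ι, ∑ j, F (Fin.cons i (Fin.cons j w)) := by
      intro i
      rw [e2 (fun I => F (Fin.cons i I)), Fintype.sum_prod_type, Finset.sum_comm]
    simp only [e3]
    rw [Finset.sum_comm]
  rw [h4]
  refine Finset.sum_congr rfl fun w _ => ?_
  rw [Finset.sum_smul]
  refine Finset.sum_congr rfl fun i _ => ?_
  rw [Finset.sum_smul]
  refine Finset.sum_congr rfl fun j _ => ?_
  rw [mul_comm, ← smul_smul]
  rfl

/-- Operators on the first factor in coordinates. -/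
theorem Phi_op (S : Sys W) {f : Module.End W.K (W.H X)} (hf : f ∈ S.Op X X) (a : ι → W.K)
    (ha : ∀ i, f (B.b i) = a i • B.b i) (n : ℕ) {v : (Fin (n + 1) → ι) → W.K}
    (hv : Phi B n v ∈ S.C (pw X n)) : Phi B n (fun w => a (w 0) * v w) ∈ S.C (pw X n) := by
  have key : ∃ F : Module.End W.K (W.H (pw X n)), F ∈ S.Op (pw X n) (pw X n) ∧
      ∀ I, F (mon B n I) = a (I 0) • mon B n I := by
    cases n with
    | zero => exact ⟨f, hf, fun I => ha (I 0)⟩
    | succ n =>
      refine ⟨extOp W f LinearMap.id, Sys.Op.ext hf Sys.Op.id, fun I => ?_⟩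
      have h1 : extOp W f (LinearMap.id : Module.End W.K (W.H (pw X n)))
          (W.map (fst X (pw X n)) (B.b (I 0)) * W.map (snd X (pw X n)) (mon B n (Fin.tail I))) =
          a (I 0) • (W.map (fst X (pw X n)) (B.b (I 0)) *
            W.map (snd X (pw X n)) (mon B n (Fin.tail I))) := by
        rw [extOp_tmul, ha, map_smul, smul_mul_assoc]
        rfl
      exact h1
  obtain ⟨F, hF, hFm⟩ := key
  have h1 := Sys.Op.apply (T := S) (fun _ => le_rfl) hF hv
  have h2 : F (Phi B n v) = Phi B n (fun w => a (w 0) * v w) := by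
    rw [Phi_apply, Phi_apply, map_sum]
    refine Finset.sum_congr rfl fun I _ => ?_
    rw [map_smul, hFm, smul_smul, mul_comm]
  rwa [h2] at h1

end Pool.Agent.R914.UN
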