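import Pool.Agent.R914.UN.GMonA
import Pool.Agent.R914.UN.GMonB

/-!
# Tensors and classes on the powers of a variety: collected
-/
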