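import Pool.Agent.R914.UN.GPar
import Pool.Agent.R914.UN.GMon
import Pool.Agent.R914.UN.BSysP

/-!
# Uniform bounded generation: assembly
-/

set_option linter.unusedSectionVars false
set_option linter.unusedVariables false

open CategoryTheory AlgebraicGeometry CategoryTheory.Limits TensorProduct Matrix

universe u v

namespace Pool.Agent.R914.UN

open Pool.Agent.H914 Pool.Agent.H447 Pool.Agent.W534 Pool.Agent.Y163 VarClass Obj WeilCohomology
  Module
open Pool.Agent.Y121 Pool.Agent.R940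
open Pool.Agent.Y133.Half (Sys PH Ev Adj)

variable {k : Type u} [Field k] {𝒱 : VarClass k} {ops : CycleOps 𝒱}

variable {T : AH.HodgeTheory ops} {X Y Z : 𝒱.Obj} {ι : Type} [Fintype ι] [DecidableEq ι]

/-- The tensors given by classes of the system. -/
noncomputable def AS (S : Sys (baseW T.W ℂ)) (B : HBasis (baseW T.W ℂ) X ι) (n : ℕ) :
    Submodule ℂ ((Fin (n + 1) → ι) → ℂ) :=
  ((S.C (pw X n)).comap (Phi B n) :
    Submodule (baseW T.W ℂ).K ((Fin (n + 1) → ι) → (baseW T.W ℂ).K))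

lemma mem_AS {S : Sys (baseW T.W ℂ)} {B : HBasis (baseW T.W ℂ) X ι} {n : ℕ}
    {v : (Fin (n + 1) → ι) → ℂ} : v ∈ AS S B n ↔ Phi B n v ∈ S.C (pw X n) := Iff.rfl

/-- The system of tensors. -/
noncomputable def bsys (S : Sys (baseW T.W ℂ)) (B : HBasis (baseW T.W ℂ) X ι)
    (hS : evp T X ∈ S.Op X X)
    (hc : ∀ (Y : 𝒱.Obj) (x : (baseW T.W ℂ).H Y), x ∈ S.C Y → sm (cK T) Y x ∈ S.C Y) : BSys ι where
  A n := AS S B n
  par i := decide (Even (B.deg i))
  J := Matrix.of fun i j => (show ℂ from (baseW T.W ℂ).tr X (B.b i * B.b j))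
  K := mt B (sm (cK T) X)
  perm n σ := by
    obtain ⟨s, hs, h⟩ := Phi_perm B n σ
    refine ⟨s, hs, fun v hv => ?_⟩
    have h1 := S.map (perm X n σ) hv
    rw [h] at h1
    exact h1
  ev n v hv := by
    have h1 := Phi_op B S hS (fun i => if Even (B.deg i) then 1 else 0)
      (fun i => evp_apply (B.mem i)) n hv
    have h2 : (fun w : Fin (n + 1) → ι => (if Even (B.deg (w 0)) then
        (1 : (baseW T.W ℂ).K) else 0) * (show (baseW T.W ℂ).K from v w)) =
        fun w => if decide (Even (B.deg (w 0))) = true then v w else 0 := by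
      funext w
      by_cases h : Even (B.deg (w 0))
      · rw [if_pos h, if_pos (by simpa using h)]
        exact one_mul _
      · rw [if_neg h, if_neg (by simpa using h)]
        exact zero_mul _
    exact (congrArg (fun u => Phi B n u ∈ S.C (pw X n)) h2).mp h1
  mul n m v hv u hu := by
    obtain ⟨f, g, h⟩ := Phi_mul B n m
    have h1 := S.mul (S.map f hv) (S.map g hu)
    rw [h] at h1
    exact h1
  con n v hv := by
    obtain ⟨f, h⟩ := Phi_con B n
    have h1 := S.push (snd X (pw X n)) (S.map f hv)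
    rw [h] at h1
    exact h1
  conj n v hv := by
    have h1 := hc _ _ (mem_AS.1 hv)
    have h2 := Phi_hom (τ := starRingEnd ℂ) B (fun Y => sm (cK T) Y)
      (fun Y c x => sm_smul (cK T) c x) (fun f x => sm_map (cK T) f x)
      (mt B (sm (cK T) X)) (fun i => mt_sum B _ i) n v
    rw [h2] at h1
    exact h1

lemma gam_Phi (B : HBasis (baseW T.W ℂ) X ι) (σ : ℂ ≃ₐ[T.W.K] ℂ) {z : ℂ} (hz : z ≠ 0) (n : ℕ)
    (v : (Fin (n + 1) → ι) → ℂ) : gam σ z (pw X n) (Phi B n v) =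
      Phi B n (tp (Fin (n + 1)) (mt B (gam σ z X)) *ᵥ v) :=
  Phi_hom (τ := RingHom.id _) B (fun Y => gamR σ hz Y) (fun Y c x => map_smul (gam σ z Y) c x)
    (fun f x => gam_map σ z f x) (mt B (gam σ z X)) (fun i => mt_sum B _ i) n v

/-- The fixed tensors. -/
lemma fix_iff (hpos : ∀ (Y : 𝒱.Obj) (p q : ℤ), p < 0 ∨ q < 0 → T.pq Y p q = ⊥)
    (B : HBasis (baseW T.W ℂ) X ι) (n : ℕ) (v : (Fin (n + 1) → ι) → ℂ) :
    (∀ g ∈ gen (2 * X.dim) (crvs B), tp (Fin (n + 1)) g *ᵥ v = v) ↔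
      ∀ (σ : ℂ ≃ₐ[T.W.K] ℂ) (z : ℂ), z ≠ 0 → gam σ z (pw X n) (Phi B n v) = Phi B n v := by
  constructor
  · intro h σ z hz
    exact (gam_Phi B σ hz n v).trans (congrArg (Phi B n) (h _ (gam_mem_gen B hpos σ hz)))
  · intro h g hg
    refine gen_induction B hpos (p := fun g => tp (Fin (n + 1)) g *ᵥ v = v) ?_ ?_ ?_ hg
    · rw [tp_one, Matrix.one_mulVec]
    · intro g g' hg hg'
      rw [tp_mul, ← Matrix.mulVec_mulVec, hg', hg]
    · intro σ z hz
      have h1 := h σ z hz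
      rw [gam_Phi B σ hz] at h1
      exact (Phi_bijective B n).1 h1

/-- **The theorem for systems of classes.** -/
theorem sys_main (hpos : ∀ (Y : 𝒱.Obj) (p q : ℤ), p < 0 ∨ q < 0 → T.pq Y p q = ⊥)
    {ψ : LinearMap.BilinForm T.W.K (T.W.H X)} (hψ : IsPol ψ) (B : HBasis (baseW T.W ℂ) X ι)
    (hB : ∀ i j, hf ψ (B.b i) (B.b j) = if i = j then 1 else 0) (S : Sys (baseW T.W ℂ))
    (hfix : ∀ (Y : 𝒱.Obj) (x : (baseW T.W ℂ).H Y), x ∈ S.C Y →
      ∀ (σ : ℂ ≃ₐ[T.W.K] ℂ) (z : ℂ), z ≠ 0 → gam σ z Y x = x)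
    (hc : ∀ (Y : 𝒱.Obj) (x : (baseW T.W ℂ).H Y), x ∈ S.C Y → sm (cK T) Y x ∈ S.C Y) {D : ℕ}
    (hD : degBound (Fintype.card ι) (2 * X.dim) ≤ D)
    (hN : ∀ m : ℕ, m + 1 ≤ 2 * D → ∀ x : (baseW T.W ℂ).H (pw X m),
      (∀ (σ : ℂ ≃ₐ[T.W.K] ℂ) (z : ℂ), z ≠ 0 → gam σ z (pw X m) x = x) → x ∈ S.C (pw X m))
    (n : ℕ) (x : (baseW T.W ℂ).H (pw X n))
    (hx : ∀ (σ : ℂ ≃ₐ[T.W.K] ℂ) (z : ℂ), z ≠ 0 → gam σ z (pw X n) x = x) : x ∈ S.C (pw X n) := by
  have hD1 : 1 ≤ D := by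
    refine le_trans ?_ hD
    rw [degBound]
    exact Nat.mul_pos (by positivity) (Nat.pow_pos (by positivity))
  have hev : evp T X ∈ S.Op X X := evp_mem S (hN 1 (by omega))
  obtain ⟨P, hPJ, hPK, hPA⟩ := (bsys S B hev hc).exists_psys
  have hPJ' : P.J = Matrix.of fun i j => (show ℂ from (baseW T.W ℂ).tr X (B.b i * B.b j)) := hPJ
  have hPK' : P.K = mt B (sm (cK T) X) := hPK
  have hPA' : ∀ (n : ℕ) (v : (Fin (n + 1) → ι) → ℂ), v ∈ P.A (Fin (n + 1)) ↔
      Phi B n v ∈ S.C (pw X n) := hPA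
  obtain ⟨v, hv⟩ := (Phi_bijective B n).2 x
  rw [← hv, ← hPA']
  rw [← hv] at hx
  have hsame : ∀ (n : ℕ) (v : (Fin (n + 1) → ι) → ℂ), v ∈ P.A (Fin (n + 1)) →
      ∀ g ∈ gen (2 * X.dim) (crvs B), tp (Fin (n + 1)) g *ᵥ v = v := by
    intro n v hv
    exact (fix_iff hpos B n v).2 (hfix _ _ ((hPA' n v).1 hv))
  refine P.main (w := 2 * X.dim) (T := crvs B) (Ψ := Matrix.of
    (fun i j => (show ℂ from psi ψ (B.b j) (B.b i)))) (C := mt B (gam AlgEquiv.refl Complex.I X))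
    (C' := mt B (gam AlgEquiv.refl Complex.I⁻¹ X))
    (crv_one B hpos) ?_ ?_ (gam_mem_gen B hpos _ Complex.I_ne_zero)
    (gam_mem_gen B hpos _ (inv_ne_zero Complex.I_ne_zero)) ?_ ?_ ?_ ?_ ?_ ?_ hD ?_
    ((fix_iff hpos B n v).2 hx)
  · rw [hPK']
    exact det_conj B
  · rw [hPK']
    exact crv_inv B hpos
  · rw [← mt_comp_lin, ← mt_id B]
    congr 1
    funext y
    rw [gam_gam, inv_mul_cancel₀ Complex.I_ne_zero, gam_id]
  · rw [hPK']
    exact pol_mul B hB
  · rw [hPJ']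
    exact det_tr B
  · intro g hg
    rw [hPJ']
    have h1 := form_gen B hpos (LinearMap.flip (LinearMap.mk₂ (baseW T.W ℂ).K
      (fun x y => (baseW T.W ℂ).tr X (x * y))
      (fun x y z => by rw [add_mul, map_add]) (fun c x y => by rw [smul_mul_assoc, map_smul])
      (fun x y z => by rw [mul_add, map_add]) (fun c x y => by rw [mul_smul_comm, map_smul])))
      (fun σ z hz x y => by
        rw [LinearMap.flip_apply, LinearMap.flip_apply, LinearMap.mk₂_apply, LinearMap.mk₂_apply,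
          ← gam_mul σ hz, gam_tr σ hpos]) hg
    exact h1
  · intro g hg
    exact form_gen B hpos (psi ψ) (fun σ z hz x y => psi_gam hψ σ hz x y) hg
  · intro κ _ _ u hu g hg
    rcases isEmpty_or_nonempty κ with he | hne
    · have h1 : tp κ g = 1 := by
        ext I J
        rw [tp_apply, Fintype.prod_empty, Subsingleton.elim I J, Matrix.one_apply_eq]
      rw [h1, Matrix.one_mulVec]
    · obtain ⟨m, ⟨e⟩⟩ : ∃ m, Nonempty (κ ≃ Fin (m + 1)) := by
        have h1 : 0 < Fintype.card κ := Fintype.card_pos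
        obtain ⟨m, hm⟩ := Nat.exists_eq_succ_of_ne_zero h1.ne'
        exact ⟨m, ⟨Fintype.equivFinOfCardEq hm⟩⟩
      have h1 := hsame m _ (P.relabel e hu) g hg
      funext I
      have h2 := congrFun h1 (I ∘ e.symm)
      have h3 : (I ∘ e.symm) ∘ e = I := by
        funext i
        simp
      rw [h3] at h2
      refine Eq.trans ?_ h2
      rw [Matrix.mulVec, Matrix.mulVec, dotProduct, dotProduct]
      refine Fintype.sum_equiv (e.arrowCongr (Equiv.refl ι)) _ _ fun J => ?_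
      rw [tp_apply, tp_apply]
      have h4 : ((e.arrowCongr (Equiv.refl ι)) J) ∘ e = J := by
        funext i
        simp
      rw [h4]
      congr 1
      refine Fintype.prod_equiv e _ _ fun i => ?_
      simp
  · intro m hm u hu
    rcases Nat.eq_zero_or_pos m with rfl | hm0
    · exact P.empty u
    · obtain ⟨m, rfl⟩ := Nat.exists_eq_succ_of_ne_zero hm0.ne'
      exact (hPA' m u).2 (hN m hm _ ((fix_iff hpos B m u).1 hu))

end Pool.Agent.R914.UN
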