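import Pool.Agent.R914.UN.GSem
import Pool.Agent.TH119.MX.Gal

/-!
# The classes fixed by the conjugates of the torus are the Hodge classes
-/

set_option linter.unusedSectionVars false
set_option linter.unusedVariables false

open CategoryTheory AlgebraicGeometry CategoryTheory.Limits TensorProduct

universe u v

namespace Pool.Agent.R914.UN

open Pool.Agent.H914 Pool.Agent.H447 Pool.Agent.W534 Pool.Agent.Y163 VarClass Obj WeilCohomology
  Module
open Pool.Agent.Y121 Pool.Agent.R940

variable {k : Type u} [Field k] {𝒱 : VarClass k} {ops : CycleOps 𝒱}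

variable {T : AH.HodgeTheory ops} {X Y Z : 𝒱.Obj}

lemma act_add (φ ψ : ℤ × ℤ → ℂ) (x : (baseW T.W ℂ).H Y) :
    act T (fun r => φ r + ψ r) Y x = act T φ Y x + act T ψ Y x := by
  refine pq_ind T (p := fun x => act T (fun r => φ r + ψ r) Y x = act T φ Y x + act T ψ Y x)
    ?_ ?_ ?_ x
  · rw [map_zero, map_zero, map_zero, add_zero]
  · intro x y hx hy
    rw [map_add, map_add, map_add, hx, hy]
    exact add_add_add_comm _ _ _ _
  · intro r x hx
    rw [act_of T _ hx, act_of T _ hx, act_of T _ hx]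
    exact add_smul (R := (baseW T.W ℂ).K) (φ r) (ψ r) x

/-- The indicator function. -/
noncomputable def ind (p : ℤ × ℤ → Prop) [DecidablePred p] : ℤ × ℤ → ℂ := fun r => if p r then 1 else 0

/-- Classes fixed by the torus. -/
lemma act_ind_of_fixed {x : (baseW T.W ℂ).H Y} (h : act T (chi 2) Y x = x) :
    act T (ind fun r => r.1 = r.2) Y x = x := by
  set θ : ℤ × ℤ → ℂ := fun r => if r.1 = r.2 then 0 else (chi 2 r - 1)⁻¹ with hθ
  have h1 : (fun r => θ r * chi 2 r) = fun r => θ r + (if r.1 = r.2 then 0 else 1) := by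
    funext r
    by_cases hr : r.1 = r.2
    · simp [hθ, hr]
    · have h2 : chi 2 r - 1 ≠ 0 := by
        intro h3
        have h4 : (2 : ℂ) ^ (r.1 - r.2) = 1 := sub_eq_zero.1 h3
        have h5 : ‖(2 : ℂ) ^ (r.1 - r.2)‖ = 1 := by rw [h4, norm_one]
        rw [norm_zpow] at h5
        have h6 : ‖(2 : ℂ)‖ = 2 := by simp
        rw [h6] at h5
        have h7 := (zpow_eq_one_iff_right₀ (a := (2 : ℝ)) (by norm_num) (by norm_num)).1 h5
        exact hr (by omega)
      simp only [hθ, if_neg hr]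
      field_simp
      ring
  have h2 : act T θ Y (act T (chi 2) Y x) = act T θ Y x := by rw [h]
  rw [act_act, h1, act_add] at h2
  have h3 : act T (fun r => if r.1 = r.2 then 0 else 1) Y x = 0 := by
    exact add_eq_left.1 h2
  have h4 : act T (fun r => ind (fun r => r.1 = r.2) r + (if r.1 = r.2 then 0 else 1)) Y x = x := by
    have h5 : (fun r : ℤ × ℤ => ind (fun r => r.1 = r.2) r + (if r.1 = r.2 then (0 : ℂ) else 1)) =
        fun _ => 1 := by
      funext r
      by_cases hr : r.1 = r.2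
      · simp [ind, hr]
      · simp [ind, hr]
    rw [h5, act_one']
  rw [act_add, h3, add_zero] at h4
  exact h4

lemma gr_le (i : ℕ) : (baseW T.W ℂ).gr Y i ≤
    ⨆ r : {r : ℤ × ℤ // r.1 + r.2 = i}, T.pq Y r.1.1 r.1.2 := by
  intro x hx
  refine SG_ind (T := T) (L := ℂ) (G := T.W.gr Y i)
    (P := fun x => x ∈ ⨆ r : {r : ℤ × ℤ // r.1 + r.2 = i}, T.pq Y r.1.1 r.1.2) ?_ ?_ ?_ ?_ hx
  · exact Submodule.zero_mem _
  · intro x y hx hy; exact Submodule.add_mem _ hx hy
  · intro c x hx; exact Submodule.smul_mem _ _ hx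
  · intro a ha; exact T.dec.span ha

lemma act_gr (φ : ℤ × ℤ → ℂ) {i : ℕ} {x : (baseW T.W ℂ).H Y} (hx : x ∈ (baseW T.W ℂ).gr Y i) :
    act T φ Y x ∈ (baseW T.W ℂ).gr Y i := by
  refine Submodule.iSup_induction _ (motive := fun x => act T φ Y x ∈ (baseW T.W ℂ).gr Y i)
    (gr_le i hx) ?_ ?_ ?_
  · intro r x hx
    exact T.dec.le Y r.2 (act_mem T φ (r := r.1) hx)
  · rw [map_zero]; exact Submodule.zero_mem _
  · intro x y hx hy; rw [map_add]; exact Submodule.add_mem _ hx hy

lemma act_proj (φ : ℤ × ℤ → ℂ) (i : ℕ) (x : (baseW T.W ℂ).H Y) :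
    H914.proj ((baseW T.W ℂ).isInternal Y) i (act T φ Y x) =
      act T φ Y (H914.proj ((baseW T.W ℂ).isInternal Y) i x) := by
  refine gr_induction ((baseW T.W ℂ).isInternal Y)
    (p := fun x => H914.proj ((baseW T.W ℂ).isInternal Y) i (act T φ Y x) =
      act T φ Y (H914.proj ((baseW T.W ℂ).isInternal Y) i x)) ?_ ?_ x
  · intro j x hx
    by_cases hj : j = i
    · subst hj
      rw [proj_same _ (act_gr φ hx), proj_same _ hx]
    · rw [proj_ne _ (act_gr φ hx) hj, proj_ne _ hx hj, map_zero]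
  · intro x y hx hy
    rw [map_add, map_add, hx, hy, map_add, map_add]

lemma em_proj (i : ℕ) (a : T.W.H Y) : H914.proj ((baseW T.W ℂ).isInternal Y) i (AH.em T.W ℂ a) =
    AH.em T.W ℂ (H914.proj (T.W.isInternal Y) i a) := by
  refine gr_induction (T.W.isInternal Y)
    (p := fun a => H914.proj ((baseW T.W ℂ).isInternal Y) i (AH.em T.W ℂ a) =
      AH.em T.W ℂ (H914.proj (T.W.isInternal Y) i a)) ?_ ?_ a
  · intro j a ha
    by_cases hj : j = i
    · subst hj
      rw [proj_same _ (AH.em_gr ha), proj_same _ ha]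
    · rw [proj_ne _ (AH.em_gr ha) hj, proj_ne _ ha hj, AH.em_zero]
  · intro x y hx hy
    rw [AH.em_add, map_add, hx, hy, map_add, AH.em_add]

/-- Rational classes fixed by the torus. -/
lemma hodge_of_fixed {a : T.W.H Y} (h : act T (chi 2) Y (AH.em T.W ℂ a) = AH.em T.W ℂ a) :
    a ∈ (AH.hodgePred T).sp Y := by
  have h1 := act_ind_of_fixed h
  have h2 : ∀ i, H914.proj (T.W.isInternal Y) i a ∈ (AH.hodgePred T).sp Y := by
    intro i
    set b := H914.proj (T.W.isInternal Y) i a with hb
    have hbg : b ∈ T.W.gr Y i := H914.proj_mem _ _ _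
    have h3 : act T (ind fun r => r.1 = r.2) Y (AH.em T.W ℂ b) = AH.em T.W ℂ b := by
      rw [hb, ← em_proj, ← act_proj, h1]
    have h4 := T.dec.span hbg
    rcases Nat.even_or_odd' i with ⟨j, rfl | rfl⟩
    · refine Pool.Agent.Y133.Half.ClassPred.sp_of (j := j) (Q := AH.hodgePred T) ⟨hbg, ?_⟩
      rw [← h3]
      refine Submodule.iSup_induction _
        (motive := fun x => act T (ind fun r => r.1 = r.2) Y x ∈ T.pq Y j j) h4 ?_ ?_ ?_
      · intro r x hx
        rw [act_of T _ (r := r.1) hx]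
        by_cases hr : r.1.1 = r.1.2
        · have h5 : r.1.1 = j := by
            have := r.2
            push_cast at this
            omega
          have h6 : r.1.2 = j := by omega
          rw [h5, h6] at hx
          exact Submodule.smul_mem _ _ hx
        · have h5 : ind (fun r => r.1 = r.2) r.1 = 0 := if_neg hr
          rw [h5]
          exact (congrArg (· ∈ T.pq Y j j) (zero_smul (baseW T.W ℂ).K x)).mpr
            (Submodule.zero_mem _)
      · rw [map_zero]; exact Submodule.zero_mem _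
      · intro x y hx hy; rw [map_add]; exact Submodule.add_mem _ hx hy
    · have h5 : AH.em T.W ℂ b = 0 := by
        rw [← h3]
        refine Submodule.iSup_induction _
          (motive := fun x => act T (ind fun r => r.1 = r.2) Y x = 0) h4 ?_ ?_ ?_
        · intro r x hx
          rw [act_of T _ (r := r.1) hx]
          have hr : ¬ r.1.1 = r.1.2 := by
            intro hr
            have := r.2
            push_cast at this
            omega
          have h5 : ind (fun r => r.1 = r.2) r.1 = 0 := if_neg hr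
          rw [h5]
          exact zero_smul (baseW T.W ℂ).K x
        · rw [map_zero]
        · intro x y hx hy; rw [map_add, hx, hy, add_zero]
      rw [AH.em_injective h5]
      exact Submodule.zero_mem _
  have h3 := congrArg (fun f : Module.End T.W.K (T.W.H Y) => f a)
    (sum_proj (T.W.isInternal Y) (N := 2 * Y.dim + 1) fun i hi => T.W.gr_eq_bot Y i (by omega))
  simp only [LinearMap.sum_apply, Module.End.one_apply] at h3
  rw [← h3]
  exact Submodule.sum_mem _ fun i _ => h2 i

/-- The Hodge classes are fixed. -/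
lemma gam_em {a : T.W.H Y} (ha : a ∈ (AH.hodgePred T).sp Y) (σ : ℂ ≃ₐ[T.W.K] ℂ) (z : ℂ) :
    gam σ z Y (AH.em T.W ℂ a) = AH.em T.W ℂ a := by
  refine Pool.Agent.Y133.Half.ClassPred.sp_ind (Q := AH.hodgePred T)
    (q := fun a => gam σ z Y (AH.em T.W ℂ a) = AH.em T.W ℂ a) ?_ ?_ ?_ ha
  · intro j c hc
    rw [gam_apply, sm_em, act_of T _ (r := ((j : ℤ), (j : ℤ))) hc.2, chi_diag]
    refine (congrArg (sm σ Y) (one_smul (baseW T.W ℂ).K (AH.em T.W ℂ c))).trans (sm_em σ c)
  · rw [AH.em_zero, map_zero]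
  · intro a b ha hb
    rw [AH.em_add, map_add, ha, hb]

lemma gam_SG {x : (baseW T.W ℂ).H Y} (hx : x ∈ SG ℂ ((AH.hodgePred T).sp Y))
    (σ : ℂ ≃ₐ[T.W.K] ℂ) (z : ℂ) : gam σ z Y x = x := by
  refine SG_ind (T := T) (L := ℂ) (P := fun x => gam σ z Y x = x) ?_ ?_ ?_ ?_ hx
  · rw [map_zero]
  · intro x y hx hy; rw [map_add, hx, hy]
  · intro c x hx; rw [map_smul, hx]
  · intro a ha; exact gam_em ha σ z

lemma sm_inj (σ : ℂ ≃ₐ[T.W.K] ℂ) {x y : (baseW T.W ℂ).H Y} (h : sm σ Y x = sm σ Y y) : x = y := by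
  rw [← sm_symm' σ x, h, sm_symm']

/-- **Descent**: the classes fixed by the conjugates of the torus are combinations of Hodge
classes. -/
theorem fixed_mem {x : (baseW T.W ℂ).H Y}
    (hx : ∀ (σ : ℂ ≃ₐ[T.W.K] ℂ) (z : ℂ), z ≠ 0 → gam σ z Y x = x) :
    x ∈ SG ℂ ((AH.hodgePred T).sp Y) := by
  classical
  let b := Module.finBasis T.W.K (T.W.H Y)
  let bC : Basis (Fin (finrank T.W.K (T.W.H Y))) ℂ (ℂ ⊗[T.W.K] T.W.H Y) :=
    Algebra.TensorProduct.basis ℂ b
  let E : (Fin (finrank T.W.K (T.W.H Y)) → ℂ) →ₗ[ℂ] (ℂ ⊗[T.W.K] T.W.H Y) :=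
    bC.equivFun.symm.toLinearMap
  have hE : ∀ v, (show (baseW T.W ℂ).H Y from E v) =
      ∑ i, (show (baseW T.W ℂ).K from v i) • AH.em T.W ℂ (b i) := by
    intro v
    have h1 : E v = ∑ i, v i • bC i := bC.equivFun_symm_apply v
    have h2 : ∀ i, bC i = (1 : ℂ) ⊗ₜ[T.W.K] b i := fun i => Algebra.TensorProduct.basis_apply b i
    refine h1.trans ?_
    exact Finset.sum_congr rfl fun i _ => congrArg (fun y => v i • y) (h2 i)
  let V : Submodule ℂ (Fin (finrank T.W.K (T.W.H Y)) → ℂ) :=
    { carrier := {v | ∀ (σ : ℂ ≃ₐ[T.W.K] ℂ) (z : ℂ), z ≠ 0 →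
        gam σ z Y (show (baseW T.W ℂ).H Y from E v) = (show (baseW T.W ℂ).H Y from E v)}
      zero_mem' := fun σ z _ => by
        have h1 : (show (baseW T.W ℂ).H Y from E 0) = 0 := map_zero E
        rw [h1, map_zero]
      add_mem' := fun {v w} hv hw σ z hz => by
        have h1 : (show (baseW T.W ℂ).H Y from E (v + w)) =
          (show (baseW T.W ℂ).H Y from E v) + (show (baseW T.W ℂ).H Y from E w) := map_add E v w
        rw [h1, map_add, hv σ z hz, hw σ z hz]
      smul_mem' := fun c v hv σ z hz => by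
        have h1 : (show (baseW T.W ℂ).H Y from E (c • v)) =
          (show (baseW T.W ℂ).K from c) • (show (baseW T.W ℂ).H Y from E v) := map_smul E c v
        rw [h1, map_smul, hv σ z hz] }
  have hstab : ∀ τ : ℂ ≃+* ℂ, (∀ x ∈ (algebraMap T.W.K ℂ).fieldRange, τ x = x) →
      ∀ v ∈ V, (fun i => τ (v i)) ∈ V := by
    intro τ _ v hv σ z hz
    have h1 : (show (baseW T.W ℂ).H Y from E (fun i => τ (v i))) =
        sm (autK T τ) Y (show (baseW T.W ℂ).H Y from E v) := by
      rw [hE, hE, map_sum]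
      exact Finset.sum_congr rfl fun i _ => by rw [sm_smul, sm_em]; rfl
    rw [h1]
    have h2 := sm_gam (σ.trans (autK T τ).symm) (autK T τ) ((autK T τ).symm z)
      (show (baseW T.W ℂ).H Y from E v)
    rw [hv _ _ (by rw [Ne, EmbeddingLike.map_eq_zero_iff]; exact hz)] at h2
    have h3 : (σ.trans (autK T τ).symm).trans (autK T τ) = σ := by
      ext w
      simp
    rw [h3, AlgEquiv.apply_symm_apply] at h2
    exact h2.symm
  have hdef := Pool.Agent.TH119.MX.defOver_of_aut V hstab
  obtain ⟨v, hv⟩ : ∃ v, E v = x := ⟨bC.equivFun x, bC.equivFun.symm_apply_apply x⟩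
  have hvV : v ∈ V := by
    intro σ z hz
    have h1 : (show (baseW T.W ℂ).H Y from E v) = x := hv
    rw [h1]
    exact hx σ z hz
  have h1 := hdef hvV
  have h2 : ∀ w ∈ Submodule.span ℂ {w | w ∈ V ∧ ∀ a, w a ∈ (algebraMap T.W.K ℂ).fieldRange},
      (show (baseW T.W ℂ).H Y from E w) ∈ SG ℂ ((AH.hodgePred T).sp Y) := by
    intro w hw
    induction hw using Submodule.span_induction with
    | mem w hw =>
      obtain ⟨hwV, hwr⟩ := hw
      choose r hr using fun a => RingHom.mem_fieldRange.1 (hwr a)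
      have h3 : (show (baseW T.W ℂ).H Y from E w) = AH.em T.W ℂ (∑ i, r i • b i) := by
        rw [hE]
        have h4 : ∀ (s : Finset (Fin (finrank T.W.K (T.W.H Y)))),
            AH.em T.W ℂ (∑ i ∈ s, r i • b i) =
              ∑ i ∈ s, (show (baseW T.W ℂ).K from w i) • AH.em T.W ℂ (b i) := by
          intro s
          induction s using Finset.induction_on with
          | empty => rw [Finset.sum_empty, Finset.sum_empty, AH.em_zero]
          | insert i s hi ih =>
            rw [Finset.sum_insert hi, Finset.sum_insert hi, AH.em_add, ih, AH.em_smul]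
            congr 2
            exact hr i
        exact (h4 _).symm
      rw [h3]
      refine em_SG (hodge_of_fixed ?_)
      have h5 := hwV AlgEquiv.refl 2 two_ne_zero
      rw [h3, gam_apply, sm_em] at h5
      exact (sm_refl (T := T) (Y := Y) _).symm.trans h5
    | zero =>
      exact (congrArg (· ∈ SG ℂ ((AH.hodgePred T).sp Y)) (map_zero E)).mpr
        (Submodule.zero_mem _)
    | add v w _ _ hv hw =>
      exact (congrArg (· ∈ SG ℂ ((AH.hodgePred T).sp Y)) (map_add E v w)).mpr
        (Submodule.add_mem _ hv hw)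
    | smul c v _ hv =>
      exact (congrArg (· ∈ SG ℂ ((AH.hodgePred T).sp Y)) (map_smul E c v)).mpr
        (Submodule.smul_mem _ (show (baseW T.W ℂ).K from c) hv)
  have h3 := h2 v h1
  exact (congrArg (· ∈ SG ℂ ((AH.hodgePred T).sp Y)) hv).mp h3

end Pool.Agent.R914.UN
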