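import Pool.Agent.R914.UN.GAsm

/-!
# Uniform bounded generation for classes of Hodge classes
-/

set_option linter.unusedSectionVars false
set_option linter.unusedVariables false

open CategoryTheory AlgebraicGeometry CategoryTheory.Limits TensorProduct Matrix

universe u v

namespace Pool.Agent.R914.UN

open Pool.Agent.H914 Pool.Agent.H447 Pool.Agent.W534 Pool.Agent.Y163 VarClass Obj WeilCohomology
  Module
open Pool.Agent.Y121 Pool.Agent.R940
open Pool.Agent.Y133.Half (Sys PH Ev Adj ClassPred)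

variable {k : Type u} [Field k] {𝒱 : VarClass k} {ops : CycleOps 𝒱}

variable {T : AH.HodgeTheory ops} {X Y Z : 𝒱.Obj}

lemma SG_mono {G G' : Submodule T.W.K (T.W.H Y)} (h : G ≤ G') {x : (baseW T.W ℂ).H Y}
    (hx : x ∈ SG ℂ G) : x ∈ SG ℂ G' := by
  refine SG_ind (T := T) (L := ℂ) (P := fun x => x ∈ SG ℂ G') ?_ ?_ ?_ ?_ hx
  · exact Submodule.zero_mem _
  · intro x y hx hy; exact Submodule.add_mem _ hx hy
  · intro c x hx; exact Submodule.smul_mem _ _ hx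
  · intro a ha; exact em_SG (h ha)

lemma sm_SG (σ : ℂ ≃ₐ[T.W.K] ℂ) {G : Submodule T.W.K (T.W.H Y)} {x : (baseW T.W ℂ).H Y}
    (hx : x ∈ SG ℂ G) : sm σ Y x ∈ SG ℂ G := by
  refine SG_ind (T := T) (L := ℂ) (P := fun x => sm σ Y x ∈ SG ℂ G) ?_ ?_ ?_ ?_ hx
  · rw [map_zero]; exact Submodule.zero_mem _
  · intro x y hx hy; rw [map_add]; exact Submodule.add_mem _ hx hy
  · intro c x hx; rw [sm_smul]; exact Submodule.smul_mem _ _ hx
  · intro a ha; rw [sm_em]; exact em_SG ha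

lemma projId (n : ℕ) : proj X (id : Fin (n + 1) → Fin (n + 1)) = 𝟙 _ := by
  apply pw_hom_ext
  intro i
  rw [proj_eq, tup_pr, Category.id_comp]
  rfl

/-- A class property passes to smaller powers. -/
lemma pred_of_le (Q : ClassPred T.W) {m M : ℕ} (h : m ≤ M)
    (hM : ∀ j c, AH.IsHodge T (pw X M) j c → Q.P (pw X M) j c) (j : ℕ) (c : T.W.H (pw X m))
    (hc : AH.IsHodge T (pw X m) j c) : Q.P (pw X m) j c := by
  obtain ⟨r, g, hrg⟩ : ∃ (r : Fin (m + 1) → Fin (M + 1)) (g : Fin (M + 1) → Fin (m + 1)),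
      g ∘ r = id := by
    refine ⟨Fin.castLE (by omega), fun i => if h : i.1 < m + 1 then ⟨i.1, h⟩ else 0, ?_⟩
    funext i
    exact (dif_pos i.2).trans (Fin.ext rfl)
  have h1 := Q.map (proj X g) (hM j _ (AH.IsHodge.map (proj X r) hc))
  have h2 : T.W.map (proj X g) (T.W.map (proj X r) c) = c := by
    rw [← T.W.map_comp, proj_comp, hrg, projId, T.W.map_id]
  rwa [h2] at h1

/-- **The theorem for properties of Hodge classes.** -/
theorem pred_main (hpos : ∀ (Y : 𝒱.Obj) (p q : ℤ), p < 0 ∨ q < 0 → T.pq Y p q = ⊥)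
    (hsym : ∀ (p q : ℤ) (x : (baseW T.W ℂ).H X), x ∈ T.pq X p q → sm (cK T) X x ∈ T.pq X q p)
    {ψ : LinearMap.BilinForm T.W.K (T.W.H X)} (hψ : IsPol ψ) (Q : ClassPred T.W)
    (hQ : ∀ (Y : 𝒱.Obj) (j : ℕ) (c : T.W.H Y), Q.P Y j c → AH.IsHodge T Y j c) {D : ℕ}
    (hD : degBound (finrank T.W.K (T.W.H X)) (2 * X.dim) ≤ D)
    (hN : ∀ j c, AH.IsHodge T (pw X (2 * D - 1)) j c → Q.P (pw X (2 * D - 1)) j c)
    (n j : ℕ) (c : T.W.H (pw X n)) (hc : AH.IsHodge T (pw X n) j c) : Q.P (pw X n) j c := by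
  obtain ⟨b, B, hb, hB⟩ := exists_hbasis_onb hsym hψ
  have hQs : ∀ Y : 𝒱.Obj, Q.sp Y ≤ (AH.hodgePred T).sp Y := fun Y =>
    Submodule.span_mono fun c ⟨j, hj⟩ => ⟨j, hQ Y j c hj⟩
  have h1 := sys_main hpos hψ B hB (Q.sys.base ℂ)
    (fun Y x hx σ z hz => gam_SG (SG_mono (hQs Y) hx) σ z)
    (fun Y x hx => sm_SG (cK T) hx) (D := D) (by rw [Fintype.card_fin, hb]; exact hD)
    (fun m hm x hx => by
      refine SG_mono ?_ (fixed_mem hx)
      intro a ha
      refine ClassPred.sp_ind (Q := AH.hodgePred T) (q := fun a => a ∈ Q.sp (pw X m)) ?_ ?_ ?_ ha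
      · intro j c hc
        exact ClassPred.sp_of (pred_of_le Q (by omega) hN j c hc)
      · exact Submodule.zero_mem _
      · intro x y hx hy; exact Submodule.add_mem _ hx hy)
    n (AH.em T.W ℂ c) (fun σ z _ => gam_em (ClassPred.sp_of (Q := AH.hodgePred T) hc) σ z)
  have h2 : c ∈ Q.sp (pw X n) := mem_of_SG (T := T) (L := ℂ) (G := Q.sp (pw X n)) h1
  have h3 := ClassPred.sp_proj h2 j
  rwa [proj_same _ hc.1] at h3

/-- The algebraic classes. -/
def algP (T : AH.HodgeTheory ops) : ClassPred T.W where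
  P X j c := ∃ z : X.Cycles, X.IsCyc j z ∧ T.W.cl X z = c
  gr := by
    rintro X j c ⟨z, hz, rfl⟩
    exact T.W.cl_mem hz
  zero := ⟨0, SmVar.IsCyc.zero _ _, map_zero _⟩
  add := by
    rintro X j a b ⟨z, hz, rfl⟩ ⟨w, hw, rfl⟩
    exact ⟨z + w, hz.add hw, map_add _ _ _⟩
  smul := by
    rintro X j r a ⟨z, hz, rfl⟩
    obtain ⟨q, rfl⟩ := T.rat r
    exact ⟨q • z, hz.smul q, T.W.cl_smul q z⟩
  cl hz := ⟨_, hz, rfl⟩
  mul := by
    rintro X i j a b ⟨z, hz, rfl⟩ ⟨w, hw, rfl⟩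
    exact ⟨ops.mul z w, ops.mul_mem hz hw, T.W.cl_mul z w⟩
  map := by
    rintro X Y f j a ⟨z, hz, rfl⟩
    exact ⟨ops.pull f z, ops.pull_mem f hz, T.W.cl_pull f z⟩
  push := by
    rintro X Y f j l h a ⟨z, hz, rfl⟩
    exact ⟨ops.push f z, ops.push_mem f hz (by omega), T.W.cl_push f z⟩

end Pool.Agent.R914.UN
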