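import Pool.Agent.R914.UN.GPol
import Pool.Agent.R914.UN.PMain
import Pool.Agent.R940.HMain

/-!
# The matrices of the conjugates of the torus
-/

set_option linter.unusedSectionVars false
set_option linter.unusedVariables false

open CategoryTheory AlgebraicGeometry CategoryTheory.Limits TensorProduct Matrix

universe u v

namespace Pool.Agent.R914.UN

open Pool.Agent.H914 Pool.Agent.H447 Pool.Agent.W534 Pool.Agent.Y163 VarClass Obj WeilCohomology
  Module
open Pool.Agent.Y121 Pool.Agent.R940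

variable {k : Type u} [Field k] {𝒱 : VarClass k} {ops : CycleOps 𝒱}

variable {T : AH.HodgeTheory ops} {X Y Z : 𝒱.Obj} {ι : Type} [Fintype ι] [DecidableEq ι]
  (B : HBasis (baseW T.W ℂ) X ι)

/-- The matrix of an additive map with respect to the basis. -/
noncomputable def mt (f : (baseW T.W ℂ).H X → (baseW T.W ℂ).H X) : Matrix ι ι ℂ :=
  Matrix.of fun j i => (show ℂ from B.b.repr (f (B.b i)) j)

lemma mt_apply (f : (baseW T.W ℂ).H X → (baseW T.W ℂ).H X) (j i : ι) :
    mt B f j i = (show ℂ from B.b.repr (f (B.b i)) j) := rfl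

lemma mt_sum (f : (baseW T.W ℂ).H X → (baseW T.W ℂ).H X) (i : ι) :
    f (B.b i) = ∑ j, (show (baseW T.W ℂ).K from mt B f j i) • B.b j :=
  (B.b.sum_repr (f (B.b i))).symm

lemma mt_eq {f : (baseW T.W ℂ).H X → (baseW T.W ℂ).H X} {M : Matrix ι ι ℂ}
    (h : ∀ i, f (B.b i) = ∑ j, (show (baseW T.W ℂ).K from M j i) • B.b j) : mt B f = M := by
  ext j i
  rw [mt_apply, h i, map_sum, Finsupp.finsetSum_apply, Finset.sum_eq_single j]
  · rw [map_smul, Finsupp.smul_apply, B.b.repr_self, Finsupp.single_eq_same]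
    exact mul_one _
  · intro l _ hl
    rw [map_smul, Finsupp.smul_apply, B.b.repr_self, Finsupp.single_eq_of_ne (Ne.symm hl)]
    exact smul_zero _
  · intro h; exact absurd (Finset.mem_univ _) h

lemma mt_id : mt B (fun x => x) = 1 := by
  refine mt_eq B fun i => ?_
  rw [Finset.sum_eq_single i]
  · have h : (show (baseW T.W ℂ).K from (1 : Matrix ι ι ℂ) i i) = (1 : (baseW T.W ℂ).K) :=
      Matrix.one_apply_eq i
    rw [h, one_smul]
  · intro l _ hl
    have h : (show (baseW T.W ℂ).K from (1 : Matrix ι ι ℂ) l i) = (0 : (baseW T.W ℂ).K) :=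
      Matrix.one_apply_ne hl
    rw [h, zero_smul]
  · intro h; exact absurd (Finset.mem_univ _) h

/-- The matrix of a composition, the first map may be semilinear. -/
lemma mt_comp (τ : ℂ →+* ℂ) (s : (baseW T.W ℂ).H X →+ (baseW T.W ℂ).H X)
    (hs : ∀ (c : (baseW T.W ℂ).K) (x : (baseW T.W ℂ).H X),
      s (c • x) = (show (baseW T.W ℂ).K from τ c) • s x)
    (f : (baseW T.W ℂ).H X → (baseW T.W ℂ).H X) :
    mt B (fun x => s (f x)) = mt B s * (mt B f).map τ := by
  refine mt_eq B fun i => ?_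
  have h1 : s (f (B.b i)) = ∑ j, (show (baseW T.W ℂ).K from τ (mt B f j i)) • s (B.b j) := by
    rw [mt_sum B f i, map_sum]
    exact Finset.sum_congr rfl fun j _ => hs _ _
  rw [h1]
  have h2 : ∀ j, s (B.b j) = ∑ l, (show (baseW T.W ℂ).K from mt B s l j) • B.b l :=
    fun j => mt_sum B s j
  simp only [h2, Finset.smul_sum, smul_smul]
  rw [Finset.sum_comm]
  refine Finset.sum_congr rfl fun l _ => ?_
  rw [← Finset.sum_smul]
  congr 1
  exact Finset.sum_congr rfl fun j _ => mul_comm (τ (mt B f j i)) (mt B s l j)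

lemma mt_comp_lin (s : (baseW T.W ℂ).H X →ₗ[(baseW T.W ℂ).K] (baseW T.W ℂ).H X)
    (f : (baseW T.W ℂ).H X → (baseW T.W ℂ).H X) :
    mt B (fun x => s (f x)) = mt B s * mt B f := by
  have h := mt_comp B (RingHom.id ℂ) s.toAddMonoidHom (fun c x => map_smul s c x) f
  have h2 : (mt B f).map (RingHom.id ℂ) = mt B f := by
    ext i j
    rfl
  rw [h2] at h
  exact h

/-! ### The curves -/

/-- The coefficients of the curve. -/
noncomputable def crv (σ : ℂ ≃ₐ[T.W.K] ℂ) (m : ℤ) : Matrix ι ι ℂ :=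
  mt B (cj σ (act T (ind fun r => r.1 - r.2 = m) X))

lemma gam_expand (hpos : ∀ (Y : 𝒱.Obj) (p q : ℤ), p < 0 ∨ q < 0 → T.pq Y p q = ⊥)
    (σ : ℂ ≃ₐ[T.W.K] ℂ) (z : ℂ) (x : (baseW T.W ℂ).H X) :
    gam σ z X x = ∑ m ∈ Finset.Icc (-((2 * X.dim : ℕ) : ℤ)) ((2 * X.dim : ℕ) : ℤ),
      (show (baseW T.W ℂ).K from z ^ m) • cj σ (act T (ind fun r => r.1 - r.2 = m) X) x := by
  have key : ∀ (w : ℂ) (y : (baseW T.W ℂ).H X), act T (chi w) X y =
      ∑ m ∈ Finset.Icc (-((2 * X.dim : ℕ) : ℤ)) ((2 * X.dim : ℕ) : ℤ),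
        (show (baseW T.W ℂ).K from w ^ m) • act T (ind fun r => r.1 - r.2 = m) X y := by
    intro w y
    refine pq_ind T (p := fun y => act T (chi w) X y =
      ∑ m ∈ Finset.Icc (-((2 * X.dim : ℕ) : ℤ)) ((2 * X.dim : ℕ) : ℤ),
        (show (baseW T.W ℂ).K from w ^ m) • act T (ind fun r => r.1 - r.2 = m) X y) ?_ ?_ ?_ y
    · rw [map_zero]
      refine (Finset.sum_eq_zero fun m _ => ?_).symm
      rw [map_zero, smul_zero]
    · intro x y hx hy
      rw [map_add, hx, hy, ← Finset.sum_add_distrib]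
      exact Finset.sum_congr rfl fun m _ => by rw [map_add, smul_add]
    · intro r x hx
      by_cases h0 : x = 0
      · rw [h0, map_zero]
        refine (Finset.sum_eq_zero fun m _ => ?_).symm
        rw [map_zero, smul_zero]
      · obtain ⟨h1, h2, h3, h4⟩ := type_bound hpos hx h0
        rw [act_of T _ hx, Finset.sum_eq_single (r.1 - r.2)]
        · rw [act_of T _ hx]
          have h5 : ind (fun s => s.1 - s.2 = r.1 - r.2) r = 1 := if_pos rfl
          rw [h5]
          exact (congrArg (fun y => (show (baseW T.W ℂ).K from w ^ (r.1 - r.2)) • y)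
            (one_smul (baseW T.W ℂ).K x)).symm
        · intro m _ hm
          rw [act_of T _ hx]
          have h5 : ind (fun s => s.1 - s.2 = m) r = 0 := if_neg (Ne.symm hm)
          rw [h5]
          refine (congrArg (fun y => (show (baseW T.W ℂ).K from w ^ m) • y)
            (zero_smul (baseW T.W ℂ).K x)).trans ?_
          exact smul_zero _
        · intro h
          exfalso
          apply h
          rw [Finset.mem_Icc]
          push_cast
          constructor <;> omega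
  rw [gam_apply, key, map_sum]
  refine Finset.sum_congr rfl fun m _ => ?_
  rw [sm_smul, cj_apply]
  congr 1
  have h1 : σ ((σ.symm z) ^ m) = z ^ m := by rw [map_zpow₀, AlgEquiv.apply_symm_apply]
  exact h1

lemma curve_crv (hpos : ∀ (Y : 𝒱.Obj) (p q : ℤ), p < 0 ∨ q < 0 → T.pq Y p q = ⊥)
    (σ : ℂ ≃ₐ[T.W.K] ℂ) (z : ℂ) : curve (2 * X.dim) (crv B σ) z = mt B (gam σ z X) := by
  symm
  refine mt_eq B fun i => ?_
  rw [gam_expand hpos]
  have h1 : ∀ m, cj σ (act T (ind fun r => r.1 - r.2 = m) X) (B.b i) =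
      ∑ j, (show (baseW T.W ℂ).K from crv B σ m j i) • B.b j := fun m => mt_sum B _ i
  simp only [h1, Finset.smul_sum, smul_smul]
  rw [Finset.sum_comm]
  refine Finset.sum_congr rfl fun j _ => ?_
  rw [← Finset.sum_smul]
  congr 1
  rw [curve, Matrix.sum_apply]
  rfl

/-- The set of the curves. -/
def crvs : Set (ℤ → Matrix ι ι ℂ) := {e | ∃ σ : ℂ ≃ₐ[T.W.K] ℂ, e = crv B σ}

lemma crv_one (hpos : ∀ (Y : 𝒱.Obj) (p q : ℤ), p < 0 ∨ q < 0 → T.pq Y p q = ⊥) :
    ∀ e ∈ crvs B, curve (2 * X.dim) e 1 = 1 := by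
  rintro e ⟨σ, rfl⟩
  rw [curve_crv B hpos]
  have h1 : (fun x => gam σ 1 X x) = fun x => x := funext fun x => gam_id σ x
  exact (congrArg (mt B) h1).trans (mt_id B)

lemma gam_mem_gen (hpos : ∀ (Y : 𝒱.Obj) (p q : ℤ), p < 0 ∨ q < 0 → T.pq Y p q = ⊥)
    (σ : ℂ ≃ₐ[T.W.K] ℂ) {z : ℂ} (hz : z ≠ 0) : mt B (gam σ z X) ∈ gen (2 * X.dim) (crvs B) := by
  rw [← curve_crv B hpos]
  exact Submonoid.subset_closure ⟨_, ⟨σ, rfl⟩, z, hz, rfl⟩

/-- Induction over the group. -/
lemma gen_induction (hpos : ∀ (Y : 𝒱.Obj) (p q : ℤ), p < 0 ∨ q < 0 → T.pq Y p q = ⊥)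
    {p : Matrix ι ι ℂ → Prop} (h1 : p 1) (hmul : ∀ g h, p g → p h → p (g * h))
    (hg : ∀ (σ : ℂ ≃ₐ[T.W.K] ℂ) (z : ℂ), z ≠ 0 → p (mt B (gam σ z X))) {g : Matrix ι ι ℂ}
    (hgen : g ∈ gen (2 * X.dim) (crvs B)) : p g := by
  refine Submonoid.closure_induction (motive := fun g _ => p g) ?_ h1 (fun g h _ _ => hmul g h) hgen
  rintro g ⟨e, ⟨σ, rfl⟩, z, hz, rfl⟩
  rw [curve_crv B hpos]
  exact hg σ z hz

lemma crv_inv (hpos : ∀ (Y : 𝒱.Obj) (p q : ℤ), p < 0 ∨ q < 0 → T.pq Y p q = ⊥) :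
    ∀ e ∈ crvs B, ∀ z : ℂ, z ≠ 0 → ∃ g' ∈ gen (2 * X.dim) (crvs B),
      g' * (mt B (sm (cK T) X) * (curve (2 * X.dim) e z).map star) = mt B (sm (cK T) X) := by
  rintro e ⟨σ, rfl⟩ z hz
  have hz' : (cK T z)⁻¹ ≠ 0 := inv_ne_zero (by rw [Ne, EmbeddingLike.map_eq_zero_iff]; exact hz)
  refine ⟨mt B (gam (σ.trans (cK T)) (cK T z)⁻¹ X), gam_mem_gen B hpos _ hz', ?_⟩
  rw [curve_crv B hpos]
  have h1 : mt B (fun x => sm (cK T) X (gam σ z X x)) =
      mt B (sm (cK T) X) * (mt B (gam σ z X)).map star :=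
    mt_comp B (starRingEnd ℂ) (sm (cK T) X).toAddMonoidHom (fun c x => sm_smul (cK T) c x) _
  rw [← h1, ← mt_comp_lin]
  congr 1
  funext x
  rw [sm_gam, gam_gam, inv_mul_cancel₀, gam_id]
  rw [Ne, EmbeddingLike.map_eq_zero_iff]
  exact hz

lemma det_conj : IsUnit (mt B (sm (cK T) X)).det := by
  have h1 : mt B (fun x => sm (cK T) X (sm (cK T) X x)) =
      mt B (sm (cK T) X) * (mt B (sm (cK T) X)).map star :=
    mt_comp B (starRingEnd ℂ) (sm (cK T) X).toAddMonoidHom (fun c x => sm_smul (cK T) c x) _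
  have h2 : (fun x => sm (cK T) X (sm (cK T) X x)) = fun x => x := by
    funext x
    rw [sm_sm]
    have h3 : (cK T).trans (cK T) = AlgEquiv.refl := by
      ext z
      exact star_star z
    rw [h3, sm_refl]
  rw [h2, mt_id] at h1
  exact Matrix.isUnit_det_of_right_inverse h1.symm

/-! ### Bilinear forms -/

/-- The matrix of a bilinear form. -/
lemma form_mul (F : LinearMap.BilinForm (baseW T.W ℂ).K ((baseW T.W ℂ).H X)) (M N : Matrix ι ι ℂ)
    (i j : ι) : (Mᵀ * Matrix.of (fun i j => (show ℂ from F (B.b j) (B.b i))) * N) i j =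
      (show ℂ from F (∑ l, (show (baseW T.W ℂ).K from N l j) • B.b l)
        (∑ m, (show (baseW T.W ℂ).K from M m i) • B.b m)) := by
  have h0 : ∀ (y : (baseW T.W ℂ).H X), F (∑ l, (show (baseW T.W ℂ).K from N l j) • B.b l) y =
      ∑ l, (show (baseW T.W ℂ).K from N l j) * F (B.b l) y := by
    intro y
    rw [map_sum F, LinearMap.sum_apply]
    refine Finset.sum_congr rfl fun l _ => ?_
    rw [map_smul, LinearMap.smul_apply, smul_eq_mul]
  have h1 : F (∑ l, (show (baseW T.W ℂ).K from N l j) • B.b l)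
        (∑ m, (show (baseW T.W ℂ).K from M m i) • B.b m) =
      ∑ l, ∑ m, (show (baseW T.W ℂ).K from N l j) * ((show (baseW T.W ℂ).K from M m i) *
        F (B.b l) (B.b m)) := by
    rw [h0]
    refine Finset.sum_congr rfl fun l _ => ?_
    rw [map_sum, Finset.mul_sum]
    refine Finset.sum_congr rfl fun m _ => ?_
    rw [map_smul, smul_eq_mul]
  refine Eq.trans ?_ h1.symm
  rw [Matrix.mul_apply]
  refine Finset.sum_congr rfl fun l _ => ?_
  rw [Matrix.mul_apply, Finset.sum_mul]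
  refine Finset.sum_congr rfl fun m _ => ?_
  rw [Matrix.transpose_apply, Matrix.of_apply]
  have h2 : ∀ a b c : (baseW T.W ℂ).K, a * b * c = c * (a * b) := fun a b c => mul_comm _ _
  exact h2 (M m i) (F (B.b l) (B.b m)) (N l j)

/-- Invariant forms. -/
lemma form_gen (hpos : ∀ (Y : 𝒱.Obj) (p q : ℤ), p < 0 ∨ q < 0 → T.pq Y p q = ⊥)
    (F : LinearMap.BilinForm (baseW T.W ℂ).K ((baseW T.W ℂ).H X))
    (hF : ∀ (σ : ℂ ≃ₐ[T.W.K] ℂ) (z : ℂ), z ≠ 0 → ∀ x y, F (gam σ z X x) (gam σ z X y) = F x y)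
    {g : Matrix ι ι ℂ} (hg : g ∈ gen (2 * X.dim) (crvs B)) :
    gᵀ * Matrix.of (fun i j => (show ℂ from F (B.b j) (B.b i))) * g =
      Matrix.of (fun i j => (show ℂ from F (B.b j) (B.b i))) := by
  refine gen_induction B hpos (p := fun g => gᵀ * Matrix.of
    (fun i j => (show ℂ from F (B.b j) (B.b i))) * g =
      Matrix.of (fun i j => (show ℂ from F (B.b j) (B.b i)))) ?_ ?_ ?_ hg
  · rw [Matrix.transpose_one, Matrix.one_mul, Matrix.mul_one]
  · intro g h hg hh
    rw [Matrix.transpose_mul]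
    calc hᵀ * gᵀ * Matrix.of (fun i j => (show ℂ from F (B.b j) (B.b i))) * (g * h) =
          hᵀ * (gᵀ * Matrix.of (fun i j => (show ℂ from F (B.b j) (B.b i))) * g) * h := by
            simp only [Matrix.mul_assoc]
      _ = _ := by rw [hg, hh]
  · intro σ z hz
    ext i j
    rw [form_mul, ← mt_sum, ← mt_sum, hF σ z hz]
    rfl

/-- The polarisation in coordinates. -/
lemma pol_mul {ψ : LinearMap.BilinForm T.W.K (T.W.H X)}
    (hB : ∀ i j, hf ψ (B.b i) (B.b j) = if i = j then 1 else 0) :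
    (mt B (sm (cK T) X))ᵀ * Matrix.of (fun i j => (show ℂ from psi ψ (B.b j) (B.b i))) *
      mt B (gam AlgEquiv.refl Complex.I X) = 1 := by
  ext i j
  rw [form_mul, ← mt_sum, ← mt_sum]
  have h1 : gam (AlgEquiv.refl : ℂ ≃ₐ[T.W.K] ℂ) Complex.I X (B.b j) =
      act T (chi Complex.I) X (B.b j) := by
    rw [gam_apply]
    have h2 : (AlgEquiv.refl : ℂ ≃ₐ[T.W.K] ℂ).symm = AlgEquiv.refl := rfl
    rw [h2, sm_refl, sm_refl]
    rfl
  rw [h1]
  refine (hB i j).trans ?_
  rw [Matrix.one_apply]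

/-- The intersection form is nondegenerate. -/
lemma det_tr : IsUnit (Matrix.of fun i j => (show ℂ from (baseW T.W ℂ).tr X (B.b i * B.b j))).det := by
  rw [isUnit_iff_ne_zero]
  intro h
  obtain ⟨v, hv, h1⟩ := Matrix.exists_vecMul_eq_zero_iff.2 h
  apply hv
  have h2 : (∑ i, (show (baseW T.W ℂ).K from v i) • B.b i) = 0 := by
    refine (baseW T.W ℂ).nondeg _ fun y => ?_
    rw [← B.b.sum_repr y, Finset.mul_sum, map_sum]
    refine Finset.sum_eq_zero fun j _ => ?_
    rw [mul_smul_comm, map_smul, Finset.sum_mul, map_sum]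
    have h3 : (∑ i, (baseW T.W ℂ).tr X ((show (baseW T.W ℂ).K from v i) • B.b i * B.b j)) = 0 := by
      have h4 := congrFun h1 j
      rw [Matrix.vecMul, dotProduct] at h4
      refine Eq.trans ?_ h4
      refine Finset.sum_congr rfl fun i _ => ?_
      rw [smul_mul_assoc, map_smul]
      rfl
    rw [h3, smul_zero]
  funext i
  exact (Fintype.linearIndependent_iff.1 B.b.linearIndependent) v h2 i

end Pool.Agent.R914.UN
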