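import Pool.Agent.R914.UN.GPhi

/-!
# The cohomology of the powers in coordinates: homomorphisms, permutations, products
-/

set_option linter.unusedSectionVars false
set_option linter.unusedVariables false

open CategoryTheory AlgebraicGeometry CategoryTheory.Limits Matrix

universe u v

namespace Pool.Agent.R914.UN

open Pool.Agent.H914 Pool.Agent.H447 Pool.Agent.W534 Pool.Agent.Y163 VarClass Obj WeilCohomology
  Module

variable {k : Type u} [Field k] {𝒱 : VarClass k} {ops : CycleOps 𝒱}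
  {W : WeilCohomology.{u, 0} ops} {X : 𝒱.Obj} {ι : Type} [Fintype ι] [DecidableEq ι]
  (B : HBasis W X ι)

lemma sum_smul_mul {R A α β : Type*} [CommSemiring R] [Semiring A] [Algebra R A] [Fintype α]
    [Fintype β] (p : α → R) (a : α → A) (q : β → R) (c : β → A) :
    (∑ j, p j • a j) * (∑ J, q J • c J) = ∑ x : α × β, (p x.1 * q x.2) • (a x.1 * c x.2) := by
  rw [Finset.sum_mul_sum, ← Fintype.sum_prod_type']
  refine Finset.sum_congr rfl fun x _ => ?_
  rw [smul_mul_smul_comm]

lemma mon_hom {τ : W.K →+* W.K} (γ : ∀ Y : 𝒱.Obj, W.H Y →+* W.H Y)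
    (hs : ∀ (Y : 𝒱.Obj) (c : W.K) (x : W.H Y), γ Y (c • x) = τ c • γ Y x)
    (hm : ∀ {Y Z : 𝒱.Obj} (f : Y ⟶ Z) (x : W.H Z), γ Y (W.map f x) = W.map f (γ Z x))
    (g : Matrix ι ι W.K) (hg : ∀ i, γ X (B.b i) = ∑ j, g j i • B.b j) : ∀ (n : ℕ)
    (I : Fin (n + 1) → ι),
    γ (pw X n) (mon B n I) = ∑ J : Fin (n + 1) → ι, (∏ i, g (J i) (I i)) • mon B n J
  | 0, I => by
    have h1 : γ X (B.b (I 0)) = ∑ j, g j (I 0) • B.b j := hg (I 0)
    refine h1.trans ?_
    symm
    refine Fintype.sum_equiv (Equiv.funUnique (Fin 1) ι) _ _ ?_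
    intro J
    rw [Fin.prod_univ_one]
    rfl
  | n + 1, I => by
    have ih := mon_hom γ hs hm g hg n (Fin.tail I)
    rw [mon]
    have h0 : γ (pw X (n + 1)) (W.map (fst X (pw X n)) (B.b (I 0)) *
        W.map (snd X (pw X n)) (mon B n (Fin.tail I))) =
        γ (pw X (n + 1)) (W.map (fst X (pw X n)) (B.b (I 0))) *
        γ (pw X (n + 1)) (W.map (snd X (pw X n)) (mon B n (Fin.tail I))) := map_mul _ _ _
    refine h0.trans ?_
    have h1 : γ (pw X (n + 1)) (W.map (fst X (pw X n)) (B.b (I 0))) =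
        ∑ j, g j (I 0) • W.map (fst X (pw X n)) (B.b j) := by
      refine (hm (fst X (pw X n)) (B.b (I 0))).trans ?_
      rw [hg, map_sum]
      simp only [map_smul]
    have h2 : γ (pw X (n + 1)) (W.map (snd X (pw X n)) (mon B n (Fin.tail I))) =
        ∑ J : Fin (n + 1) → ι, (∏ i, g (J i) (Fin.tail I i)) • W.map (snd X (pw X n)) (mon B n J) := by
      refine (hm (snd X (pw X n)) (mon B n (Fin.tail I))).trans ?_
      rw [ih, map_sum]
      simp only [map_smul]
    refine (congrArg₂ (fun a b : W.H (pw X (n + 1)) => a * b) h1 h2).trans ?_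
    refine (sum_smul_mul (A := W.H (X.prod (pw X n))) _ _ _ _).trans ?_
    refine Fintype.sum_equiv (Fin.consEquiv (fun _ => ι)) _ _ ?_
    rintro ⟨j, J⟩
    have e1 : (Fin.consEquiv (fun _ => ι)) (j, J) = (Fin.cons j J : Fin (n + 2) → ι) := rfl
    rw [e1]
    have e2 : g j (I 0) * ∏ i, g (J i) (Fin.tail I i) =
        ∏ i, g ((Fin.cons j J : Fin (n + 2) → ι) i) (I i) := by
      rw [Fin.prod_univ_succ (fun i => g ((Fin.cons j J : Fin (n + 2) → ι) i) (I i))]
      rfl
    rw [e2, mon, Fin.tail_cons]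
    rfl

/-- Semilinear ring homomorphisms in coordinates. -/
theorem Phi_hom {τ : W.K →+* W.K} (γ : ∀ Y : 𝒱.Obj, W.H Y →+* W.H Y)
    (hs : ∀ (Y : 𝒱.Obj) (c : W.K) (x : W.H Y), γ Y (c • x) = τ c • γ Y x)
    (hm : ∀ {Y Z : 𝒱.Obj} (f : Y ⟶ Z) (x : W.H Z), γ Y (W.map f x) = W.map f (γ Z x))
    (g : Matrix ι ι W.K) (hg : ∀ i, γ X (B.b i) = ∑ j, g j i • B.b j) (n : ℕ)
    (v : (Fin (n + 1) → ι) → W.K) :
    γ (pw X n) (Phi B n v) = Phi B n (tp (Fin (n + 1)) g *ᵥ (τ ∘ v)) := by
  rw [Phi_apply, Phi_apply, map_sum]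
  have h1 : ∀ I : Fin (n + 1) → ι, γ (pw X n) (v I • mon B n I) =
      ∑ J : Fin (n + 1) → ι, (tp (Fin (n + 1)) g J I * τ (v I)) • mon B n J := by
    intro I
    rw [hs, mon_hom B γ hs hm g hg n I, Finset.smul_sum]
    refine Finset.sum_congr rfl fun J _ => ?_
    rw [smul_smul, tp_apply, mul_comm]
  simp only [h1]
  rw [Finset.sum_comm]
  refine Finset.sum_congr rfl fun J _ => ?_
  rw [← Finset.sum_smul]
  rfl

/-- Products of homogeneous elements in different orders; the sign depends only on the parities. -/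
lemma prod_perm_par {Z : 𝒱.Obj} {α : Type*} {l l' : List α} (h : l.Perm l') (p : α → Bool) :
    ∃ ε : W.K, ε ≠ 0 ∧ ∀ x : α → W.H Z, (∀ a, ∃ i, x a ∈ W.gr Z i ∧ (Even i ↔ p a = true)) →
      (l.map x).prod = ε • (l'.map x).prod := by
  induction h with
  | nil => exact ⟨1, one_ne_zero, fun x _ => by rw [one_smul]⟩
  | cons a h ih =>
    obtain ⟨ε, hε, h1⟩ := ih
    refine ⟨ε, hε, fun x hx => ?_⟩
    rw [List.map_cons, List.map_cons, List.prod_cons, List.prod_cons, h1 x hx, mul_smul_comm]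
  | swap a b l =>
    refine ⟨if p a = false ∧ p b = false then -1 else 1, ?_, fun x hx => ?_⟩
    · split_ifs
      · exact neg_ne_zero.2 one_ne_zero
      · exact one_ne_zero
    · obtain ⟨i, hi, hia⟩ := hx a
      obtain ⟨j, hj, hjb⟩ := hx b
      have hsign : ((-1 : W.K)) ^ (j * i) = if p a = false ∧ p b = false then -1 else 1 := by
        by_cases hpa : p a = true
        · have : Even (j * i) := (hia.2 hpa).mul_left j
          rw [this.neg_one_pow]
          simp [hpa]
        · by_cases hpb : p b = true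
          · have : Even (j * i) := (hjb.2 hpb).mul_right i
            rw [this.neg_one_pow]
            simp [hpb]
          · have h1 : ¬ Even i := fun h => hpa (hia.1 h)
            have h2 : ¬ Even j := fun h => hpb (hjb.1 h)
            have h3 : Odd (j * i) := (Nat.not_even_iff_odd.1 h2).mul (Nat.not_even_iff_odd.1 h1)
            rw [h3.neg_one_pow]
            rw [Bool.not_eq_true] at hpa hpb
            rw [if_pos ⟨hpa, hpb⟩]
      rw [← hsign]
      simp only [List.map_cons, List.prod_cons]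
      rw [← mul_assoc, ← mul_assoc, W.comm hj hi, smul_mul_assoc]
  | trans h1 h2 ih1 ih2 =>
    obtain ⟨ε, hε, h3⟩ := ih1
    obtain ⟨ε', hε', h4⟩ := ih2
    exact ⟨ε * ε', mul_ne_zero hε hε', fun x hx => by rw [h3 x hx, h4 x hx, smul_smul]⟩

/-- Permutations in coordinates. -/
theorem Phi_perm (n : ℕ) (σ : Equiv.Perm (Fin (n + 1))) :
    ∃ s : (Fin (n + 1) → Bool) → W.K, (∀ p, s p ≠ 0) ∧ ∀ v : (Fin (n + 1) → ι) → W.K,
      W.map (perm X n σ) (Phi B n v) =
        Phi B n (fun w => s (fun i => decide (Even (B.deg (w i)))) * v (w ∘ σ)) := by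
  have hperm : (List.ofFn (fun i => σ i)).Perm (List.ofFn (fun i : Fin (n + 1) => i)) :=
    ofFn_perm (fun i => i) σ
  have h := fun p : Fin (n + 1) → Bool => prod_perm_par (W := W) (Z := pw X n) hperm p
  choose s hs0 hs using h
  refine ⟨s, hs0, fun v => ?_⟩
  have hmon : ∀ I : Fin (n + 1) → ι, W.map (perm X n σ) (mon B n (I ∘ σ)) =
      s (fun i => decide (Even (B.deg (I i)))) • mon B n I := by
    intro I
    have h1 : W.map (perm X n σ) (mon B n (I ∘ σ)) =
        (List.ofFn fun i => W.map (pr X n (σ i)) (B.b (I (σ i)))).prod := by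
      rw [mon_eq, map_list_prod, List.map_ofFn]
      congr 2
      funext i
      rw [Function.comp_apply, Function.comp_apply, ← W.map_comp, perm_pr]
    have h2 := hs (fun i => decide (Even (B.deg (I i)))) (fun a => W.map (pr X n a) (B.b (I a)))
      (fun a => ⟨B.deg (I a), W.map_mem _ (B.mem _), by simp⟩)
    rw [List.map_ofFn, List.map_ofFn] at h2
    rw [h1, mon_eq]
    exact h2
  rw [Phi_apply, Phi_apply, map_sum]
  have e : ∀ J : Fin (n + 1) → ι, (s (fun i => decide (Even (B.deg (J i)))) * v (J ∘ σ)) •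
      mon B n J = W.map (perm X n σ) (v (J ∘ σ) • mon B n (J ∘ σ)) := by
    intro J
    rw [map_smul, hmon, smul_smul, mul_comm]
  simp only [e]
  symm
  exact Fintype.sum_equiv (Equiv.arrowCongr σ.symm (Equiv.refl ι)) _ _ (fun J => rfl)

/-- External products in coordinates. -/
theorem Phi_mul (n m : ℕ) : ∃ (f : pw X (n + 1 + m) ⟶ pw X n) (g : pw X (n + 1 + m) ⟶ pw X m),
    ∀ (v : (Fin (n + 1) → ι) → W.K) (u : (Fin (m + 1) → ι) → W.K),
      W.map f (Phi B n v) * W.map g (Phi B m u) = Phi B (n + 1 + m) (fun w =>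
        v (fun i => w (Fin.castAdd (m + 1) i)) * u (fun j => w (Fin.natAdd (n + 1) j))) := by
  refine ⟨tup n (fun i => pr X (n + 1 + m) (Fin.castAdd (m + 1) i)),
    tup m (fun j => pr X (n + 1 + m) (Fin.natAdd (n + 1) j)), fun v u => ?_⟩
  set f := tup n (fun i => pr X (n + 1 + m) (Fin.castAdd (m + 1) i)) with hf
  set g := tup m (fun j => pr X (n + 1 + m) (Fin.natAdd (n + 1) j)) with hg
  have hmon : ∀ w : Fin (n + 1 + m + 1) → ι,
      W.map f (mon B n (fun i => w (Fin.castAdd (m + 1) i))) *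
        W.map g (mon B m (fun j => w (Fin.natAdd (n + 1) j))) = mon B (n + 1 + m) w := by
    intro w
    have h1 : W.map f (mon B n (fun i => w (Fin.castAdd (m + 1) i))) =
        (List.ofFn fun i : Fin (n + 1) => W.map (pr X (n + 1 + m) (Fin.castAdd (m + 1) i))
          (B.b (w (Fin.castAdd (m + 1) i)))).prod := by
      rw [mon_eq, map_list_prod, List.map_ofFn]
      congr 2
      funext i
      rw [Function.comp_apply, ← W.map_comp, hf, tup_pr]
    have h2 : W.map g (mon B m (fun j => w (Fin.natAdd (n + 1) j))) =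
        (List.ofFn fun j : Fin (m + 1) => W.map (pr X (n + 1 + m) (Fin.natAdd (n + 1) j))
          (B.b (w (Fin.natAdd (n + 1) j)))).prod := by
      rw [mon_eq, map_list_prod, List.map_ofFn]
      congr 2
      funext i
      rw [Function.comp_apply, ← W.map_comp, hg, tup_pr]
    rw [h1, h2, ← List.prod_append, mon_eq]
    congr 1
    exact (List.ofFn_add (f := fun i : Fin ((n + 1) + (m + 1)) =>
      W.map (pr X (n + 1 + m) i) (B.b (w i)))).symm
  rw [Phi_apply, Phi_apply, Phi_apply, map_sum, map_sum, Finset.sum_mul_sum,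
    ← Fintype.sum_prod_type']
  refine Fintype.sum_equiv (Fin.appendEquiv (n + 1) (m + 1)) _ _ ?_
  rintro ⟨I, J⟩
  have e1 : ∀ i, Fin.append I J (Fin.castAdd (m + 1) i) = I i := fun i => Fin.append_left I J i
  have e2 : ∀ j, Fin.append I J (Fin.natAdd (n + 1) j) = J j := fun j => Fin.append_right I J j
  have h3 := hmon (Fin.append I J : Fin ((n + 1) + (m + 1)) → ι)
  have e3 : (fun i => Fin.append I J (Fin.castAdd (m + 1) i)) = I := funext e1
  have e4 : (fun j => Fin.append I J (Fin.natAdd (n + 1) j)) = J := funext e2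
  rw [e3, e4] at h3
  have e5 : (Fin.appendEquiv (n + 1) (m + 1)) (I, J) = Fin.append I J := rfl
  simp only [map_smul]
  rw [smul_mul_smul_comm, h3, e5]
  congr 2
  · rw [e3]
  · rw [e4]

end Pool.Agent.R914.UN
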