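import Mathlib

/-!
# Homogeneous orthonormal bases
-/

set_option linter.unusedSectionVars false

namespace Pool.Agent.R914.UN
open Module

/-- A positive sesquilinear form. -/
structure IsPos {V : Type*} [AddCommGroup V] [Module ℂ V] (h : V → V → ℂ) : Prop where
  add_right : ∀ x y z, h x (y + z) = h x y + h x z
  smul_right : ∀ (c : ℂ) x y, h x (c • y) = c * h x y
  add_left : ∀ x y z, h (x + y) z = h x z + h y z
  smul_left : ∀ (c : ℂ) x y, h (c • x) y = star c * h x y
  pos : ∀ x, x ≠ 0 → ∃ r : ℝ, 0 < r ∧ h x x = r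

variable {V : Type*} [AddCommGroup V] [Module ℂ V] {h : V → V → ℂ}

lemma IsPos.real (hh : IsPos h) (x : V) : (h x x).im = 0 := by
  by_cases hx : x = 0
  · have h1 := hh.smul_right 0 x 0
    rw [smul_zero, zero_mul] at h1
    rw [hx, ← hx]
    rw [hx] at h1 ⊢
    rw [h1]
    rfl
  · obtain ⟨r, -, hr⟩ := hh.pos x hx
    rw [hr, Complex.ofReal_im]

lemma IsPos.symm (hh : IsPos h) (x y : V) : star (h y x) = h x y := by
  have h1 := hh.real (x + y)
  have h2 := hh.real (x + Complex.I • y)
  have h3 := hh.real x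
  have h4 := hh.real y
  rw [hh.add_left, hh.add_right, hh.add_right] at h1
  rw [hh.add_left, hh.add_right, hh.add_right, hh.smul_left, hh.smul_right, hh.smul_right,
    hh.smul_left] at h2
  simp only [Complex.add_im, Complex.mul_im, Complex.mul_re, Complex.I_re, Complex.I_im,
    Complex.star_def, Complex.conj_I, Complex.neg_re, Complex.neg_im] at h1 h2
  apply Complex.ext
  · rw [Complex.star_def, Complex.conj_re]
    linarith
  · rw [Complex.star_def, Complex.conj_im]
    linarith

/-- The inner product given by a positive form. -/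
@[reducible] noncomputable def IsPos.core (hh : IsPos h) : InnerProductSpace.Core ℂ V where
  inner x y := h x y
  conj_inner_symm x y := hh.symm x y
  re_inner_nonneg x := by
    by_cases hx : x = 0
    · have h1 := hh.smul_right 0 x 0
      rw [smul_zero, zero_mul] at h1
      rw [hx] at h1 ⊢
      change 0 ≤ (h 0 0).re
      rw [h1]
      rfl
    · obtain ⟨r, hr, hr'⟩ := hh.pos x hx
      change 0 ≤ (h x x).re
      rw [hr', Complex.ofReal_re]
      exact hr.le
  add_left x y z := hh.add_left x y z
  smul_left x y r := hh.smul_left r x y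
  definite x hx := by
    by_contra h0
    obtain ⟨r, hr, hr'⟩ := hh.pos x h0
    have h1 : h x x = 0 := hx
    rw [hr', Complex.ofReal_eq_zero] at h1
    exact hr.ne' h1

/-- **Homogeneous orthonormal bases.** -/
theorem exists_onb [FiniteDimensional ℂ V] {gr : ℕ → Submodule ℂ V} {N : ℕ}
    (hgr : DirectSum.IsInternal gr) (hN : ∀ i, N ≤ i → gr i = ⊥) (hh : IsPos h)
    (hort : ∀ i j, i ≠ j → ∀ x ∈ gr i, ∀ y ∈ gr j, h x y = 0) :
    ∃ (b : Basis (Fin (finrank ℂ V)) ℂ V) (deg : Fin (finrank ℂ V) → ℕ),
      (∀ i, b i ∈ gr (deg i)) ∧ ∀ i j, h (b i) (b j) = if i = j then 1 else 0 := by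
  classical
  let _ : NormedAddCommGroup V := hh.core.toNormedAddCommGroup
  let _ : InnerProductSpace ℂ V := InnerProductSpace.ofCore hh.core.toCore
  have hin : ∀ x y : V, inner ℂ x y = h x y := fun x y => rfl
  let G : Fin N → Submodule ℂ V := fun i => gr i
  have hind : iSupIndep G := hgr.submodule_iSupIndep.comp Fin.val_injective
  have htop : ⨆ i, G i = ⊤ := by
    rw [eq_top_iff, ← hgr.submodule_iSup_eq_top]
    refine iSup_le fun i => ?_
    by_cases hi : i < N
    · exact le_iSup G ⟨i, hi⟩
    · rw [hN i (by omega)]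
      exact bot_le
  have hG : DirectSum.IsInternal G :=
    (DirectSum.isInternal_submodule_iff_iSupIndep_and_iSup_eq_top _).2 ⟨hind, htop⟩
  have hfam : OrthogonalFamily ℂ (fun i => G i) fun i => (G i).subtypeₗᵢ := by
    intro i j hij x y
    exact hort i j (fun h => hij (Fin.ext h)) x x.2 y y.2
  let b := hG.subordinateOrthonormalBasis rfl hfam
  refine ⟨b.toBasis, fun i => ((hG.subordinateOrthonormalBasisIndex rfl i hfam : Fin N) : ℕ),
    fun i => ?_, fun i j => ?_⟩
  · rw [OrthonormalBasis.coe_toBasis]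
    exact hG.subordinateOrthonormalBasis_subordinate rfl i hfam
  · rw [OrthonormalBasis.coe_toBasis, ← hin]
    exact orthonormal_iff_ite.1 b.orthonormal i j

end Pool.Agent.R914.UN
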