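import Pool.Agent.R914.UN.GMat
import Pool.Agent.Y133.Half.PairBase

/-!
# The projection to the classes of even degree
-/

set_option linter.unusedSectionVars false
set_option linter.unusedVariables false

open CategoryTheory AlgebraicGeometry CategoryTheory.Limits TensorProduct Matrix

universe u v

namespace Pool.Agent.R914.UN

open Pool.Agent.H914 Pool.Agent.H447 Pool.Agent.W534 Pool.Agent.Y163 VarClass Obj WeilCohomology
  Module
open Pool.Agent.Y121 Pool.Agent.R940
open Pool.Agent.Y133.Half (Sys PH Ev Adj)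

variable {k : Type u} [Field k] {𝒱 : VarClass k} {ops : CycleOps 𝒱}

variable {T : AH.HodgeTheory ops} {X Y Z : 𝒱.Obj}

variable (T X) in
/-- The projection to the classes of even degree. -/
noncomputable def evp : Module.End (baseW T.W ℂ).K ((baseW T.W ℂ).H X) :=
  scal ((baseW T.W ℂ).isInternal X) (fun i => if Even i then 1 else 0)

lemma evp_apply {i : ℕ} {x : (baseW T.W ℂ).H X} (hx : x ∈ (baseW T.W ℂ).gr X i) :
    evp T X x = (if Even i then (1 : (baseW T.W ℂ).K) else 0) • x := scal_apply _ _ hx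

lemma gam_gr (σ : ℂ ≃ₐ[T.W.K] ℂ) (z : ℂ) {i : ℕ} {x : (baseW T.W ℂ).H Y}
    (hx : x ∈ (baseW T.W ℂ).gr Y i) : gam σ z Y x ∈ (baseW T.W ℂ).gr Y i := by
  rw [gam_apply]
  exact sm_gr _ (act_gr _ (sm_gr _ hx))

lemma gam_evp (σ : ℂ ≃ₐ[T.W.K] ℂ) (z : ℂ) (x : (baseW T.W ℂ).H X) :
    gam σ z X (evp T X x) = evp T X (gam σ z X x) := by
  refine gr_induction ((baseW T.W ℂ).isInternal X)
    (p := fun x => gam σ z X (evp T X x) = evp T X (gam σ z X x)) ?_ ?_ x
  · intro i x hx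
    rw [evp_apply hx, evp_apply (gam_gr σ z hx), map_smul]
  · intro x y hx hy
    rw [map_add, map_add, hx, hy, map_add, map_add]

lemma gam_ext (σ : ℂ ≃ₐ[T.W.K] ℂ) {z : ℂ} (hz : z ≠ 0) (c : (baseW T.W ℂ).H (X.prod X)) :
    gam σ z (X.prod X) (extOp (baseW T.W ℂ) LinearMap.id (evp T X) c) =
      extOp (baseW T.W ℂ) LinearMap.id (evp T X) (gam σ z (X.prod X) c) := by
  have h : gam σ z (X.prod X) ∘ₗ extOp (baseW T.W ℂ) LinearMap.id (evp T X) =
      extOp (baseW T.W ℂ) LinearMap.id (evp T X) ∘ₗ gam σ z (X.prod X) := by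
    apply ext_kunneth_lin
    intro a b
    rw [LinearMap.comp_apply, LinearMap.comp_apply, extOp_tmul, gam_mul σ hz, gam_mul σ hz,
      gam_map, gam_map, gam_map, gam_map, extOp_tmul, gam_evp]
    rfl
  exact congrArg (fun f => f c) h

lemma gam_diag (σ : ℂ ≃ₐ[T.W.K] ℂ) (z : ℂ) :
    gam σ z (X.prod X) ((baseW T.W ℂ).push (diag X) 1) = (baseW T.W ℂ).push (diag X) 1 := by
  have h1 : (baseW T.W ℂ).push (diag X) (1 : (baseW T.W ℂ).H X) =
      AH.em T.W ℂ (T.W.push (diag X) 1) := AH.em_push (diag X) 1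
  rw [h1]
  exact gam_em (Sys.diag_mem (S := (AH.hodgePred T).sys)) σ z

lemma ev_evp : Ev (baseW T.W ℂ) (evp T X) := by
  intro b x hx
  refine PH.ind (p := fun x => evp T X x ∈ PH (baseW T.W ℂ) X b) ?_ ?_ ?_ hx
  · intro i hi x hx
    rw [evp_apply hx]
    exact Submodule.smul_mem _ _ (PH.of' hi hx)
  · rw [map_zero]; exact Submodule.zero_mem _
  · intro x y hx hy; rw [map_add]; exact Submodule.add_mem _ hx hy

/-- The projection to the classes of even degree is given by a class of the system. -/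
theorem evp_mem (S : Sys (baseW T.W ℂ)) (hS : ∀ c : (baseW T.W ℂ).H (X.prod X),
    (∀ (σ : ℂ ≃ₐ[T.W.K] ℂ) (z : ℂ), z ≠ 0 → gam σ z (X.prod X) c = c) → c ∈ S.C (X.prod X)) :
    evp T X ∈ S.Op X X := by
  have h1 : (baseW T.W ℂ).corr (extOp (baseW T.W ℂ) LinearMap.id (evp T X)
      ((baseW T.W ℂ).push (diag X) 1)) = evp T X := by
    rw [Pool.Agent.Y133.Half.corr_extOp (a' := LinearMap.id) (fun a b => rfl)
      (fun b x hx => hx) ev_evp, Sys.corr_diag_one]
    rfl
  rw [← h1]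
  refine Sys.Op.corr (hS _ fun σ z hz => ?_)
  rw [gam_ext σ hz, gam_diag]

end Pool.Agent.R914.UN
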