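import Pool.Agent.R914.UN.Tp
import Pool.Agent.R940.HGen
import Pool.Agent.Y133.Half.Sys

/-!
# Tensors and classes on the powers of a variety
-/

set_option linter.unusedSectionVars false
set_option linter.unusedVariables false

open CategoryTheory AlgebraicGeometry CategoryTheory.Limits Matrix

universe u v

namespace Pool.Agent.R914.UN

open Pool.Agent.H914 Pool.Agent.H447 Pool.Agent.W534 Pool.Agent.Y163 VarClass Obj WeilCohomology
  Module

variable {k : Type u} [Field k] {𝒱 : VarClass k} {ops : CycleOps 𝒱}
  {W : WeilCohomology.{u, 0} ops} {X : 𝒱.Obj} {ι : Type} [Fintype ι] [DecidableEq ι]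

/-- The class with the coordinates `v`. -/
noncomputable def Phi (B : HBasis W X ι) (n : ℕ) :
    ((Fin (n + 1) → ι) → W.K) →ₗ[W.K] W.H (pw X n) :=
  Fintype.linearCombination W.K (mon B n)

variable (B : HBasis W X ι)

lemma Phi_apply (n : ℕ) (v : (Fin (n + 1) → ι) → W.K) : Phi B n v = ∑ I, v I • mon B n I :=
  Fintype.linearCombination_apply _ _ _

lemma Phi_single (n : ℕ) (I : Fin (n + 1) → ι) : Phi B n (Pi.single I 1) = mon B n I := by
  rw [Phi, Fintype.linearCombination_apply_single, one_smul]

lemma Phi_bijective (n : ℕ) : Function.Bijective (Phi B n) := by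
  obtain ⟨b, hb⟩ := exists_monBasis B n
  have h1 : ∀ v, Phi B n v = b.equivFun.symm v := by
    intro v
    rw [Phi_apply, Basis.equivFun_symm_apply]
    simp only [hb]
  have h2 : (Phi B n : ((Fin (n + 1) → ι) → W.K) → W.H (pw X n)) = b.equivFun.symm := funext h1
  rw [h2]
  exact b.equivFun.symm.bijective

end Pool.Agent.R914.UN
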