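import Pool.Agent.R914.UN.GDesc
import Pool.Agent.R914.UN.GOnb

/-!
# Polarisations
-/

set_option linter.unusedSectionVars false
set_option linter.unusedVariables false

open CategoryTheory AlgebraicGeometry CategoryTheory.Limits TensorProduct

universe u v

namespace Pool.Agent.R914.UN

open Pool.Agent.H914 Pool.Agent.H447 Pool.Agent.W534 Pool.Agent.Y163 VarClass Obj WeilCohomology
  Module
open Pool.Agent.Y121 Pool.Agent.R940

variable {k : Type u} [Field k] {𝒱 : VarClass k} {ops : CycleOps 𝒱}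

variable {T : AH.HodgeTheory ops} {X Y Z : 𝒱.Obj}

variable (T) in
/-- Complex conjugation. -/
noncomputable def cK : ℂ ≃ₐ[T.W.K] ℂ := autK T (starRingAut : RingAut ℂ)

lemma cK_apply (z : ℂ) : cK T z = star z := rfl

variable (ψ : LinearMap.BilinForm T.W.K (T.W.H X))

/-- The extension of a bilinear form. -/
noncomputable def psi : LinearMap.BilinForm (baseW T.W ℂ).K ((baseW T.W ℂ).H X) :=
  (ψ.baseChange ℂ : LinearMap.BilinForm ℂ (ℂ ⊗[T.W.K] T.W.H X))

/-- A polarisation of the Hodge structure `H(X)`. -/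
structure IsPol : Prop where
  orth : ∀ (p q r s : ℤ) (x y : (baseW T.W ℂ).H X), x ∈ T.pq X p q → y ∈ T.pq X r s →
    (r, s) ≠ (q, p) → psi ψ x y = 0
  pos : ∀ (p q : ℤ) (x : (baseW T.W ℂ).H X), x ∈ T.pq X p q → x ≠ 0 → ∃ c : ℝ, 0 < c ∧
    Complex.I ^ (p - q) * (show ℂ from psi ψ x (sm (cK T) X x)) = c

variable {ψ}

lemma psi_sm (σ : ℂ ≃ₐ[T.W.K] ℂ) (x y : (baseW T.W ℂ).H X) :
    psi ψ (sm σ X x) (sm σ X y) = (show (baseW T.W ℂ).K from σ (psi ψ x y)) := by
  obtain ⟨x', hx'⟩ : ∃ x' : ℂ ⊗[T.W.K] T.W.H X, x' = x := ⟨x, rfl⟩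
  obtain ⟨y', hy'⟩ : ∃ y' : ℂ ⊗[T.W.K] T.W.H X, y' = y := ⟨y, rfl⟩
  have key : ∀ x y : ℂ ⊗[T.W.K] T.W.H X, ψ.baseChange ℂ (cs (T.W.H X) (σ : ℂ →ₐ[T.W.K] ℂ) x)
      (cs (T.W.H X) (σ : ℂ →ₐ[T.W.K] ℂ) y) = σ (ψ.baseChange ℂ x y) := by
    intro x y
    refine cs_ind (P := fun x => ψ.baseChange ℂ (cs (T.W.H X) (σ : ℂ →ₐ[T.W.K] ℂ) x)
      (cs (T.W.H X) (σ : ℂ →ₐ[T.W.K] ℂ) y) = σ (ψ.baseChange ℂ x y)) ?_ ?_ ?_ x
    · simp only [map_zero, LinearMap.zero_apply]
    · intro x x' hx hx'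
      simp only [map_add, LinearMap.add_apply] at hx hx' ⊢
      rw [hx, hx']
    · intro l a
      refine cs_ind (P := fun y => ψ.baseChange ℂ (cs (T.W.H X) (σ : ℂ →ₐ[T.W.K] ℂ)
        (l ⊗ₜ[T.W.K] a)) (cs (T.W.H X) (σ : ℂ →ₐ[T.W.K] ℂ) y) =
          σ (ψ.baseChange ℂ (l ⊗ₜ[T.W.K] a) y)) ?_ ?_ ?_ y
      · simp only [map_zero]
      · intro y y' hy hy'
        simp only [map_add] at hy hy' ⊢
        rw [hy, hy']
      · intro m b
        rw [cs_tmul, cs_tmul, LinearMap.BilinForm.baseChange_tmul,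
          LinearMap.BilinForm.baseChange_tmul, Algebra.smul_def, Algebra.smul_def, map_mul,
          map_mul, AlgEquiv.commutes]
        rfl
  rw [← hx', ← hy']
  exact key x' y'

lemma psi_chi (hψ : IsPol ψ) {z : ℂ} (hz : z ≠ 0) (x y : (baseW T.W ℂ).H X) :
    psi ψ (act T (chi z) X x) (act T (chi z) X y) = psi ψ x y := by
  refine pq_ind T (p := fun x => psi ψ (act T (chi z) X x) (act T (chi z) X y) = psi ψ x y)
    ?_ ?_ ?_ x
  · simp only [map_zero, LinearMap.zero_apply]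
  · intro x x' hx hx'
    simp only [map_add, LinearMap.add_apply] at hx hx' ⊢
    rw [hx, hx']
  · intro r x hx
    refine pq_ind T (p := fun y => psi ψ (act T (chi z) X x) (act T (chi z) X y) = psi ψ x y)
      ?_ ?_ ?_ y
    · simp only [map_zero]
    · intro y y' hy hy'
      simp only [map_add] at hy hy' ⊢
      rw [hy, hy']
    · intro s y hy
      by_cases hrs : (s.1, s.2) = (r.2, r.1)
      · rw [act_of T _ hx, act_of T _ hy, map_smul, LinearMap.map_smul₂, smul_smul]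
        have h1 : chi z s * chi z r = 1 := by
          rw [Prod.ext_iff] at hrs
          rw [← chi_mul hz, chi]
          have h2 : (s + r).1 - (s + r).2 = 0 := by
            rw [Prod.fst_add, Prod.snd_add]
            have h3 := hrs.1
            have h4 := hrs.2
            simp only at h3 h4
            omega
          rw [h2, zpow_zero]
        have h2 : (show (baseW T.W ℂ).K from chi z s) * (show (baseW T.W ℂ).K from chi z r) = 1 :=
          h1
        rw [h2, one_smul]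
      · rw [hψ.orth _ _ _ _ x y hx hy hrs, hψ.orth _ _ _ _ _ _ (act_mem T _ hx)
          (act_mem T _ hy) hrs]

lemma psi_gam (hψ : IsPol ψ) (σ : ℂ ≃ₐ[T.W.K] ℂ) {z : ℂ} (hz : z ≠ 0)
    (x y : (baseW T.W ℂ).H X) : psi ψ (gam σ z X x) (gam σ z X y) = psi ψ x y := by
  have h1 : σ.symm z ≠ 0 := by
    rw [Ne, EmbeddingLike.map_eq_zero_iff]
    exact hz
  rw [gam_apply, gam_apply, psi_sm, psi_chi hψ h1, psi_sm]
  exact σ.apply_symm_apply _

variable (ψ) in
/-- The Hermitian form. -/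
noncomputable def hf (x y : (baseW T.W ℂ).H X) : ℂ :=
  psi ψ (act T (chi Complex.I) X y) (sm (cK T) X x)

variable (hsym : ∀ (p q : ℤ) (x : (baseW T.W ℂ).H X), x ∈ T.pq X p q → sm (cK T) X x ∈ T.pq X q p)

lemma hf_add_right (x y z : (baseW T.W ℂ).H X) : hf ψ x (y + z) = hf ψ x y + hf ψ x z := by
  rw [hf, map_add, map_add, LinearMap.add_apply]
  rfl

lemma hf_add_left (x y z : (baseW T.W ℂ).H X) : hf ψ (x + y) z = hf ψ x z + hf ψ y z := by
  rw [hf, map_add, map_add]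
  rfl

lemma hf_smul_right (c : (baseW T.W ℂ).K) (x y : (baseW T.W ℂ).H X) :
    hf ψ x (c • y) = (show ℂ from c) * hf ψ x y := by
  rw [hf, map_smul, LinearMap.map_smul₂]
  rfl

lemma hf_smul_left (c : (baseW T.W ℂ).K) (x y : (baseW T.W ℂ).H X) :
    hf ψ (c • x) y = star (show ℂ from c) * hf ψ x y := by
  rw [hf, sm_smul, map_smul]
  rfl

lemma hf_zero_right (x : (baseW T.W ℂ).H X) : hf ψ x 0 = 0 := by
  rw [hf, map_zero, map_zero, LinearMap.zero_apply]
  rfl

lemma hf_zero_left (x : (baseW T.W ℂ).H X) : hf ψ 0 x = 0 := by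
  rw [hf, map_zero, map_zero]
  rfl

include hsym in
lemma hf_orth (hψ : IsPol ψ) {r s : ℤ × ℤ} (hrs : r ≠ s) {x y : (baseW T.W ℂ).H X}
    (hx : x ∈ T.pq X r.1 r.2) (hy : y ∈ T.pq X s.1 s.2) : hf ψ x y = 0 := by
  refine hψ.orth _ _ _ _ _ _ (act_mem T _ hy) (hsym _ _ x hx) ?_
  intro h
  apply hrs
  rw [Prod.ext_iff] at h
  exact Prod.ext h.2 h.1

lemma hf_pos' (hψ : IsPol ψ) {r : ℤ × ℤ} {x : (baseW T.W ℂ).H X}
    (hx : x ∈ T.pq X r.1 r.2) (h0 : x ≠ 0) : ∃ c : ℝ, 0 < c ∧ hf ψ x x = c := by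
  obtain ⟨c, hc, h1⟩ := hψ.pos _ _ x hx h0
  refine ⟨c, hc, ?_⟩
  rw [← h1, hf, act_of T _ hx, LinearMap.map_smul₂]
  rfl

include hsym in
/-- The Hermitian form is positive definite. -/
theorem hf_isPos (hψ : IsPol ψ) {x : (baseW T.W ℂ).H X} (h0 : x ≠ 0) :
    ∃ c : ℝ, 0 < c ∧ hf ψ x x = c := by
  classical
  obtain ⟨f, hf1⟩ := (pqInt T X).2 x
  have hx : x = ∑ r ∈ f.support, (f r : (baseW T.W ℂ).H X) := by
    rw [← hf1]
    exact DirectSum.coeLinearMap_eq_dfinsuppSum (R := (baseW T.W ℂ).K)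
      (A := fun r : ℤ × ℤ => T.pq X r.1 r.2) f
  have hsum1 : ∀ (s : Finset (ℤ × ℤ)) (y : (baseW T.W ℂ).H X),
      hf ψ (∑ r ∈ s, (f r : (baseW T.W ℂ).H X)) y = ∑ r ∈ s, hf ψ (f r : (baseW T.W ℂ).H X) y := by
    intro s y
    induction s using Finset.induction_on with
    | empty => rw [Finset.sum_empty, Finset.sum_empty, hf_zero_left]
    | insert a s ha ih => rw [Finset.sum_insert ha, Finset.sum_insert ha, hf_add_left, ih]
  have hsum2 : ∀ (s : Finset (ℤ × ℤ)) (y : (baseW T.W ℂ).H X),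
      hf ψ y (∑ r ∈ s, (f r : (baseW T.W ℂ).H X)) = ∑ r ∈ s, hf ψ y (f r : (baseW T.W ℂ).H X) := by
    intro s y
    induction s using Finset.induction_on with
    | empty => rw [Finset.sum_empty, Finset.sum_empty, hf_zero_right]
    | insert a s ha ih => rw [Finset.sum_insert ha, Finset.sum_insert ha, hf_add_right, ih]
  have h1 : hf ψ x x = ∑ r ∈ f.support, hf ψ (f r : (baseW T.W ℂ).H X) (f r) := by
    conv_lhs => rw [hx]
    rw [hsum1]
    refine Finset.sum_congr rfl fun r hr => ?_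
    rw [hsum2, Finset.sum_eq_single r]
    · intro s _ hs
      exact hf_orth hsym hψ (Ne.symm hs) (f r).2 (f s).2
    · intro h; exact absurd hr h
  have hne : f.support.Nonempty := by
    rw [Finset.nonempty_iff_ne_empty]
    intro h
    rw [h, Finset.sum_empty] at hx
    exact h0 hx
  have h2 : ∀ r ∈ f.support, ∃ c : ℝ, 0 < c ∧ hf ψ (f r : (baseW T.W ℂ).H X) (f r) = c := by
    intro r hr
    refine hf_pos' hψ (f r).2 ?_
    intro h
    rw [DFinsupp.mem_support_toFun] at hr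
    exact hr (Subtype.ext h)
  choose! c hc hc' using h2
  refine ⟨∑ r ∈ f.support, c r, Finset.sum_pos hc hne, ?_⟩
  rw [h1, Complex.ofReal_sum]
  exact Finset.sum_congr rfl hc'

include hsym in
lemma hf_gr (hψ : IsPol ψ) {i j : ℕ} (hij : i ≠ j) {x y : (baseW T.W ℂ).H X}
    (hx : x ∈ (baseW T.W ℂ).gr X i) (hy : y ∈ (baseW T.W ℂ).gr X j) : hf ψ x y = 0 := by
  refine Submodule.iSup_induction _ (motive := fun x => hf ψ x y = 0) (gr_le i hx) ?_ ?_ ?_
  · intro r x hx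
    refine Submodule.iSup_induction _ (motive := fun y => hf ψ x y = 0) (gr_le j hy) ?_ ?_ ?_
    · intro s y hy
      refine hf_orth hsym hψ (r := r.1) (s := s.1) ?_ hx hy
      intro h
      apply hij
      have h1 := r.2
      have h2 := s.2
      rw [h] at h1
      exact_mod_cast h1.symm.trans h2
    · exact hf_zero_right x
    · intro y y' hy hy'; rw [hf_add_right, hy, hy', add_zero]
  · exact hf_zero_left y
  · intro x x' hx hx'; rw [hf_add_left, hx, hx', add_zero]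

include hsym in
/-- Homogeneous orthonormal bases. -/
theorem exists_hbasis_onb (hψ : IsPol ψ) :
    ∃ (n : ℕ) (B : HBasis (baseW T.W ℂ) X (Fin n)), n = finrank T.W.K (T.W.H X) ∧
      ∀ i j, hf ψ (B.b i) (B.b j) = if i = j then 1 else 0 := by
  have hpos : IsPos (V := ℂ ⊗[T.W.K] T.W.H X) (fun x y => hf ψ x y) :=
    { add_right := hf_add_right
      smul_right := hf_smul_right
      add_left := hf_add_left
      smul_left := hf_smul_left
      pos := fun x hx => hf_isPos hsym hψ hx }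
  have hfin : finrank ℂ (ℂ ⊗[T.W.K] T.W.H X) = finrank T.W.K (T.W.H X) := finrank_baseChange
  obtain ⟨b, deg, h1, h2⟩ := exists_onb (V := ℂ ⊗[T.W.K] T.W.H X)
    (gr := fun i => (T.W.gr X i).baseChange ℂ) (N := 2 * X.dim + 1)
    ((baseW T.W ℂ).isInternal X) (fun i hi => (baseW T.W ℂ).gr_eq_bot X i (by omega)) hpos
    (fun i j hij x hx y hy => hf_gr hsym hψ hij hx hy)
  exact ⟨finrank ℂ (ℂ ⊗[T.W.K] T.W.H X), ⟨b, deg, h1⟩, hfin, h2⟩

end Pool.Agent.R914.UN
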