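import Pool.Agent.R914.UN.GAct

/-!
# The conjugates of the action of the torus
-/

set_option linter.unusedSectionVars false
set_option linter.unusedVariables false

open CategoryTheory AlgebraicGeometry CategoryTheory.Limits TensorProduct

universe u v

namespace Pool.Agent.R914.UN

open Pool.Agent.H914 Pool.Agent.H447 Pool.Agent.W534 Pool.Agent.Y163 VarClass Obj WeilCohomology
  Module
open Pool.Agent.Y121 Pool.Agent.R940

variable {k : Type u} [Field k] {𝒱 : VarClass k} {ops : CycleOps 𝒱}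

variable {T : AH.HodgeTheory ops} {X Y Z : 𝒱.Obj}

lemma algebraMap_rat (σ : ℂ ≃+* ℂ) (r : T.W.K) : σ (algebraMap T.W.K ℂ r) = algebraMap T.W.K ℂ r := by
  obtain ⟨q, rfl⟩ := T.rat r
  rw [map_ratCast, map_ratCast]

variable (T) in
/-- An automorphism of the complex numbers. -/
noncomputable def autK (σ : ℂ ≃+* ℂ) : ℂ ≃ₐ[T.W.K] ℂ :=
  AlgEquiv.ofRingEquiv (f := σ) (algebraMap_rat σ)

lemma autK_apply (σ : ℂ ≃+* ℂ) (z : ℂ) : autK T σ z = σ z := rfl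

/-- The semilinear automorphism of the cohomology. -/
noncomputable def sm (σ : ℂ ≃ₐ[T.W.K] ℂ) (Y : 𝒱.Obj) :
    (baseW T.W ℂ).H Y →+* (baseW T.W ℂ).H Y :=
  csH (σ : ℂ →ₐ[T.W.K] ℂ) Y

variable (σ τ : ℂ ≃ₐ[T.W.K] ℂ)

lemma sm_smul (c : (baseW T.W ℂ).K) (x : (baseW T.W ℂ).H Y) :
    sm σ Y (c • x) = (show (baseW T.W ℂ).K from σ c) • sm σ Y x := csH_smul _ c x

lemma sm_map (f : Y ⟶ Z) (x : (baseW T.W ℂ).H Z) :
    sm σ Y ((baseW T.W ℂ).map f x) = (baseW T.W ℂ).map f (sm σ Z x) := csH_map _ f x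

lemma sm_em (c : T.W.H Y) : sm σ Y (AH.em T.W ℂ c) = AH.em T.W ℂ c := csH_em _ c

lemma sm_gr {i : ℕ} {x : (baseW T.W ℂ).H Y} (hx : x ∈ (baseW T.W ℂ).gr Y i) :
    sm σ Y x ∈ (baseW T.W ℂ).gr Y i := csH_gr _ hx

lemma sm_sm (x : (baseW T.W ℂ).H Y) : sm σ Y (sm τ Y x) = sm (τ.trans σ) Y x := by
  exact cs_comp (A := T.W.H Y) (σ : ℂ →ₐ[T.W.K] ℂ) (τ : ℂ →ₐ[T.W.K] ℂ) x

lemma sm_refl (x : (baseW T.W ℂ).H Y) : sm (AlgEquiv.refl : ℂ ≃ₐ[T.W.K] ℂ) Y x = x := by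
  refine cs_ind (K := T.W.K) (L := ℂ) (A := T.W.H Y)
    (P := fun x => sm (AlgEquiv.refl : ℂ ≃ₐ[T.W.K] ℂ) Y x = x) ?_ ?_ ?_ x
  · exact map_zero _
  · intro x y hx hy
    exact (map_add (sm (AlgEquiv.refl : ℂ ≃ₐ[T.W.K] ℂ) Y) x y).trans (congrArg₂ (· + ·) hx hy)
  · intro l a
    exact cs_tmul (A := T.W.H Y) ((AlgEquiv.refl : ℂ ≃ₐ[T.W.K] ℂ) : ℂ →ₐ[T.W.K] ℂ) l a

lemma sm_symm (x : (baseW T.W ℂ).H Y) : sm σ Y (sm σ.symm Y x) = x := by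
  rw [sm_sm, AlgEquiv.symm_trans_self, sm_refl]

lemma sm_symm' (x : (baseW T.W ℂ).H Y) : sm σ.symm Y (sm σ Y x) = x := by
  rw [sm_sm, AlgEquiv.self_trans_symm, sm_refl]

lemma sm_tr (x : (baseW T.W ℂ).H Y) :
    (baseW T.W ℂ).tr Y (sm σ Y x) = (show (baseW T.W ℂ).K from σ ((baseW T.W ℂ).tr Y x)) := by
  refine cs_ind (K := T.W.K) (L := ℂ) (A := T.W.H Y)
    (P := fun x => (baseW T.W ℂ).tr Y (sm σ Y x) =
      (show (baseW T.W ℂ).K from σ ((baseW T.W ℂ).tr Y x))) ?_ ?_ ?_ x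
  · have h1 : sm σ Y (0 : (baseW T.W ℂ).H Y) = 0 := map_zero _
    have h2 : (baseW T.W ℂ).tr Y (0 : (baseW T.W ℂ).H Y) = 0 := map_zero _
    refine (congrArg ((baseW T.W ℂ).tr Y) h1).trans (h2.trans ?_)
    exact ((congrArg σ h2).trans (map_zero σ)).symm
  · intro x y hx hy
    have h1 : sm σ Y ((x : (baseW T.W ℂ).H Y) + (y : (baseW T.W ℂ).H Y)) = sm σ Y x + sm σ Y y :=
      map_add _ _ _
    have h2 : (baseW T.W ℂ).tr Y ((x : (baseW T.W ℂ).H Y) + (y : (baseW T.W ℂ).H Y)) =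
      (baseW T.W ℂ).tr Y x + (baseW T.W ℂ).tr Y y := map_add _ _ _
    refine (congrArg ((baseW T.W ℂ).tr Y) h1).trans ((map_add ((baseW T.W ℂ).tr Y) _ _).trans ?_)
    refine (congrArg₂ (· + ·) hx hy).trans ?_
    exact ((congrArg σ h2).trans (map_add σ _ _)).symm
  · intro l a
    have h1 : (cs (T.W.H Y) (σ : ℂ →ₐ[T.W.K] ℂ) (l ⊗ₜ[T.W.K] a)) = (σ l ⊗ₜ[T.W.K] a) :=
      cs_tmul _ l a
    have h2 : formBase ℂ (T.W.tr Y) (l ⊗ₜ[T.W.K] a) = l * algebraMap T.W.K ℂ (T.W.tr Y a) :=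
      formBase_tmul _ _ _
    have h3 : formBase ℂ (T.W.tr Y) ((σ l : ℂ) ⊗ₜ[T.W.K] a) =
      σ l * algebraMap T.W.K ℂ (T.W.tr Y a) := formBase_tmul _ _ _
    have h4 : formBase ℂ (T.W.tr Y) (cs (T.W.H Y) (σ : ℂ →ₐ[T.W.K] ℂ) (l ⊗ₜ[T.W.K] a)) =
        σ (formBase ℂ (T.W.tr Y) (l ⊗ₜ[T.W.K] a)) := by
      rw [h1, h3, h2, map_mul, AlgEquiv.commutes]
    exact h4

/-- The conjugate of a linear map. -/
noncomputable def cj (f : (baseW T.W ℂ).H Y →ₗ[(baseW T.W ℂ).K] (baseW T.W ℂ).H Y) :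
    (baseW T.W ℂ).H Y →ₗ[(baseW T.W ℂ).K] (baseW T.W ℂ).H Y where
  toFun x := sm σ Y (f (sm σ.symm Y x))
  map_add' x y := by rw [map_add, map_add, map_add]
  map_smul' c x := by
    rw [sm_smul, map_smul, sm_smul]
    congr 1
    exact σ.apply_symm_apply c

lemma cj_apply (f : (baseW T.W ℂ).H Y →ₗ[(baseW T.W ℂ).K] (baseW T.W ℂ).H Y)
    (x : (baseW T.W ℂ).H Y) : cj σ f x = sm σ Y (f (sm σ.symm Y x)) := rfl

/-- The character of the torus. -/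
noncomputable def chi (z : ℂ) : ℤ × ℤ → ℂ := fun r => z ^ (r.1 - r.2)

lemma chi_mul {z : ℂ} (hz : z ≠ 0) (r s : ℤ × ℤ) : chi z (r + s) = chi z r * chi z s := by
  rw [chi, chi, chi, ← zpow_add₀ hz]
  congr 1
  simp only [Prod.fst_add, Prod.snd_add]
  ring

lemma chi_diag (z : ℂ) (d : ℤ) : chi z (d, d) = 1 := by
  rw [chi, sub_self, zpow_zero]

lemma chi_zero (z : ℂ) : chi z 0 = 1 := chi_diag z 0

lemma chi_chi (z w : ℂ) : (fun r => chi z r * chi w r) = chi (z * w) := by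
  funext r
  rw [chi, chi, chi, mul_zpow]

lemma chi_one : chi 1 = fun _ => 1 := by
  funext r
  rw [chi, one_zpow]

/-- The conjugates of the action of the torus. -/
noncomputable def gam (z : ℂ) (Y : 𝒱.Obj) :
    (baseW T.W ℂ).H Y →ₗ[(baseW T.W ℂ).K] (baseW T.W ℂ).H Y :=
  cj σ (act T (chi (σ.symm z)) Y)

lemma gam_apply (z : ℂ) (x : (baseW T.W ℂ).H Y) :
    gam σ z Y x = sm σ Y (act T (chi (σ.symm z)) Y (sm σ.symm Y x)) := rfl

lemma gam_mul {z : ℂ} (hz : z ≠ 0) (x y : (baseW T.W ℂ).H Y) :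
    gam σ z Y (x * y) = gam σ z Y x * gam σ z Y y := by
  have h1 : σ.symm z ≠ 0 := by
    rw [Ne, EmbeddingLike.map_eq_zero_iff]
    exact hz
  rw [gam_apply, map_mul, act_mul T (chi_mul h1), map_mul]
  rfl

lemma gam_one (z : ℂ) : gam σ z Y 1 = 1 := by
  rw [gam_apply, map_one, act_one T (chi_zero _), map_one]

/-- The conjugates of the action of the torus, as ring homomorphisms. -/
noncomputable def gamR {z : ℂ} (hz : z ≠ 0) (Y : 𝒱.Obj) :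
    (baseW T.W ℂ).H Y →+* (baseW T.W ℂ).H Y where
  toFun := gam σ z Y
  map_one' := gam_one σ z
  map_mul' := gam_mul σ hz
  map_zero' := map_zero _
  map_add' := map_add _

lemma gam_map (z : ℂ) (f : Y ⟶ Z) (x : (baseW T.W ℂ).H Z) :
    gam σ z Y ((baseW T.W ℂ).map f x) = (baseW T.W ℂ).map f (gam σ z Z x) := by
  rw [gam_apply, sm_map, act_map, sm_map]
  rfl

lemma gam_gam (z w : ℂ) (x : (baseW T.W ℂ).H Y) :
    gam σ z Y (gam σ w Y x) = gam σ (z * w) Y x := by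
  rw [gam_apply, gam_apply, gam_apply, sm_symm', act_act, chi_chi, map_mul]

lemma gam_id (x : (baseW T.W ℂ).H Y) : gam σ 1 Y x = x := by
  rw [gam_apply, map_one, chi_one, act_one', sm_symm]

lemma gam_tr (hpos : ∀ (Y : 𝒱.Obj) (p q : ℤ), p < 0 ∨ q < 0 → T.pq Y p q = ⊥) (z : ℂ)
    (x : (baseW T.W ℂ).H Y) :
    (baseW T.W ℂ).tr Y (gam σ z Y x) = (baseW T.W ℂ).tr Y x := by
  rw [gam_apply, sm_tr, tr_act T hpos (chi_diag _), sm_tr]
  exact σ.apply_symm_apply _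

/-- Conjugation of the conjugates. -/
lemma sm_gam (z : ℂ) (x : (baseW T.W ℂ).H Y) :
    sm τ Y (gam σ z Y x) = gam (σ.trans τ) (τ z) Y (sm τ Y x) := by
  rw [gam_apply, gam_apply, sm_sm, sm_sm]
  have h1 : (σ.trans τ).symm (τ z) = σ.symm z := by
    rw [AlgEquiv.symm_trans_apply, AlgEquiv.symm_apply_apply]
  have h2 : τ.trans (σ.trans τ).symm = σ.symm := by
    ext w
    simp
  rw [h1, h2]

end Pool.Agent.R914.UN
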