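import Pool.Agent.R914.UN.HDefs

/-!
# Classes generated by the Hodge classes on one variety: definitions
-/

open CategoryTheory AlgebraicGeometry

universe u

namespace Pool.Agent.R914.UN

open Pool.Agent.H914 Pool.Agent.H914.VarClass Pool.Agent.H914.VarClass.Obj
  Pool.Agent.H914.WeilCohomology Pool.Agent.Y121.AHS

variable {k : Type u} [Field k] {𝒱 : VarClass k} {ops : CycleOps 𝒱}

/-- The pull-back of the class `a`. -/
noncomputable def pull (T : HodgeTheory ops) {X Y : 𝒱.Obj} (f : X ⟶ Y) (a : T.W.H Y) : T.W.H X :=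
  T.W.map f a

/-- The push-forward of the class `a`. -/
noncomputable def push (T : HodgeTheory ops) {X Y : 𝒱.Obj} (f : X ⟶ Y) (a : T.W.H X) : T.W.H Y :=
  T.W.push f a

/-- `IsGenerated T Y X j c`: the class `c` of degree `2 j` on `X` is obtained from Hodge classes on the
variety `Y` and classes of algebraic cycles by a finite number of linear combinations, products,
pull-backs and push-forwards (along morphisms of smooth projective varieties). -/
inductive IsGenerated (T : HodgeTheory ops) (Y : 𝒱.Obj) : ∀ X : 𝒱.Obj, ℕ → T.W.H X → Prop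
  | hodge {j : ℕ} {c : T.W.H Y} : IsHodge T Y j c → IsGenerated T Y Y j c
  | cl {X : 𝒱.Obj} {j : ℕ} {z : X.Cycles} : X.IsCyc j z → IsGenerated T Y X j (T.W.cl X z)
  | add {X : 𝒱.Obj} {j : ℕ} {a b : T.W.H X} : IsGenerated T Y X j a → IsGenerated T Y X j b →
      IsGenerated T Y X j (a + b)
  | smul {X : 𝒱.Obj} {j : ℕ} (r : T.W.K) {a : T.W.H X} : IsGenerated T Y X j a →
      IsGenerated T Y X j (r • a)
  | mul {X : 𝒱.Obj} {i j : ℕ} {a b : T.W.H X} : IsGenerated T Y X i a → IsGenerated T Y X j b →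
      IsGenerated T Y X (i + j) (a * b)
  | map {X Z : 𝒱.Obj} (f : X ⟶ Z) {j : ℕ} {a : T.W.H Z} : IsGenerated T Y Z j a →
      IsGenerated T Y X j (pull T f a)
  | push {X Z : 𝒱.Obj} (f : X ⟶ Z) {j l : ℕ} {a : T.W.H X} : l + X.dim = j + Z.dim →
      IsGenerated T Y X j a → IsGenerated T Y Z l (push T f a)

end Pool.Agent.R914.UN
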