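import Pool.Agent.R914.UN.Defs

/-!
# Greedy parametrisation of the closure of the monoid generated by curves
-/

namespace Pool.Agent.R914.UN
open MvPolynomial

variable {B : Type} [Fintype B] [DecidableEq B]

/-! ### Laurent functions -/

/-- Laurent monomials in the first `m` coordinates. -/
noncomputable def chr (m : ℕ) (k : Fin m → ℤ) : (ℕ → ℂˣ) → ℂ :=
  fun t => ∏ i : Fin m, ((t i : ℂˣ) : ℂ) ^ (k i)

/-- The set of the Laurent monomials with bounded exponents. -/
def Sm (m : ℕ) (v : Fin m → ℕ) : Set ((ℕ → ℂˣ) → ℂ) :=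
  {f | ∃ k : Fin m → ℤ, (∀ i, |k i| ≤ (v i : ℤ)) ∧ f = chr m k}

/-- The space of the Laurent polynomials with bounded exponents. -/
noncomputable def Lau (m : ℕ) (v : Fin m → ℕ) : Submodule ℂ ((ℕ → ℂˣ) → ℂ) :=
  Submodule.span ℂ (Sm m v)

lemma chr_mul (m : ℕ) (k k' : Fin m → ℤ) : chr m k * chr m k' = chr m (k + k') := by
  funext t
  simp only [chr, Pi.mul_apply, Pi.add_apply]
  rw [← Finset.prod_mul_distrib]
  refine Finset.prod_congr rfl fun i _ => ?_
  rw [zpow_add₀ (Units.ne_zero _)]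

lemma Lau_mono {m : ℕ} {v v' : Fin m → ℕ} (h : ∀ i, v i ≤ v' i) : Lau m v ≤ Lau m v' := by
  refine Submodule.span_mono ?_
  rintro f ⟨k, hk, rfl⟩
  exact ⟨k, fun i => (hk i).trans (by exact_mod_cast h i), rfl⟩

lemma Lau_mul {m : ℕ} {v v' : Fin m → ℕ} {f g : (ℕ → ℂˣ) → ℂ} (hf : f ∈ Lau m v)
    (hg : g ∈ Lau m v') : f * g ∈ Lau m (v + v') := by
  have h := Submodule.mul_mem_mul hf hg
  rw [Lau, Lau, Submodule.span_mul_span] at h
  refine Submodule.span_mono ?_ h
  rintro _ ⟨_, ⟨k, hk, rfl⟩, _, ⟨k', hk', rfl⟩, rfl⟩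
  refine ⟨k + k', fun i => ?_, chr_mul m k k'⟩
  simp only [Pi.add_apply, Nat.cast_add]
  exact (abs_add_le _ _).trans (add_le_add (hk i) (hk' i))

lemma one_mem_Lau (m : ℕ) (v : Fin m → ℕ) : (1 : (ℕ → ℂˣ) → ℂ) ∈ Lau m v := by
  refine Submodule.subset_span ⟨0, fun i => by simp, ?_⟩
  funext t
  simp [chr]

lemma Lau_pow {m : ℕ} {v : Fin m → ℕ} {f : (ℕ → ℂˣ) → ℂ} (hf : f ∈ Lau m v) (n : ℕ) :
    f ^ n ∈ Lau m (n • v) := by
  induction n with
  | zero => simpa using one_mem_Lau m 0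
  | succ n ih =>
    rw [pow_succ, succ_nsmul]
    exact Lau_mul ih hf

lemma Lau_prod {m : ℕ} {ι : Type} (s : Finset ι) (v : ι → Fin m → ℕ)
    (f : ι → (ℕ → ℂˣ) → ℂ) (hf : ∀ i ∈ s, f i ∈ Lau m (v i)) :
    ∏ i ∈ s, f i ∈ Lau m (∑ i ∈ s, v i) := by
  classical
  induction s using Finset.induction_on with
  | empty => simpa using one_mem_Lau m 0
  | insert a s ha ih =>
    rw [Finset.prod_insert ha, Finset.sum_insert ha]
    exact Lau_mul (hf a (Finset.mem_insert_self a s))
      (ih fun i hi => hf i (Finset.mem_insert_of_mem hi))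

/-- Dimension bound. -/
lemma finrank_Lau (m K : ℕ) :
    Module.Finite ℂ (Lau m (fun _ => K)) ∧
      Module.finrank ℂ (Lau m (fun _ => K)) ≤ (2 * K + 1) ^ m := by
  classical
  have hS : Sm m (fun _ => K) =
      ((Fintype.piFinset (fun _ : Fin m => Finset.Icc (-(K : ℤ)) K)).image (chr m) :
        Finset ((ℕ → ℂˣ) → ℂ)) := by
    ext f
    simp only [Sm, Set.mem_setOf_eq, Finset.coe_image, Set.mem_image, Finset.mem_coe,
      Fintype.mem_piFinset, Finset.mem_Icc]
    constructor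
    · rintro ⟨k, hk, rfl⟩
      exact ⟨k, fun i => abs_le.1 (hk i), rfl⟩
    · rintro ⟨k, hk, rfl⟩
      exact ⟨k, fun i => abs_le.2 (hk i), rfl⟩
  constructor
  · rw [Lau, hS]
    infer_instance
  · rw [Lau, hS]
    refine (finrank_span_finset_le_card _).trans (Finset.card_image_le.trans ?_)
    rw [Fintype.card_piFinset_const, Int.card_Icc]
    have : ((K : ℤ) + 1 - -(K : ℤ)).toNat = 2 * K + 1 := by omega
    rw [this]

/-- Laurent polynomials are polynomials divided by monomials. -/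
lemma Lau_poly {m : ℕ} {v : Fin m → ℕ} {f : (ℕ → ℂˣ) → ℂ} (hf : f ∈ Lau m v) :
    ∃ q : MvPolynomial (Fin m) ℂ, ∀ t : ℕ → ℂˣ,
      eval (fun i : Fin m => ((t i : ℂˣ) : ℂ)) q = (∏ i : Fin m, ((t i : ℂˣ) : ℂ) ^ (v i)) * f t := by
  induction hf using Submodule.span_induction with
  | mem x hx =>
    obtain ⟨k, hk, rfl⟩ := hx
    refine ⟨∏ i : Fin m, X i ^ ((v i : ℤ) + k i).toNat, fun t => ?_⟩
    rw [map_prod, chr, ← Finset.prod_mul_distrib]
    refine Finset.prod_congr rfl fun i _ => ?_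
    rw [map_pow, eval_X, ← zpow_natCast, Int.toNat_of_nonneg, zpow_add₀ (Units.ne_zero _),
      zpow_natCast]
    have := (abs_le.1 (hk i)).1
    linarith
  | zero => exact ⟨0, fun t => by simp⟩
  | add x y _ _ hx hy =>
    obtain ⟨q, hq⟩ := hx
    obtain ⟨q', hq'⟩ := hy
    refine ⟨q + q', fun t => ?_⟩
    rw [map_add, hq, hq', Pi.add_apply, mul_add]
  | smul a x _ hx =>
    obtain ⟨q, hq⟩ := hx
    refine ⟨C a * q, fun t => ?_⟩
    rw [map_mul, hq, eval_C, Pi.smul_apply, smul_eq_mul]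
    ring

/-- A product of two Laurent polynomials is zero only if one of them is. -/
lemma Lau_noZero {m : ℕ} {v v' : Fin m → ℕ} {f g : (ℕ → ℂˣ) → ℂ} (hf : f ∈ Lau m v)
    (hg : g ∈ Lau m v') (h : f * g = 0) : f = 0 ∨ g = 0 := by
  obtain ⟨q, hq⟩ := Lau_poly hf
  obtain ⟨q', hq'⟩ := Lau_poly hg
  have hz : q * q' * ∏ i : Fin m, X i = 0 := by
    refine MvPolynomial.funext fun s => ?_
    rw [map_zero, map_mul, map_mul, map_prod]
    by_cases hs : ∃ i, s i = 0
    · obtain ⟨i, hi⟩ := hs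
      rw [Finset.prod_eq_zero (Finset.mem_univ i) (by rw [eval_X, hi]), mul_zero]
    · push Not at hs
      let t : ℕ → ℂˣ := fun i => if hi : i < m then Units.mk0 (s ⟨i, hi⟩) (hs _) else 1
      have ht : s = fun i : Fin m => ((t i : ℂˣ) : ℂ) := by
        funext i
        simp [t, i.2]
      have hfg : f t * g t = 0 := congrFun h t
      rw [ht, hq, hq']
      linear_combination ((∏ i : Fin m, ((t i : ℂˣ) : ℂ) ^ (v i)) *
        (∏ i : Fin m, ((t i : ℂˣ) : ℂ) ^ (v' i)) *
        ∏ i : Fin m, eval (fun i : Fin m => ((t i : ℂˣ) : ℂ)) (X i)) * hfg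
  have hX : (∏ i : Fin m, X i : MvPolynomial (Fin m) ℂ) ≠ 0 :=
    Finset.prod_ne_zero_iff.2 fun i _ => X_ne_zero i
  have hne : ∀ (v : Fin m → ℕ) (t : ℕ → ℂˣ), (∏ i : Fin m, ((t i : ℂˣ) : ℂ) ^ (v i)) ≠ 0 :=
    fun v t => Finset.prod_ne_zero_iff.2 fun i _ => pow_ne_zero _ (Units.ne_zero _)
  rcases mul_eq_zero.1 ((mul_eq_zero.1 hz).resolve_right hX) with h0 | h0
  · left
    funext t
    have := hq t
    rw [h0, map_zero] at this
    exact (mul_eq_zero.1 this.symm).resolve_left (hne v t)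
  · right
    funext t
    have := hq' t
    rw [h0, map_zero] at this
    exact (mul_eq_zero.1 this.symm).resolve_left (hne v' t)

/-! ### Products of curves -/

/-- The product of the curves in the list (the head is the last factor), evaluated at
independent parameters. -/
noncomputable def gl (w : ℕ) : List (ℤ → Matrix B B ℂ) → (ℕ → ℂˣ) → Matrix B B ℂ
  | [], _ => 1
  | e :: L, t => gl w L t * curve w e (t L.length : ℂˣ)

lemma gl_congr (w : ℕ) (L : List (ℤ → Matrix B B ℂ)) (t t' : ℕ → ℂˣ)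
    (h : ∀ i < L.length, t i = t' i) : gl w L t = gl w L t' := by
  induction L with
  | nil => rfl
  | cons e L ih =>
    simp only [gl]
    rw [ih fun i hi => h i (by simp only [List.length_cons]; omega), h L.length (by simp)]

lemma gl_mem (w : ℕ) (T : Set (ℤ → Matrix B B ℂ)) (L : List (ℤ → Matrix B B ℂ))
    (hL : ∀ e ∈ L, e ∈ T) (t : ℕ → ℂˣ) : gl w L t ∈ gen w T := by
  induction L with
  | nil => exact (gen w T).one_mem
  | cons e L ih =>
    simp only [gl]
    refine (gen w T).mul_mem (ih fun e' he' => hL e' (List.mem_cons_of_mem _ he')) ?_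
    exact Submonoid.subset_closure ⟨e, hL e List.mem_cons_self, _, Units.ne_zero _, rfl⟩

lemma gl_one (w : ℕ) (T : Set (ℤ → Matrix B B ℂ)) (hT : ∀ e ∈ T, curve w e 1 = 1)
    (L : List (ℤ → Matrix B B ℂ)) (hL : ∀ e ∈ L, e ∈ T) : gl w L 1 = 1 := by
  induction L with
  | nil => rfl
  | cons e L ih =>
    simp only [gl, Pi.one_apply, Units.val_one]
    rw [ih fun e' he' => hL e' (List.mem_cons_of_mem _ he'), hT e (hL e List.mem_cons_self),
      mul_one]

/-- The ideal of the polynomials which vanish on all the products. -/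
noncomputable def PL (w : ℕ) (L : List (ℤ → Matrix B B ℂ)) : Ideal (MvPolynomial (B × B) ℂ) :=
  ⨅ t : ℕ → ℂˣ, RingHom.ker (ev (gl w L t))

lemma mem_PL {w : ℕ} {L : List (ℤ → Matrix B B ℂ)} {p : MvPolynomial (B × B) ℂ} :
    p ∈ PL w L ↔ ∀ t : ℕ → ℂˣ, ev (gl w L t) p = 0 := by
  simp [PL, Submodule.mem_iInf, RingHom.mem_ker]

/-- The entries of the products are Laurent polynomials. -/
lemma curve_entry (w : ℕ) (e : ℤ → Matrix B B ℂ) (m : ℕ) (n : Fin m) (a b : B) :
    (fun t : ℕ → ℂˣ => curve w e (t n : ℂˣ) a b) ∈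
      Lau m (fun i => if i = n then w else 0) := by
  have : (fun t : ℕ → ℂˣ => curve w e (t n : ℂˣ) a b) =
      ∑ k ∈ Finset.Icc (-(w : ℤ)) w, (e k a b) • chr m (fun i => if i = n then k else 0) := by
    funext t
    rw [Finset.sum_apply, curve, Matrix.sum_apply]
    refine Finset.sum_congr rfl fun k _ => ?_
    rw [Matrix.smul_apply, Pi.smul_apply, smul_eq_mul, smul_eq_mul, mul_comm, chr]
    congr 1
    rw [Finset.prod_eq_single n]
    · simp
    · intro i _ hi
      simp [hi]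
    · simp
  rw [this]
  refine Submodule.sum_mem _ fun k hk => Submodule.smul_mem _ _ (Submodule.subset_span ?_)
  refine ⟨_, fun i => ?_, rfl⟩
  rw [Finset.mem_Icc] at hk
  by_cases hi : i = n
  · simp only [hi, if_true]
    exact abs_le.2 hk
  · simp only [hi, if_false]
    simp

lemma gl_entry (w : ℕ) (m : ℕ) (L : List (ℤ → Matrix B B ℂ)) (hm : L.length ≤ m) (a b : B) :
    (fun t : ℕ → ℂˣ => gl w L t a b) ∈
      Lau m (fun i => if i.1 < L.length then w else 0) := by
  induction L generalizing a b with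
  | nil =>
    have : (fun t : ℕ → ℂˣ => gl w ([] : List (ℤ → Matrix B B ℂ)) t a b) =
        ((1 : Matrix B B ℂ) a b) • (1 : (ℕ → ℂˣ) → ℂ) := by
      funext t
      simp [gl]
    rw [this]
    exact Submodule.smul_mem _ _ (one_mem_Lau _ _)
  | cons e L ih =>
    have hm' : L.length < m := by simpa using hm
    have : (fun t : ℕ → ℂˣ => gl w (e :: L) t a b) =
        ∑ j : B, (fun t : ℕ → ℂˣ => gl w L t a j) *
          (fun t : ℕ → ℂˣ => curve w e (t (⟨L.length, hm'⟩ : Fin m) : ℂˣ) j b) := by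
      funext t
      simp only [gl, Matrix.mul_apply, Finset.sum_apply, Pi.mul_apply]
    rw [this]
    refine Submodule.sum_mem _ fun j _ => ?_
    refine Lau_mono ?_ (Lau_mul (ih hm'.le a j) (curve_entry w e m ⟨L.length, hm'⟩ j b))
    intro i
    simp only [Pi.add_apply, List.length_cons]
    rcases lt_trichotomy i.1 L.length with h | h | h
    · have h1 : i ≠ ⟨L.length, hm'⟩ := fun h' => by rw [h'] at h; exact lt_irrefl _ h
      rw [if_pos h, if_neg h1, if_pos (by omega)]
      omega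
    · have h1 : i = ⟨L.length, hm'⟩ := Fin.ext h
      rw [if_neg (by omega), if_pos h1, if_pos (by omega)]
      omega
    · have h1 : i ≠ ⟨L.length, hm'⟩ := fun h' => by rw [h'] at h; exact lt_irrefl _ h
      rw [if_neg (by omega), if_neg h1]
      omega

/-- The value of a polynomial in the entries, as function of the parameters. -/
noncomputable def Ph (w : ℕ) (L : List (ℤ → Matrix B B ℂ)) :
    MvPolynomial (B × B) ℂ →ₐ[ℂ] ((ℕ → ℂˣ) → ℂ) :=
  aeval fun q t => gl w L t q.1 q.2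

lemma Ph_apply (w : ℕ) (L : List (ℤ → Matrix B B ℂ)) (p : MvPolynomial (B × B) ℂ)
    (t : ℕ → ℂˣ) : Ph w L p t = ev (gl w L t) p := by
  induction p using MvPolynomial.induction_on with
  | C a => simp [Ph, ev]
  | add p q hp hq => rw [map_add, map_add, Pi.add_apply, hp, hq]
  | mul_X p q hp => rw [map_mul, map_mul, Pi.mul_apply, hp]; simp [Ph, ev]

lemma mem_PL' {w : ℕ} {L : List (ℤ → Matrix B B ℂ)} {p : MvPolynomial (B × B) ℂ} :
    p ∈ PL w L ↔ Ph w L p = 0 := by
  rw [mem_PL]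
  constructor
  · intro h
    funext t
    rw [Ph_apply, h t]
    rfl
  · intro h t
    rw [← Ph_apply, h]
    rfl

lemma Ph_mem (w : ℕ) (L : List (ℤ → Matrix B B ℂ)) (p : MvPolynomial (B × B) ℂ) (D : ℕ)
    (hp : p.totalDegree ≤ D) : Ph w L p ∈ Lau L.length (fun _ => w * D) := by
  rw [p.as_sum, map_sum]
  refine Submodule.sum_mem _ fun s hs => ?_
  have h1 : Ph w L (monomial s (coeff s p)) =
      coeff s p • ∏ q ∈ s.support, (fun t : ℕ → ℂˣ => gl w L t q.1 q.2) ^ (s q) := by
    rw [Ph, aeval_monomial, Algebra.smul_def, Finsupp.prod]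
  rw [h1]
  refine Submodule.smul_mem _ _ ?_
  refine Lau_mono ?_ (Lau_prod s.support (fun q => s q • (fun _ => w)) _ fun q _ =>
    Lau_pow (Lau_mono (fun i => ?_) (gl_entry w L.length L le_rfl q.1 q.2)) (s q))
  · intro i
    have h2 : s.sum (fun _ e => e) ≤ D := (le_totalDegree hs).trans hp
    rw [Finset.sum_apply]
    simp only [Pi.smul_apply, smul_eq_mul]
    rw [← Finset.sum_mul, mul_comm]
    exact Nat.mul_le_mul_left _ h2
  · split_ifs
    · exact le_rfl
    · exact Nat.zero_le _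

lemma PL_prime (w : ℕ) (L : List (ℤ → Matrix B B ℂ)) : (PL w L).IsPrime := by
  refine ⟨?_, ?_⟩
  · rw [Ideal.ne_top_iff_one, mem_PL]
    intro h
    have := h 1
    rw [map_one] at this
    exact one_ne_zero this
  · intro p q hpq
    rw [mem_PL', map_mul] at hpq
    rcases Lau_noZero (Ph_mem w L p _ le_rfl) (Ph_mem w L q _ le_rfl) hpq with h | h
    · exact Or.inl (mem_PL'.2 h)
    · exact Or.inr (mem_PL'.2 h)

/-! ### Greedy choice -/

/-- `y` is algebraically independent modulo the ideal. -/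
def Indep (w : ℕ) (L : List (ℤ → Matrix B B ℂ)) : Prop :=
  ∃ y : Fin L.length → MvPolynomial (B × B) ℂ,
    AlgebraicIndependent ℂ (fun i => Ideal.Quotient.mk (PL w L) (y i))

lemma indep_iff (I : Ideal (MvPolynomial (B × B) ℂ)) {n : ℕ}
    (y : Fin n → MvPolynomial (B × B) ℂ) :
    AlgebraicIndependent ℂ (fun i => Ideal.Quotient.mk I (y i)) ↔
      ∀ F : MvPolynomial (Fin n) ℂ, aeval y F ∈ I → F = 0 := by
  have key : ∀ F : MvPolynomial (Fin n) ℂ,
      aeval (fun i => Ideal.Quotient.mk I (y i)) F = Ideal.Quotient.mk I (aeval y F) := by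
    intro F
    have := MvPolynomial.map_aeval y (Ideal.Quotient.mk I) F
    rw [this]
    rfl
  rw [algebraicIndependent_iff]
  constructor
  · intro h F hF
    exact h F (by rw [key, Ideal.Quotient.eq_zero_iff_mem]; exact hF)
  · intro h F hF
    rw [key, Ideal.Quotient.eq_zero_iff_mem] at hF
    exact h F hF

lemma indep_le (w : ℕ) (L : List (ℤ → Matrix B B ℂ)) (h : Indep w L) :
    L.length ≤ Fintype.card B ^ 2 := by
  obtain ⟨y, hy⟩ := h
  rw [indep_iff] at hy
  have h1 : AlgebraicIndependent ℂ y := by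
    rw [algebraicIndependent_iff]
    intro F hF
    exact hy F (by rw [hF]; exact Ideal.zero_mem _)
  have h2 := h1.cardinalMk_le_trdeg
  rw [MvPolynomial.trdeg_of_isDomain] at h2
  simp only [Cardinal.lift_id, Cardinal.mk_fintype, Fintype.card_prod, Fintype.card_fin,
    Nat.cast_le] at h2
  rw [pow_two]
  exact h2

lemma indep_nil (w : ℕ) : Indep w ([] : List (ℤ → Matrix B B ℂ)) := by
  refine ⟨fun i => i.elim0, ?_⟩
  rw [indep_iff]
  intro F hF
  haveI : IsEmpty (Fin ([] : List (ℤ → Matrix B B ℂ)).length) := Fin.isEmpty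
  obtain ⟨c, rfl⟩ : ∃ c : ℂ, F = C c := ⟨_, (MvPolynomial.eq_C_of_isEmpty F)⟩
  rw [aeval_C, algebraMap_eq, mem_PL] at hF
  have := hF 1
  simp only [ev, eval_C] at this
  rw [this, map_zero]

/-- Extending an independent family. -/
lemma indep_cons {n : ℕ} (P P' : Ideal (MvPolynomial (B × B) ℂ)) (hP' : P'.IsPrime)
    (hle : P' ≤ P) (y : Fin n → MvPolynomial (B × B) ℂ)
    (hy : ∀ F : MvPolynomial (Fin n) ℂ, aeval y F ∈ P → F = 0)
    (p : MvPolynomial (B × B) ℂ) (hp : p ∈ P) (hp' : p ∉ P') :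
    ∀ F : MvPolynomial (Fin (n + 1)) ℂ, aeval (Fin.cons p y) F ∈ P' → F = 0 := by
  intro F hF
  by_contra hne
  -- as polynomial in the first variable
  have key : ∀ F : MvPolynomial (Fin (n + 1)) ℂ, aeval (Fin.cons p y) F =
      Polynomial.eval₂ (aeval y : MvPolynomial (Fin n) ℂ →ₐ[ℂ] _).toRingHom p
        (finSuccEquiv ℂ n F) := by
    intro F
    induction F using MvPolynomial.induction_on with
    | C a =>
      simp [finSuccEquiv_apply]
    | add F G hF hG => rw [map_add, map_add, Polynomial.eval₂_add, hF, hG]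
    | mul_X F i hF =>
      rw [map_mul, map_mul, Polynomial.eval₂_mul, hF]
      congr 1
      refine Fin.cases ?_ (fun j => ?_) i
      · simp [finSuccEquiv_X_zero]
      · simp [finSuccEquiv_X_succ]
  rw [key] at hF
  set G := finSuccEquiv ℂ n F with hG
  have hGne : G ≠ 0 := by
    rw [hG]
    intro h
    exact hne ((finSuccEquiv ℂ n).injective (by rw [h, map_zero]))
  clear_value G
  obtain ⟨G1, hG1, hG1'⟩ := Polynomial.exists_eq_pow_rootMultiplicity_mul_and_not_dvd G hGne 0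
  rw [map_zero, sub_zero] at hG1 hG1'
  rw [hG1, Polynomial.eval₂_mul, Polynomial.eval₂_pow, Polynomial.eval₂_X] at hF
  have h2 := (hP'.mem_or_mem hF).resolve_left fun h => hp' (hP'.mem_of_pow_mem _ h)
  have h3 := hle h2
  have h4 : Polynomial.eval₂ (aeval y : MvPolynomial (Fin n) ℂ →ₐ[ℂ] _).toRingHom p G1 =
      p * Polynomial.eval₂ (aeval y : MvPolynomial (Fin n) ℂ →ₐ[ℂ] _).toRingHom p G1.divX +
        aeval y (G1.coeff 0) := by
    conv_lhs => rw [← Polynomial.X_mul_divX_add G1]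
    rw [Polynomial.eval₂_add, Polynomial.eval₂_mul, Polynomial.eval₂_X, Polynomial.eval₂_C]
    rfl
  rw [h4] at h3
  have h5 := (Ideal.add_mem_iff_right P (P.mul_mem_right _ hp)).1 h3
  have h6 := hy _ h5
  exact hG1' (Polynomial.X_dvd_iff.2 h6)

/-- A maximal choice. -/
lemma exists_max (w : ℕ) (T : Set (ℤ → Matrix B B ℂ)) :
    ∃ L : List (ℤ → Matrix B B ℂ), (∀ e ∈ L, e ∈ T) ∧ Indep w L ∧
      ∀ e ∈ T, ¬ Indep w (e :: L) := by
  by_contra hcon
  push Not at hcon
  have : ∀ n : ℕ, ∃ L : List (ℤ → Matrix B B ℂ), (∀ e ∈ L, e ∈ T) ∧ Indep w L ∧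
      L.length = n := by
    intro n
    induction n with
    | zero => exact ⟨[], by simp, indep_nil w, rfl⟩
    | succ n ih =>
      obtain ⟨L, hL, hi, hn⟩ := ih
      obtain ⟨e, he, hi'⟩ := hcon L hL hi
      refine ⟨e :: L, ?_, hi', by simp [hn]⟩
      intro e' he'
      rcases List.mem_cons.1 he' with rfl | h
      · exact he
      · exact hL e' h
  obtain ⟨L, _, hi, hn⟩ := this (Fintype.card B ^ 2 + 1)
  have := indep_le w L hi
  omega

lemma PL_cons_le (w : ℕ) (T : Set (ℤ → Matrix B B ℂ)) (hT : ∀ e ∈ T, curve w e 1 = 1)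
    (L : List (ℤ → Matrix B B ℂ)) (e : ℤ → Matrix B B ℂ) (he : e ∈ T) :
    PL w (e :: L) ≤ PL w L := by
  intro p hp
  rw [mem_PL] at hp ⊢
  intro t
  have := hp (Function.update t L.length 1)
  simp only [gl, Function.update_self, Units.val_one, hT e he, mul_one] at this
  rw [gl_congr w L (Function.update t L.length 1) t] at this
  · exact this
  · intro i hi
    rw [Function.update_of_ne (by omega)]

lemma PL_le_cons (w : ℕ) (T : Set (ℤ → Matrix B B ℂ)) (hT : ∀ e ∈ T, curve w e 1 = 1)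
    (L : List (ℤ → Matrix B B ℂ)) (hi : Indep w L) (e : ℤ → Matrix B B ℂ) (he : e ∈ T)
    (hmax : ¬ Indep w (e :: L)) : PL w L ≤ PL w (e :: L) := by
  intro p hp
  by_contra hp'
  obtain ⟨y, hy⟩ := hi
  rw [indep_iff] at hy
  refine hmax ⟨Fin.cons p y, ?_⟩
  rw [indep_iff]
  exact indep_cons _ _ (PL_prime w _) (PL_cons_le w T hT L e he) y hy p hp hp'

/-- Right translation of a polynomial in the entries. -/
noncomputable def rt (h : Matrix B B ℂ) : MvPolynomial (B × B) ℂ →ₐ[ℂ] MvPolynomial (B × B) ℂ :=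
  aeval fun q => ∑ j : B, X (q.1, j) * C (h j q.2)

lemma ev_rt (g h : Matrix B B ℂ) (p : MvPolynomial (B × B) ℂ) :
    ev g (rt h p) = ev (g * h) p := by
  induction p using MvPolynomial.induction_on with
  | C a => simp [rt, ev]
  | add p q hp hq => rw [map_add, map_add, map_add, hp, hq]
  | mul_X p q hp =>
    rw [map_mul, map_mul, map_mul, hp]
    congr 1
    simp [rt, ev, Matrix.mul_apply]

lemma PL_eq_vanI (w : ℕ) (T : Set (ℤ → Matrix B B ℂ)) (hT : ∀ e ∈ T, curve w e 1 = 1)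
    (L : List (ℤ → Matrix B B ℂ)) (hL : ∀ e ∈ L, e ∈ T) (hi : Indep w L)
    (hmax : ∀ e ∈ T, ¬ Indep w (e :: L)) :
    vanI (gen w T : Set (Matrix B B ℂ)) = PL w L := by
  have hvan : ∀ p, p ∈ vanI (gen w T : Set (Matrix B B ℂ)) ↔ ∀ g ∈ gen w T, ev g p = 0 := by
    intro p
    simp [vanI, Submodule.mem_iInf, RingHom.mem_ker]
  have hstab : ∀ h ∈ gen w T, ∀ p ∈ PL w L, rt h p ∈ PL w L := by
    intro h hh
    induction hh using Submonoid.closure_induction with
    | mem x hx =>
      obtain ⟨e, he, z, hz, rfl⟩ := hx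
      intro p hp
      have hp1 := PL_le_cons w T hT L hi e he (hmax e he) hp
      rw [mem_PL] at hp1 ⊢
      intro t
      rw [ev_rt]
      have := hp1 (Function.update t L.length (Units.mk0 z hz))
      simp only [gl, Function.update_self, Units.val_mk0] at this
      rw [gl_congr w L (Function.update t L.length (Units.mk0 z hz)) t] at this
      · exact this
      · intro i hi
        rw [Function.update_of_ne (by omega)]
    | one =>
      intro p hp
      rw [mem_PL] at hp ⊢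
      intro t
      rw [ev_rt, mul_one]
      exact hp t
    | mul x y _ _ hx hy =>
      intro p hp
      have := hx _ (hy p hp)
      rw [mem_PL] at this ⊢
      intro t
      have h1 := this t
      rw [ev_rt, ev_rt] at h1
      rw [ev_rt, ← mul_assoc]
      exact h1
  apply le_antisymm
  · intro p hp
    rw [hvan] at hp
    rw [mem_PL]
    intro t
    exact hp _ (gl_mem w T L hL t)
  · intro p hp
    rw [hvan]
    intro g hg
    have := hstab g hg p hp
    rw [mem_PL] at this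
    have h1 := this 1
    rw [ev_rt, gl_one w T hT L hL, one_mul] at h1
    exact h1

/-! ### Counting -/

lemma count_ineq (w d : ℕ) :
    (2 * (w * ((d + 1) * ((2 * w + 1) * (d + 1)) ^ d)) + 1) ^ d <
      (((2 * w + 1) * (d + 1)) ^ d + 1) ^ (d + 1) := by
  set e := ((2 * w + 1) * (d + 1)) ^ d with he
  have h1 : 2 * (w * ((d + 1) * e)) + 1 ≤ (2 * w + 1) * (d + 1) * (e + 1) := by
    nlinarith [Nat.zero_le w, Nat.zero_le d, Nat.zero_le e, Nat.zero_le (w * d),
      Nat.zero_le (w * e), Nat.zero_le (d * e), Nat.zero_le (w * d * e)]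
  calc (2 * (w * ((d + 1) * e)) + 1) ^ d ≤ ((2 * w + 1) * (d + 1) * (e + 1)) ^ d :=
        Nat.pow_le_pow_left h1 d
    _ = e * (e + 1) ^ d := by rw [mul_pow, ← he]
    _ < (e + 1) * (e + 1) ^ d := by
        refine Nat.mul_lt_mul_of_pos_right (Nat.lt_succ_self e) (by positivity)
    _ = (e + 1) ^ (d + 1) := by rw [pow_succ, mul_comm]

lemma counting (w : ℕ) (L : List (ℤ → Matrix B B ℂ)) (d : ℕ) (hd : d = L.length)
    (l : Fin (d + 1) → MvPolynomial (B × B) ℂ) (hl : ∀ i, (l i).IsHomogeneous 1) :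
    ∃ F : MvPolynomial (Fin (d + 1)) ℂ, F ≠ 0 ∧
      F.totalDegree ≤ (d + 1) * ((2 * w + 1) * (d + 1)) ^ d ∧ aeval l F ∈ PL w L := by
  set e := ((2 * w + 1) * (d + 1)) ^ d with he
  let K : ℕ := w * ((d + 1) * e)
  obtain ⟨hfin, hrank⟩ := finrank_Lau d K
  -- the monomials
  let mon : (Fin (d + 1) → Fin (e + 1)) → (Fin (d + 1) →₀ ℕ) :=
    fun a => Finsupp.equivFunOnFinite.symm fun i => (a i : ℕ)
  have hmon : Function.Injective mon := by
    intro a b hab
    funext i
    have := DFunLike.congr_fun hab i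
    exact Fin.ext (by simpa [mon] using this)
  have hdeg : ∀ a, ((mon a).sum fun _ n => n) ≤ (d + 1) * e := by
    intro a
    rw [Finsupp.sum_fintype _ _ (fun _ => rfl)]
    calc ∑ i : Fin (d + 1), mon a i ≤ ∑ _i : Fin (d + 1), e :=
          Finset.sum_le_sum fun i _ => Nat.lt_succ_iff.1 (a i).2
      _ = (d + 1) * e := by simp
  have hval : ∀ a, Ph w L (aeval l (monomial (mon a) (1 : ℂ))) ∈ Lau d (fun _ => K) := by
    intro a
    subst hd
    refine Ph_mem w L _ ((L.length + 1) * e) ?_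
    rw [aeval_monomial, map_one, one_mul, Finsupp.prod_fintype _ _ (fun _ => pow_zero _)]
    refine (totalDegree_finsetProd _ _).trans ?_
    calc ∑ i : Fin (L.length + 1), (l i ^ mon a i).totalDegree ≤ ∑ _i : Fin (L.length + 1), e := by
          refine Finset.sum_le_sum fun i _ => (totalDegree_pow _ _).trans ?_
          have h1 : (l i).totalDegree ≤ 1 := (hl i).totalDegree_le
          have h2 : mon a i ≤ e := Nat.lt_succ_iff.1 (a i).2
          calc mon a i * (l i).totalDegree ≤ e * 1 := Nat.mul_le_mul h2 h1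
            _ = e := mul_one e
      _ = (L.length + 1) * e := by simp
  let v : (Fin (d + 1) → Fin (e + 1)) → Lau d (fun _ => K) := fun a => ⟨_, hval a⟩
  let Φ : ((Fin (d + 1) → Fin (e + 1)) → ℂ) →ₗ[ℂ] Lau d (fun _ => K) :=
    Fintype.linearCombination ℂ v
  have hker : LinearMap.ker Φ ≠ ⊥ := by
    refine LinearMap.ker_ne_bot_of_finrank_lt ?_
    rw [Module.finrank_fintype_fun_eq_card, Fintype.card_fun, Fintype.card_fin,
      Fintype.card_fin]
    exact hrank.trans_lt (count_ineq w d)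
  obtain ⟨c, hc, hc0⟩ := Submodule.exists_mem_ne_zero_of_ne_bot hker
  refine ⟨∑ a, monomial (mon a) (c a), ?_, ?_, ?_⟩
  · intro h
    refine hc0 (funext fun a => ?_)
    have h1 := congrArg (coeff (mon a)) h
    rw [coeff_sum, coeff_zero, Finset.sum_eq_single a] at h1
    · simpa using h1
    · intro b _ hb
      rw [coeff_monomial, if_neg fun h => hb (hmon h)]
    · simp
  · refine (totalDegree_finsetSum _ _).trans (Finset.sup_le fun a _ => ?_)
    exact (totalDegree_monomial_le _ _).trans (hdeg a)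
  · rw [mem_PL', map_sum, map_sum]
    have h1 : (Φ c : (ℕ → ℂˣ) → ℂ) = 0 := by
      rw [LinearMap.mem_ker.1 hc]
      rfl
    rw [Fintype.linearCombination_apply] at h1
    simp only [Submodule.coe_sum, Submodule.coe_smul, v] at h1
    rw [← h1]
    refine Finset.sum_congr rfl fun a _ => ?_
    rw [← map_smul, ← map_smul, smul_monomial, smul_eq_mul, mul_one]

theorem greedy (w : ℕ) (T : Set (ℤ → Matrix B B ℂ)) (hT : ∀ e ∈ T, curve w e 1 = 1) :
    (vanI (gen w T : Set (Matrix B B ℂ))).IsPrime ∧ ∃ d ≤ Fintype.card B ^ 2,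
      (∃ y : Fin d → MvPolynomial (B × B) ℂ, AlgebraicIndependent ℂ
        (fun i => Ideal.Quotient.mk (vanI (gen w T : Set (Matrix B B ℂ))) (y i))) ∧
      ∀ l : Fin (d + 1) → MvPolynomial (B × B) ℂ, (∀ i, (l i).IsHomogeneous 1) →
        ∃ F : MvPolynomial (Fin (d + 1)) ℂ, F ≠ 0 ∧
          F.totalDegree ≤ (d + 1) * ((2 * w + 1) * (d + 1)) ^ d ∧
          aeval l F ∈ vanI (gen w T : Set (Matrix B B ℂ)) := by
  obtain ⟨L, hL, hi, hmax⟩ := exists_max w T
  rw [PL_eq_vanI w T hT L hL hi hmax]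
  exact ⟨PL_prime w L, L.length, indep_le w L hi, hi, fun l hl => counting w L _ rfl l hl⟩

end Pool.Agent.R914.UN
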