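import Pool.Agent.R914.UN.Fun

/-!
# Translations and the zeros of the kernel of the Haar functional
-/

set_option linter.unusedSectionVars false
set_option linter.unusedSimpArgs false

namespace Pool.Agent.R914.UN
open MvPolynomial Matrix

variable {B : Type} [Fintype B] [DecidableEq B]

lemma ev_X (g : Matrix B B ℂ) (q : B × B) : ev g (X q) = g q.1 q.2 := eval_X q

lemma ev_C (g : Matrix B B ℂ) (c : ℂ) : ev g (C c) = c := eval_C c

/-- The left translation. -/
noncomputable def lt (g : Matrix B B ℂ) :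
    MvPolynomial (B × B) ℂ →ₐ[ℂ] MvPolynomial (B × B) ℂ :=
  aeval fun q => ∑ k, C (g q.1 k) * X (k, q.2)

lemma lt_X (g : Matrix B B ℂ) (q : B × B) : lt g (X q) = ∑ k, C (g q.1 k) * X (k, q.2) :=
  aeval_X _ _

lemma lt_C (g : Matrix B B ℂ) (c : ℂ) : lt g (C c) = C c := by
  rw [lt, aeval_C]; rfl

lemma ev_lt (g h : Matrix B B ℂ) (p : MvPolynomial (B × B) ℂ) :
    ev h (lt g p) = ev (g * h) p := by
  induction p using MvPolynomial.induction_on with
  | C c => rw [lt_C, ev_C, ev_C]
  | add p q hp hq => rw [map_add, map_add, map_add, hp, hq]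
  | mul_X p q hp =>
    rw [map_mul, map_mul, map_mul, hp, lt_X, ev_X, map_sum, Matrix.mul_apply]
    congr 1
    refine Finset.sum_congr rfl fun k _ => ?_
    rw [map_mul, ev_C, ev_X]

lemma lt_lt (g h : Matrix B B ℂ) (p : MvPolynomial (B × B) ℂ) :
    lt g (lt h p) = lt (h * g) p := by
  induction p using MvPolynomial.induction_on with
  | C c => rw [lt_C, lt_C, lt_C]
  | add p q hp hq => rw [map_add, map_add, map_add, hp, hq]
  | mul_X p q hp =>
    rw [map_mul, map_mul, map_mul, hp, lt_X, lt_X, map_sum]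
    congr 1
    have h1 : ∀ k, lt g (C (h q.1 k) * X (k, q.2)) =
        ∑ l, C (h q.1 k) * (C (g k l) * X (l, q.2)) := by
      intro k
      rw [map_mul, lt_C, lt_X, Finset.mul_sum]
    simp only [h1]
    rw [Finset.sum_comm]
    refine Finset.sum_congr rfl fun l _ => ?_
    rw [Matrix.mul_apply, map_sum, Finset.sum_mul]
    refine Finset.sum_congr rfl fun k _ => ?_
    rw [map_mul]
    ring

lemma lt_one (p : MvPolynomial (B × B) ℂ) : lt (1 : Matrix B B ℂ) p = p := by
  induction p using MvPolynomial.induction_on with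
  | C c => rw [lt_C]
  | add p q hp hq => rw [map_add, hp, hq]
  | mul_X p q hp =>
    rw [map_mul, hp, lt_X]
    congr 1
    rw [Finset.sum_eq_single q.1]
    · rw [Matrix.one_apply_eq, C_1, one_mul]
    · intro k _ hk
      rw [Matrix.one_apply_ne (Ne.symm hk), C_0, zero_mul]
    · intro h; exact absurd (Finset.mem_univ _) h

lemma lt_xm {ι : Type} [Fintype ι] [DecidableEq ι] (g : Matrix B B ℂ) (I J : ι → B) :
    lt g (xm I J) = ∑ K, C (tp ι g I K) * xm K J := by
  rw [xm, map_prod]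
  simp only [lt_X]
  rw [Finset.prod_univ_sum, Fintype.piFinset_univ]
  refine Finset.sum_congr rfl fun K _ => ?_
  rw [Finset.prod_mul_distrib, tp_apply, map_prod]
  rfl

lemma lt_totalDegree (g : Matrix B B ℂ) (q : B × B) : (lt g (X q)).IsHomogeneous 1 := by
  rw [lt_X]
  refine IsHomogeneous.sum _ _ _ fun k _ => ?_
  have h1 := (isHomogeneous_C (B × B) (g q.1 k)).mul (isHomogeneous_X ℂ (k, q.2))
  rwa [zero_add] at h1

namespace TSys

variable (S : TSys B) {ι ι' κ : Type} [Fintype ι] [DecidableEq ι] [Fintype κ] [DecidableEq κ]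
  [Fintype ι'] [DecidableEq ι']

lemma mu_lt {g : Matrix B B ℂ} (hg : S.Fixes g) (p : MvPolynomial (B × B) ℂ) :
    S.mu (lt g p) = S.mu p := by
  induction p using poly_ind with
  | hx n I J =>
    rw [lt_xm, map_sum]
    simp only [mu_C_mul, S.mu_xm]
    have h1 := congrFun (hg (Fin n) _ ((S.isProj (Fin n)).mem (Pi.single J 1))) I
    rw [mulVec_single_one] at h1
    exact h1
  | h0 => rw [map_zero]
  | ha f g hf hg => rw [map_add, map_add, map_add, hf, hg]
  | hc c f hf => rw [map_mul, lt_C, mu_C_mul, mu_C_mul, hf]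

/-- The system contains a nondegenerate tensor of order two. -/
def HasForm : Prop :=
  ∃ J : Matrix B B ℂ, IsUnit J.det ∧ (fun w : Fin 2 → B => J (w 0) (w 1)) ∈ S.A (Fin 2)

variable {S}

lemma Fixes.isUnit (hS : S.HasForm) {g : Matrix B B ℂ} (hg : S.Fixes g) : IsUnit g.det := by
  obtain ⟨J, hJ, hJA⟩ := hS
  have h1 := hg (Fin 2) _ hJA
  have h2 : g * J * gᵀ = J := by
    ext a b
    have h3 := congrFun h1 ![a, b]
    rw [mulVec, dotProduct] at h3
    simp only [Matrix.cons_val_zero, Matrix.cons_val_one] at h3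
    rw [← h3, ← (finTwoArrowEquiv B).symm.sum_comp, Fintype.sum_prod_type, Matrix.mul_apply]
    simp only [Matrix.mul_apply, transpose_apply, Finset.sum_mul]
    rw [Finset.sum_comm]
    refine Finset.sum_congr rfl fun x _ => Finset.sum_congr rfl fun y _ => ?_
    rw [tp_apply, Fin.prod_univ_two]
    simp [finTwoArrowEquiv]
    ring
  have h3 := congrArg det h2
  rw [det_mul, det_mul, det_transpose] at h3
  rw [isUnit_iff_ne_zero]
  intro h4
  rw [h4, zero_mul, zero_mul] at h3
  exact hJ.ne_zero h3.symm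

lemma Fixes.one : S.Fixes 1 := by
  intro ι _ _ v _
  rw [tp_one, one_mulVec]

lemma Fixes.mul {g h : Matrix B B ℂ} (hg : S.Fixes g) (hh : S.Fixes h) : S.Fixes (g * h) := by
  intro ι _ _ v hv
  rw [tp_mul, ← mulVec_mulVec, hh ι v hv, hg ι v hv]

lemma Fixes.inv (hS : S.HasForm) {g : Matrix B B ℂ} (hg : S.Fixes g) : S.Fixes g⁻¹ := by
  intro ι _ _ v hv
  have h1 : tp ι g⁻¹ *ᵥ (tp ι g *ᵥ v) = v := by
    rw [mulVec_mulVec, ← tp_mul, nonsing_inv_mul _ (hg.isUnit hS), tp_one, one_mulVec]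
  rwa [hg ι v hv] at h1

lemma lt_mem_ker (hS : S.HasForm) {g : Matrix B B ℂ} (hg : S.Fixes g)
    {p : MvPolynomial (B × B) ℂ} (hp : p ∈ S.ker) : lt g p ∈ S.ker := by
  intro q
  have h1 : lt g p * q = lt g (p * lt g⁻¹ q) := by
    rw [map_mul, lt_lt, nonsing_inv_mul _ (hg.isUnit hS), lt_one]
  rw [h1, S.mu_lt hg]
  exact hp _

/-- The identity is a zero of the ideal. -/
lemma one_zero (hS : S.HasForm) {p : MvPolynomial (B × B) ℂ} (hp : p ∈ S.ker) :
    ev 1 p = 0 := by
  obtain ⟨x, hx⟩ : ∃ x : B × B → ℂ, x ∈ zeroLocus ℂ S.ker := by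
    by_contra hcon
    have h1 : zeroLocus ℂ S.ker = ∅ := Set.eq_empty_of_forall_notMem fun x hx => hcon ⟨x, hx⟩
    have h2 := vanishingIdeal_zeroLocus_eq_radical (k := ℂ) (K := ℂ) S.ker
    rw [h1, vanishingIdeal_empty] at h2
    exact S.ker_ne_top ((Ideal.radical_eq_top).1 h2.symm)
  set g : Matrix B B ℂ := Matrix.of fun i j => x (i, j) with hg
  have hev : ∀ q ∈ S.ker, ev g q = 0 := by
    intro q hq
    have h1 := (mem_zeroLocus_iff).1 hx q hq
    rw [ev]
    rw [aeval_eq_eval] at h1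
    exact h1
  have hfix := S.fixes_of_zero hev
  have h1 := hev _ (lt_mem_ker hS (hfix.inv hS) hp)
  rwa [ev_lt, nonsing_inv_mul _ (hfix.isUnit hS)] at h1

/-- The zeros of the ideal are the matrices which fix the system. -/
lemma zero_of_fixes (hS : S.HasForm) {g : Matrix B B ℂ} (hg : S.Fixes g)
    {p : MvPolynomial (B × B) ℂ} (hp : p ∈ S.ker) : ev g p = 0 := by
  have h1 := one_zero hS (lt_mem_ker hS hg hp)
  rwa [ev_lt, mul_one] at h1

end TSys

end Pool.Agent.R914.UN
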