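import Pool.Agent.R914.UN.Ide
import Pool.Agent.R914.UN.Dc

/-!
# Polynomials of low degree which vanish on the group
-/

set_option linter.unusedSectionVars false
set_option linter.unusedSimpArgs false

namespace Pool.Agent.R914.UN
open MvPolynomial Matrix

variable {B : Type} [Fintype B] [DecidableEq B]

lemma xm_homog {ι : Type} [Fintype ι] (I J : ι → B) :
    (xm I J).IsHomogeneous (Fintype.card ι) := by
  have h1 := IsHomogeneous.prod (R := ℂ) Finset.univ (fun i : ι => (X (I i, J i) :
    MvPolynomial (B × B) ℂ)) (fun _ => 1) fun i _ => isHomogeneous_X ℂ _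
  rw [Finset.sum_const, smul_eq_mul, mul_one, Finset.card_univ] at h1
  exact h1

lemma exists_words' (s : B × B →₀ ℕ) : ∃ (n : ℕ) (I J : Fin n → B),
    monomial s (1 : ℂ) = xm I J := by
  classical
  induction s using Finsupp.induction with
  | zero => exact ⟨0, Fin.elim0, Fin.elim0, by rw [xm]; simp⟩
  | single_add a b f _ _ ih =>
    obtain ⟨n, I, J, h⟩ := ih
    clear * - h
    induction b with
    | zero => exact ⟨n, I, J, by rw [Finsupp.single_zero, zero_add, h]⟩
    | succ b ih =>
      obtain ⟨m, I', J', h'⟩ := ih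
      refine ⟨m + 1, Fin.cons a.1 I', Fin.cons a.2 J', ?_⟩
      rw [xm, Fin.prod_univ_succ]
      simp only [Fin.cons_zero, Fin.cons_succ]
      have h2 : (∏ i, X (I' i, J' i) : MvPolynomial (B × B) ℂ) = xm I' J' := rfl
      rw [h2, ← h', add_comm b 1, Finsupp.single_add, add_assoc, X, monomial_mul, one_mul]

lemma exists_words (s : B × B →₀ ℕ) : ∃ I J : Fin s.degree → B,
    monomial s (1 : ℂ) = xm I J := by
  obtain ⟨n, I, J, h⟩ := exists_words' s
  have h1 : (monomial s (1 : ℂ)).IsHomogeneous s.degree := isHomogeneous_monomial _ rfl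
  have h2 : (monomial s (1 : ℂ)).IsHomogeneous n := by
    rw [h]
    have := xm_homog I J
    rwa [Fintype.card_fin] at this
  have h3 : s.degree = n := h1.inj_right h2 (by rw [Ne, monomial_eq_zero]; exact one_ne_zero)
  rw [h3]
  exact ⟨I, J, h⟩

/-- Pairs of words of length at most `D`. -/
abbrev Wd (B : Type) (D : ℕ) : Type := Σ n : Fin (D + 1), (Fin n → B)

/-- The coefficients of a polynomial of degree at most `D`. -/
def Low (D : ℕ) (p : MvPolynomial (B × B) ℂ) : Prop :=
  ∃ β : ∀ n : Fin (D + 1), Matrix (Fin n → B) (Fin n → B) ℂ,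
    p = ∑ n, ∑ I, ∑ J, C (β n I J) * xm I J

lemma Low.zero (D : ℕ) : Low D (0 : MvPolynomial (B × B) ℂ) :=
  ⟨fun _ => 0, by simp⟩

lemma Low.add {D : ℕ} {p q : MvPolynomial (B × B) ℂ} (hp : Low D p) (hq : Low D q) :
    Low D (p + q) := by
  obtain ⟨β, rfl⟩ := hp
  obtain ⟨γ, rfl⟩ := hq
  refine ⟨fun n => β n + γ n, ?_⟩
  simp only [Matrix.add_apply, map_add, add_mul, Finset.sum_add_distrib]

lemma low_xm {D n : ℕ} (hn : n ≤ D) (c : ℂ) (I J : Fin n → B) : Low D (C c * xm I J) := by
  classical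
  let n' : Fin (D + 1) := ⟨n, Nat.lt_succ_of_le hn⟩
  refine ⟨Function.update (fun _ => 0) n' (Matrix.of fun K L => if K = I ∧ L = J then c else 0), ?_⟩
  rw [Finset.sum_eq_single n']
  · rw [Function.update_self, Finset.sum_eq_single I, Finset.sum_eq_single J]
    · simp
    · intro L _ hL
      simp [hL]
    · intro h; exact absurd (Finset.mem_univ _) h
    · intro K _ hK
      refine Finset.sum_eq_zero fun L _ => ?_
      simp [hK]
    · intro h; exact absurd (Finset.mem_univ _) h
  · intro m _ hm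
    refine Finset.sum_eq_zero fun K _ => Finset.sum_eq_zero fun L _ => ?_
    rw [Function.update_of_ne hm]
    simp
  · intro h; exact absurd (Finset.mem_univ _) h

lemma low_of_totalDegree {D : ℕ} {p : MvPolynomial (B × B) ℂ} (hp : p.totalDegree ≤ D) :
    Low D p := by
  classical
  have h1 : ∀ s ∈ p.support, Low D (monomial s (coeff s p)) := by
    intro s hs
    obtain ⟨I, J, h⟩ := exists_words s
    have h2 : monomial s (coeff s p) = C (coeff s p) * monomial s 1 := by
      rw [C_mul_monomial, mul_one]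
    rw [h2, h]
    refine low_xm ?_ _ _ _
    exact (le_totalDegree hs).trans hp
  have h2 : ∀ t : Finset (B × B →₀ ℕ), t ⊆ p.support →
      Low D (∑ s ∈ t, monomial s (coeff s p)) := by
    intro t
    induction t using Finset.induction_on with
    | empty => intro _; rw [Finset.sum_empty]; exact Low.zero D
    | insert a t ha ih =>
      intro h
      rw [Finset.sum_insert ha]
      exact (h1 a (h (Finset.mem_insert_self _ _))).add
        (ih fun x hx => h (Finset.mem_insert_of_mem hx))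
  rw [p.as_sum]
  exact h2 _ subset_rfl

/-- The action on the words of length at most `D`. -/
def bd (D : ℕ) : Matrix B B ℂ →* Matrix (Wd B D) (Wd B D) ℂ where
  toFun g := blockDiagonal' fun n : Fin (D + 1) => tp (Fin n) g
  map_one' := by
    rw [← blockDiagonal'_one]
    congr 1
    funext n
    exact tp_one _
  map_mul' g h := by
    rw [← blockDiagonal'_mul]
    congr 1
    funext n
    exact tp_mul _ g h

lemma bd_apply (D : ℕ) (g : Matrix B B ℂ) :
    bd D g = blockDiagonal' fun n : Fin (D + 1) => tp (Fin n) g := rfl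

lemma bd_mul_apply {D : ℕ} (F : ∀ n : Fin (D + 1), Matrix (Fin n → B) (Fin n → B) ℂ)
    (M : Matrix (Wd B D) (Wd B D) ℂ) (n : Fin (D + 1)) (I : Fin n → B) (y : Wd B D) :
    (blockDiagonal' F * M) ⟨n, I⟩ y = ∑ K, F n I K * M ⟨n, K⟩ y := by
  rw [Matrix.mul_apply, Fintype.sum_sigma, Finset.sum_eq_single n]
  · exact Finset.sum_congr rfl fun K _ => by rw [blockDiagonal'_apply_eq]
  · intro m _ hm
    refine Finset.sum_eq_zero fun K _ => ?_
    rw [blockDiagonal'_apply_ne _ _ _ (Ne.symm hm), zero_mul]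
  · intro h; exact absurd (Finset.mem_univ _) h

lemma mul_bd_apply {D : ℕ} (F : ∀ n : Fin (D + 1), Matrix (Fin n → B) (Fin n → B) ℂ)
    (M : Matrix (Wd B D) (Wd B D) ℂ) (x : Wd B D) (n : Fin (D + 1)) (J : Fin n → B) :
    (M * blockDiagonal' F) x ⟨n, J⟩ = ∑ K, M x ⟨n, K⟩ * F n K J := by
  rw [Matrix.mul_apply, Fintype.sum_sigma, Finset.sum_eq_single n]
  · exact Finset.sum_congr rfl fun K _ => by rw [blockDiagonal'_apply_eq]
  · intro m _ hm
    refine Finset.sum_eq_zero fun K _ => ?_
    rw [blockDiagonal'_apply_ne _ _ _ hm, mul_zero]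
  · intro h; exact absurd (Finset.mem_univ _) h

/-- The matrices of size `n × m` which commute with the group. -/
def Comm (G : Submonoid (Matrix B B ℂ)) {ι' ι : Type} [Fintype ι] [DecidableEq ι] [Fintype ι']
    [DecidableEq ι'] (M : Matrix (ι' → B) (ι → B) ℂ) : Prop :=
  ∀ g ∈ G, tp ι' g * M = M * tp ι g

lemma Comm.conj {G : Submonoid (Matrix B B ℂ)} (hG : ∀ g ∈ G, gᴴ ∈ G) {ι' ι : Type} [Fintype ι]
    [DecidableEq ι] [Fintype ι'] [DecidableEq ι'] {M : Matrix (ι' → B) (ι → B) ℂ}
    (hM : Comm G M) : Comm G Mᴴ := by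
  intro g hg
  have h1 := congrArg conjTranspose (hM gᴴ (hG g hg))
  rw [conjTranspose_mul, conjTranspose_mul, ← tp_conjTranspose, ← tp_conjTranspose,
    conjTranspose_conjTranspose] at h1
  exact h1.symm

/-- **Polynomials of low degree which vanish on the group belong to the kernel.** -/
theorem low_mem_ker (S : TSys B) {G : Submonoid (Matrix B B ℂ)} (hG : ∀ g ∈ G, gᴴ ∈ G) {D : ℕ}
    (hop : ∀ n m : ℕ, n ≤ D → m ≤ D → ∀ M : Matrix (Fin n → B) (Fin m → B) ℂ, Comm G M →
      S.Pres M) {p : MvPolynomial (B × B) ℂ} (hp : p ∈ vanI (G : Set (Matrix B B ℂ)))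
    (hD : p.totalDegree ≤ D) : p ∈ S.ker := by
  classical
  obtain ⟨β, hβ⟩ := low_of_totalDegree hD
  apply S.mem_ker_of_xm
  intro k s t
  let F : ∀ n : Fin (D + 1), Matrix (Fin n → B) (Fin n → B) ℂ := fun n =>
    Matrix.of fun I J => S.R (Fin n ⊕ Fin k) (Sum.elim I s) (Sum.elim J t)
  let Λ : Matrix (Wd B D) (Wd B D) ℂ →ₗ[ℂ] ℂ :=
    { toFun := fun Z => ∑ n : Fin (D + 1), ∑ I : Fin n → B, ∑ J : Fin n → B,
        β n I J * Z ⟨n, I⟩ ⟨n, J⟩
      map_add' := fun Z Z' => by
        simp only [Matrix.add_apply, mul_add, Finset.sum_add_distrib]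
      map_smul' := fun c Z => by
        simp only [Matrix.smul_apply, smul_eq_mul, RingHom.id_apply, Finset.mul_sum]
        refine Finset.sum_congr rfl fun n _ => Finset.sum_congr rfl fun I _ =>
          Finset.sum_congr rfl fun J _ => by ring }
  have hΛ : ∀ Z : Matrix (Wd B D) (Wd B D) ℂ, Λ Z = ∑ n : Fin (D + 1), ∑ I : Fin n → B,
      ∑ J : Fin n → B, β n I J * Z ⟨n, I⟩ ⟨n, J⟩ := fun Z => rfl
  have h1 : blockDiagonal' F ∈ Submodule.span ℂ
      ((G.map (bd D) : Submonoid (Matrix (Wd B D) (Wd B D) ℂ)) :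
        Set (Matrix (Wd B D) (Wd B D) ℂ)) := by
    apply double_commutant
    · rintro _ ⟨g, hg, rfl⟩
      refine ⟨gᴴ, hG g hg, ?_⟩
      rw [bd_apply, bd_apply, blockDiagonal'_conjTranspose]
      congr 1
      funext n
      exact tp_conjTranspose _ g
    · intro M hM
      have hb : ∀ n m : Fin (D + 1), Comm G
          (Matrix.of fun (I : Fin n → B) (J : Fin m → B) => M ⟨n, I⟩ ⟨m, J⟩) := by
        intro n m g hg
        ext I J
        have h2 := congrFun (congrFun (hM (bd D g) ⟨g, hg, rfl⟩) ⟨n, I⟩) ⟨m, J⟩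
        rw [bd_apply, bd_mul_apply, mul_bd_apply] at h2
        rw [Matrix.mul_apply, Matrix.mul_apply]
        exact h2
      ext ⟨n, I⟩ ⟨m, J⟩
      rw [bd_mul_apply, mul_bd_apply]
      have h3 := S.R_op_apply (κ := Fin k) (hop n m (Nat.le_of_lt_succ n.2)
        (Nat.le_of_lt_succ m.2) _ (hb n m)) (hop m n (Nat.le_of_lt_succ m.2)
        (Nat.le_of_lt_succ n.2) _ ((hb n m).conj hG)) I J s t
      exact h3
  have h2 : ∀ Z ∈ Submodule.span ℂ ((G.map (bd D) : Submonoid (Matrix (Wd B D) (Wd B D) ℂ)) :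
        Set (Matrix (Wd B D) (Wd B D) ℂ)), Λ Z = 0 := by
    intro Z hZ
    induction hZ using Submodule.span_induction with
    | mem x hx =>
      obtain ⟨g, hg, rfl⟩ := hx
      rw [hΛ]
      have h3 : ev g p = 0 := by
        have h4 := hp
        rw [vanI, Submodule.mem_iInf] at h4
        have h5 := h4 g
        rw [Submodule.mem_iInf] at h5
        exact h5 hg
      rw [hβ] at h3
      simp only [map_sum, map_mul, ev_C, ev_xm] at h3
      rw [← h3]
      refine Finset.sum_congr rfl fun n _ => Finset.sum_congr rfl fun I _ =>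
        Finset.sum_congr rfl fun J _ => ?_
      rw [bd_apply, blockDiagonal'_apply_eq]
    | zero => exact map_zero _
    | add x y _ _ hx hy => rw [map_add, hx, hy, add_zero]
    | smul c x _ hx => rw [map_smul, hx, smul_zero]
  have h3 := h2 _ h1
  rw [hΛ] at h3
  rw [hβ]
  simp only [Finset.sum_mul, map_sum]
  rw [← h3]
  refine Finset.sum_congr rfl fun n _ => Finset.sum_congr rfl fun I _ =>
    Finset.sum_congr rfl fun J _ => ?_
  rw [mul_assoc, S.mu_C_mul, xm_mul, S.mu_xm, blockDiagonal'_apply_eq]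
  rfl

end Pool.Agent.R914.UN
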