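import Mathlib

/-!
# A separation lemma for prime ideals of equal dimension (subtask R914-UN-A)

If two prime ideals `P`, `Q` of a polynomial ring have the same dimension bound `d`, if every
`d + 1` linear forms satisfy an algebraic relation of degree `≤ D` modulo `P`, and if every
polynomial of degree `≤ D` of `P` lies in `Q`, then `P ≤ Q`.
-/

open MvPolynomial

namespace Pool.Agent.R914.UN

/-- The linear form with coefficient vector `c`. -/
noncomputable def lf {K S : Type*} [Field K] [Fintype S] (c : S → K) : MvPolynomial S K :=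
  ∑ s, c s • (X s : MvPolynomial S K)

section lf

variable {K S : Type*} [Field K] [Fintype S]

lemma lf_isHomogeneous (c : S → K) : (lf c).IsHomogeneous 1 := by
  unfold lf
  apply IsHomogeneous.sum
  intro s _
  rw [MvPolynomial.smul_eq_C_mul]
  simpa using (isHomogeneous_C S (c s)).mul (isHomogeneous_X K s)

/-- The linear map to an algebra given by a vector of coefficients. -/
noncomputable def lfm {A : Type*} [CommRing A] [Algebra K A] (x : S → A) : (S → K) →ₗ[K] A :=
  ∑ s, (LinearMap.proj s : (S → K) →ₗ[K] K).smulRight (x s)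

lemma lfm_apply {A : Type*} [CommRing A] [Algebra K A] (x : S → A) (c : S → K) :
    lfm x c = ∑ s, c s • x s := by
  simp [lfm]

lemma lfm_single {A : Type*} [CommRing A] [Algebra K A] [DecidableEq S] (x : S → A) (s : S) :
    lfm (K := K) x (Pi.single s 1) = x s := by
  rw [lfm_apply, Finset.sum_eq_single s]
  · simp
  · intro t _ ht
    simp [Pi.single_eq_of_ne ht]
  · simp

lemma algHom_lf {A : Type*} [CommRing A] [Algebra K A] (f : MvPolynomial S K →ₐ[K] A)
    (c : S → K) : f (lf c) = lfm (fun s => f (X s)) c := by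
  simp [lf, lfm_apply]

end lf

/-- Two proper subspaces of a vector space do not cover it. -/
lemma exists_notMem_two {K V : Type*} [Field K] [AddCommGroup V] [Module K V]
    (E F : Submodule K V) (hE : E ≠ ⊤) (hF : F ≠ ⊤) : ∃ v, v ∉ E ∧ v ∉ F := by
  obtain ⟨u, hu⟩ : ∃ u, u ∉ E := by
    by_contra h
    push Not at h
    exact hE (eq_top_iff.2 fun v _ => h v)
  obtain ⟨w, hw⟩ : ∃ w, w ∉ F := by
    by_contra h
    push Not at h
    exact hF (eq_top_iff.2 fun v _ => h v)
  by_cases huF : u ∈ F
  · by_cases hwE : w ∈ E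
    · refine ⟨u + w, fun h => hu ?_, fun h => hw ?_⟩
      · simpa using E.sub_mem h hwE
      · simpa using F.sub_mem h huF
    · exact ⟨w, hwE, hw⟩
  · exact ⟨u, hu, huF⟩

section Extend

variable {K S : Type*} [Field K] [Fintype S]

/-- Extension of a family of algebraically independent elements, by a generic linear
combination of the generators. -/
lemma exists_submodule {A : Type*} [CommRing A] [IsDomain A] [Algebra K A]
    (π : MvPolynomial S K →ₐ[K] A) (hπ : Function.Surjective π) {k d : ℕ} (hkd : k < d)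
    (y : Fin k → A) (hy : AlgebraicIndependent K y)
    (hd : ∃ z : Fin d → A, AlgebraicIndependent K z) :
    ∃ E : Submodule K (S → K), E ≠ ⊤ ∧ ∀ c, c ∉ E →
      AlgebraicIndependent K (fun i : Fin (k + 1) => (Fin.cons (π (lf c)) y : Fin (k + 1) → A) i) := by
  classical
  have hdom : IsDomain (Algebra.adjoin K (Set.range y)) := inferInstance
  set R := Algebra.adjoin K (Set.range y) with hR
  let T : Subalgebra R A := Subalgebra.algebraicClosure R A
  let E : Submodule K (S → K) :=
    Submodule.comap (lfm (fun s => π (X s))) (Subalgebra.toSubmodule (T.restrictScalars K))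
  refine ⟨E, ?_, ?_⟩
  · intro hE
    have hall : ∀ s, π (X s) ∈ T := by
      intro s
      have : (Pi.single s 1 : S → K) ∈ E := by rw [hE]; trivial
      have h2 : lfm (K := K) (fun s => π (X s)) (Pi.single s 1) ∈ T := this
      rwa [lfm_single] at h2
    have htop : ∀ a : A, a ∈ T := by
      intro a
      obtain ⟨p, rfl⟩ := hπ a
      induction p using MvPolynomial.induction_on with
      | C c =>
        have : π (C c) = algebraMap R A (algebraMap K R c) := by
          rw [← IsScalarTower.algebraMap_apply]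
          exact AlgHom.commutes π c
        rw [this]
        exact T.algebraMap_mem _
      | add p q hp hq => rw [map_add]; exact T.add_mem hp hq
      | mul_X p s hp => rw [map_mul]; exact T.mul_mem hp (hall s)
    have halg : Algebra.IsAlgebraic R A := ⟨fun a => htop a⟩
    have h1 : Algebra.trdeg K A ≤ Cardinal.mk (Set.range y) :=
      Algebra.IsAlgebraic.trdeg_le_cardinalMk K (Set.range y)
    have h2 : Cardinal.mk (Set.range y) ≤ k := by
      calc Cardinal.mk (Set.range y) = Cardinal.mk (Set.range y) := rfl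
        _ ≤ k := by
          have := Cardinal.mk_range_le_lift (f := y)
          simpa using this
    obtain ⟨z, hz⟩ := hd
    have h3 := hz.lift_cardinalMk_le_trdeg
    have h4 : (d : Cardinal) ≤ Algebra.trdeg K A := by simpa using h3
    have h5 : (d : Cardinal) ≤ (k : Cardinal) := h4.trans (h1.trans h2)
    have h6 : d ≤ k := by exact_mod_cast h5
    omega
  · intro c hc
    have htr : Transcendental R (π (lf c)) := by
      intro halg
      apply hc
      change lfm (fun s => π (X s)) c ∈ T
      rw [← algHom_lf]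
      exact halg
    have h1 := (hy.option_iff_transcendental (π (lf c))).2 htr
    have h2 := h1.comp (finSuccEquiv k) (finSuccEquiv k).injective
    convert h2 using 1
    funext i
    refine Fin.cases ?_ (fun j => ?_) i
    · simp
    · simp

lemma exists_linear_forms (P Q : Ideal (MvPolynomial S K)) (hPp : P.IsPrime) (hQp : Q.IsPrime)
    (d : ℕ)
    (hP : ∃ y : Fin d → MvPolynomial S K, AlgebraicIndependent K (fun i => Ideal.Quotient.mk P (y i)))
    (hQ : ∃ y : Fin d → MvPolynomial S K, AlgebraicIndependent K (fun i => Ideal.Quotient.mk Q (y i))) :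
    ∀ k ≤ d, ∃ c : Fin k → (S → K),
      AlgebraicIndependent K (fun i => Ideal.Quotient.mkₐ K P (lf (c i))) ∧
      AlgebraicIndependent K (fun i => Ideal.Quotient.mkₐ K Q (lf (c i))) := by
  intro k
  induction k with
  | zero =>
    intro _
    refine ⟨fun i => i.elim0, ?_, ?_⟩
    · rw [algebraicIndependent_empty_type_iff]
      exact (algebraMap K (MvPolynomial S K ⧸ P)).injective
    · rw [algebraicIndependent_empty_type_iff]
      exact (algebraMap K (MvPolynomial S K ⧸ Q)).injective
  | succ k ih =>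
    intro hk
    obtain ⟨c, hcP, hcQ⟩ := ih (by omega)
    obtain ⟨E, hE, hE'⟩ := exists_submodule (Ideal.Quotient.mkₐ K P)
      (Ideal.Quotient.mkₐ_surjective K P) (show k < d by omega) _ hcP
      (by obtain ⟨y, hy⟩ := hP; exact ⟨_, hy⟩)
    obtain ⟨F, hF, hF'⟩ := exists_submodule (Ideal.Quotient.mkₐ K Q)
      (Ideal.Quotient.mkₐ_surjective K Q) (show k < d by omega) _ hcQ
      (by obtain ⟨y, hy⟩ := hQ; exact ⟨_, hy⟩)
    obtain ⟨v, hvE, hvF⟩ := exists_notMem_two E F hE hF
    refine ⟨Fin.cons v c, ?_, ?_⟩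
    · have h : (fun i => Ideal.Quotient.mkₐ K P (lf ((Fin.cons v c : Fin (k + 1) → (S → K)) i))) =
          (Fin.cons ((Ideal.Quotient.mkₐ K P) (lf v))
            (fun i => (Ideal.Quotient.mkₐ K P) (lf (c i))) : Fin (k + 1) → _) := by
        funext i
        refine Fin.cases ?_ (fun j => ?_) i <;> simp
      rw [h]
      exact hE' v hvE
    · have h : (fun i => Ideal.Quotient.mkₐ K Q (lf ((Fin.cons v c : Fin (k + 1) → (S → K)) i))) =
          (Fin.cons ((Ideal.Quotient.mkₐ K Q) (lf v))
            (fun i => (Ideal.Quotient.mkₐ K Q) (lf (c i))) : Fin (k + 1) → _) := by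
        funext i
        refine Fin.cases ?_ (fun j => ?_) i <;> simp
      rw [h]
      exact hF' v hvF

end Extend

section Embed

variable {K S : Type*} [Field K]

/-- The algebraic closure of the rational function field in `d` variables. -/
abbrev Om (K : Type*) [Field K] (d : ℕ) : Type _ :=
  AlgebraicClosure (FractionRing (MvPolynomial (Fin d) K))

lemma eval₂_finSuccEquiv {A : Type*} [CommRing A] [Algebra K A] {d : ℕ} (y : Fin d → A) (z : A)
    (F : MvPolynomial (Fin (d + 1)) K) :
    Polynomial.eval₂ (aeval y : MvPolynomial (Fin d) K →ₐ[K] A).toRingHom z (finSuccEquiv K d F) =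
      aeval (Fin.cons z y : Fin (d + 1) → A) F := by
  induction F using MvPolynomial.induction_on with
  | C c =>
    have : finSuccEquiv K d (C c) = Polynomial.C (C c) := by
      rw [← MvPolynomial.algebraMap_eq, AlgEquiv.commutes]
      rfl
    rw [this]
    simp
  | add p q hp hq => rw [map_add, Polynomial.eval₂_add, hp, hq, map_add]
  | mul_X p i hp =>
    rw [map_mul, Polynomial.eval₂_mul, hp, map_mul]
    congr 1
    refine Fin.cases ?_ (fun j => ?_) i
    · rw [finSuccEquiv_X_zero]; simp
    · rw [finSuccEquiv_X_succ]; simp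

lemma exists_embedding {A : Type*} [CommRing A] [IsDomain A] [Algebra K A]
    (π : MvPolynomial S K →ₐ[K] A) (hπ : Function.Surjective π) {d : ℕ}
    (y : Fin d → A) (hy : AlgebraicIndependent K y)
    (hx : ∀ s, ∃ F : MvPolynomial (Fin (d + 1)) K, F ≠ 0 ∧
      aeval (Fin.cons (π (X s)) y : Fin (d + 1) → A) F = 0) :
    ∃ φ : A →ₐ[K] Om K d, Function.Injective φ ∧
      ∀ i, φ (y i) = algebraMap (MvPolynomial (Fin d) K) (Om K d) (X i) := by
  let _ : Algebra (MvPolynomial (Fin d) K) A := (aeval y : MvPolynomial (Fin d) K →ₐ[K] A).toRingHom.toAlgebra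
  have hmap : ∀ p : MvPolynomial (Fin d) K, algebraMap (MvPolynomial (Fin d) K) A p = aeval y p :=
    fun p => rfl
  have : IsScalarTower K (MvPolynomial (Fin d) K) A := IsScalarTower.of_algebraMap_eq fun c => by
    rw [hmap, MvPolynomial.algebraMap_eq, aeval_C]
  have : FaithfulSMul (MvPolynomial (Fin d) K) A :=
    (faithfulSMul_iff_algebraMap_injective _ _).2 hy
  have : Module.IsTorsionFree (MvPolynomial (Fin d) K) A := inferInstance
  have halg : ∀ a : A, a ∈ Subalgebra.algebraicClosure (MvPolynomial (Fin d) K) A := by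
    intro a
    obtain ⟨p, rfl⟩ := hπ a
    induction p using MvPolynomial.induction_on with
    | C c =>
      have : π (C c) = algebraMap (MvPolynomial (Fin d) K) A (C c) := by
        rw [hmap, aeval_C]
        exact AlgHom.commutes π c
      rw [this]
      exact Subalgebra.algebraMap_mem _ _
    | add p q hp hq => rw [map_add]; exact Subalgebra.add_mem _ hp hq
    | mul_X p s hp =>
      rw [map_mul]
      refine Subalgebra.mul_mem _ hp ?_
      obtain ⟨F, hF0, hF⟩ := hx s
      refine ⟨finSuccEquiv K d F, ?_, ?_⟩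
      · simpa using hF0
      · rw [Polynomial.aeval_def]
        have := eval₂_finSuccEquiv y (π (X s)) F
        rw [hF] at this
        exact this
  have : Algebra.IsAlgebraic (MvPolynomial (Fin d) K) A := ⟨fun a => halg a⟩
  have : Module.IsTorsionFree (MvPolynomial (Fin d) K) (Om K d) := by
    have : FaithfulSMul (MvPolynomial (Fin d) K) (Om K d) := by
      rw [faithfulSMul_iff_algebraMap_injective,
        IsScalarTower.algebraMap_eq (MvPolynomial (Fin d) K)
          (FractionRing (MvPolynomial (Fin d) K)) (Om K d)]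
      exact (algebraMap (FractionRing (MvPolynomial (Fin d) K)) (Om K d)).injective.comp
        (IsFractionRing.injective (MvPolynomial (Fin d) K)
          (FractionRing (MvPolynomial (Fin d) K)))
    infer_instance
  let φ : A →ₐ[MvPolynomial (Fin d) K] Om K d := IsAlgClosed.lift
  refine ⟨φ.restrictScalars K, ?_, ?_⟩
  · change Function.Injective φ
    rw [injective_iff_map_eq_zero]
    intro a ha
    by_contra ha0
    have h1 := Ideal.comap_ne_bot_of_algebraic_mem (R := MvPolynomial (Fin d) K)
      (I := RingHom.ker φ.toRingHom) ha0 ha (halg a)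
    apply h1
    rw [eq_bot_iff]
    intro r hr
    have h2 : φ (algebraMap (MvPolynomial (Fin d) K) A r) = 0 := hr
    rw [AlgHom.commutes] at h2
    exact (FaithfulSMul.algebraMap_injective (MvPolynomial (Fin d) K) (Om K d))
      (by rw [h2, map_zero])
  · intro i
    have : y i = algebraMap (MvPolynomial (Fin d) K) A (X i) := by rw [hmap]; simp
    change φ (y i) = _
    rw [this, AlgHom.commutes]

end Embed

section Conj

variable {K S : Type*} [Field K] [Fintype S]

/-- A nonzero polynomial of minimal degree satisfying a prime-like condition is irreducible. -/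
lemma exists_irreducible {A : Type*} [CommRing A] [IsDomain A] [Algebra K A] {n D : ℕ}
    (x : Fin n → A) (h : ∃ F : MvPolynomial (Fin n) K, F ≠ 0 ∧ F.totalDegree ≤ D ∧
      aeval x F = 0) :
    ∃ F : MvPolynomial (Fin n) K, Irreducible F ∧ F.totalDegree ≤ D ∧ aeval x F = 0 := by
  classical
  have hex : ∃ m : ℕ, ∃ F : MvPolynomial (Fin n) K, F ≠ 0 ∧ F.totalDegree = m ∧ aeval x F = 0 := by
    obtain ⟨F, h1, _, h3⟩ := h
    exact ⟨_, F, h1, rfl, h3⟩
  obtain ⟨F, hF0, hFm, hF⟩ := Nat.find_spec hex
  set m := Nat.find hex with hm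
  have hmin : ∀ G : MvPolynomial (Fin n) K, G ≠ 0 → aeval x G = 0 → m ≤ G.totalDegree :=
    fun G h1 h2 => Nat.find_min' hex ⟨G, h1, rfl, h2⟩
  obtain ⟨F₁, h11, h12, h13⟩ := h
  refine ⟨F, ⟨?_, ?_⟩, ?_, hF⟩
  · intro hu
    have h1 : IsUnit (aeval x F : A) := hu.map (aeval x : MvPolynomial (Fin n) K →ₐ[K] A)
    rw [hF] at h1
    exact not_isUnit_zero h1
  · intro G H hGH
    have hG0 : G ≠ 0 := by rintro rfl; exact hF0 (by rw [hGH, zero_mul])
    have hH0 : H ≠ 0 := by rintro rfl; exact hF0 (by rw [hGH, mul_zero])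
    have hdeg : F.totalDegree = G.totalDegree + H.totalDegree := by
      rw [hGH, totalDegree_mul_of_isDomain hG0 hH0]
    have hunit : ∀ L : MvPolynomial (Fin n) K, L ≠ 0 → L.totalDegree = 0 → IsUnit L := by
      intro L hL0 hL
      rw [totalDegree_eq_zero_iff_eq_C] at hL
      rw [hL]
      have : L.coeff 0 ≠ 0 := by
        intro h0
        rw [h0, C_0] at hL
        exact hL0 hL
      exact (IsUnit.mk0 _ this).map C
    rw [hGH, map_mul, mul_eq_zero] at hF
    rcases hF with h0 | h0
    · right
      have := hmin G hG0 h0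
      exact hunit H hH0 (by omega)
    · left
      have := hmin H hH0 h0
      exact hunit G hG0 (by omega)
  · have := hmin F₁ h11 h13
    omega

/-- The minimal polynomial of `a z` is determined by an irreducible relation. -/
lemma minpoly_eq {A : Type*} [CommRing A] [IsDomain A] [Algebra K A] {d : ℕ}
    (y : Fin d → A) (hy : AlgebraicIndependent K y) (z : A)
    (φ : A →ₐ[K] Om K d)
    (hφ : ∀ i, φ (y i) = algebraMap (MvPolynomial (Fin d) K) (Om K d) (X i))
    (F : MvPolynomial (Fin (d + 1)) K) (hF : Irreducible F)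
    (hFz : aeval (Fin.cons z y : Fin (d + 1) → A) F = 0) :
    minpoly (FractionRing (MvPolynomial (Fin d) K)) (φ z) =
      (((finSuccEquiv K d F).map (algebraMap (MvPolynomial (Fin d) K)
        (FractionRing (MvPolynomial (Fin d) K)))) * Polynomial.C
          (((finSuccEquiv K d F).map (algebraMap (MvPolynomial (Fin d) K)
        (FractionRing (MvPolynomial (Fin d) K)))).leadingCoeff⁻¹)) := by
  set k0 := FractionRing (MvPolynomial (Fin d) K) with hk0
  set G := finSuccEquiv K d F with hG
  have hGirr : Irreducible G := (MulEquiv.irreducible_iff (finSuccEquiv K d).toMulEquiv).2 hF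
  have hnat : G.natDegree ≠ 0 := by
    intro h0
    rw [Polynomial.natDegree_eq_zero] at h0
    obtain ⟨g, hg⟩ := h0
    have h1 := eval₂_finSuccEquiv y z F
    rw [hFz, ← hG, ← hg, Polynomial.eval₂_C] at h1
    have h2 : g = 0 := hy (by rw [map_zero]; exact h1)
    rw [h2, Polynomial.C_0] at hg
    exact hGirr.ne_zero hg.symm
  have hprim : G.IsPrimitive := hGirr.isPrimitive hnat
  have hGk : Irreducible (G.map (algebraMap (MvPolynomial (Fin d) K) k0)) :=
    (hprim.irreducible_iff_irreducible_map_fraction_map (K := k0)).1 hGirr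
  have hroot : Polynomial.aeval (φ z) (G.map (algebraMap (MvPolynomial (Fin d) K) k0)) = 0 := by
    rw [Polynomial.aeval_map_algebraMap, Polynomial.aeval_def]
    have h1 := eval₂_finSuccEquiv y z F
    rw [hFz] at h1
    have h2 : algebraMap (MvPolynomial (Fin d) K) (Om K d) =
        φ.toRingHom.comp (aeval y : MvPolynomial (Fin d) K →ₐ[K] A).toRingHom := by
      apply MvPolynomial.ringHom_ext
      · intro c
        have : (C c : MvPolynomial (Fin d) K) = algebraMap K _ c := rfl
        rw [this, ← IsScalarTower.algebraMap_apply]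
        simp
      · intro i
        rw [← hφ i]
        simp
    rw [h2]
    refine (Polynomial.hom_eval₂ G (aeval y : MvPolynomial (Fin d) K →ₐ[K] A).toRingHom
      φ.toRingHom z).symm.trans ?_
    rw [hG, h1, map_zero]
  exact (minpoly.eq_of_irreducible hGk hroot).symm

/-- If two vectors `x`, `x'` over a normal extension have conjugate linear combinations, they are
conjugate. -/
lemma exists_conj {k0 Ω : Type*} [Field k0] [Field Ω] [Algebra k0 Ω] [Algebra K k0] [Algebra K Ω]
    [IsScalarTower K k0 Ω] [Normal k0 Ω] [Infinite K]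
    (x x' : S → Ω)
    (h : ∀ c : S → K, minpoly k0 (lfm x c) = minpoly k0 (lfm x' c)) :
    ∃ σ : Ω ≃ₐ[k0] Ω, ∀ s, σ (x s) = x' s := by
  classical
  let Γ : Set (S → Ω) := {γ | ∃ σ : Ω ≃ₐ[k0] Ω, γ = fun s => σ (x s)}
  have hΓ : Γ.Finite := by
    have hfin : (Set.pi Set.univ fun s => {w : Ω | w ∈ (minpoly k0 (x s)).rootSet Ω}).Finite := by
      apply Set.Finite.pi
      intro s
      exact Polynomial.rootSet_finite _ _
    apply hfin.subset
    rintro γ ⟨σ, rfl⟩ s -
    have hint : IsIntegral k0 (x s) := Normal.isIntegral inferInstance (x s)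
    rw [Set.mem_ofPred_eq, Polynomial.mem_rootSet]
    refine ⟨minpoly.ne_zero hint, ?_⟩
    have := Polynomial.aeval_algHom_apply (σ : Ω →ₐ[k0] Ω) (x s) (minpoly k0 (x s))
    rw [minpoly.aeval, map_zero] at this
    exact this
  have : Finite Γ := hΓ
  let V : Γ → Submodule K (S → K) := fun γ => LinearMap.ker (lfm (K := K) γ.1 - lfm (K := K) x')
  have hcov : ⋃ γ, (V γ : Set (S → K)) = Set.univ := by
    rw [Set.eq_univ_iff_forall]
    intro c
    have hc : IsConjRoot k0 (lfm x' c) (lfm x c) := (h c).symm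
    obtain ⟨σ, hσ⟩ := hc.exists_algEquiv
    rw [Set.mem_iUnion]
    refine ⟨⟨fun s => σ (x s), σ, rfl⟩, ?_⟩
    change (lfm (K := K) (fun s => σ (x s)) - lfm (K := K) x') c = 0
    rw [LinearMap.sub_apply, sub_eq_zero, ← hσ, lfm_apply, lfm_apply, map_sum]
    apply Finset.sum_congr rfl
    intro s _
    rw [← algebraMap_smul k0 (c s) (σ (x s)), ← algebraMap_smul k0 (c s) (x s), map_smul]
  obtain ⟨⟨γ, σ, hγ⟩, hV⟩ := Subspace.exists_eq_top_of_iUnion_eq_univ hcov
  refine ⟨σ, fun s => ?_⟩
  have h1 : (Pi.single s 1 : S → K) ∈ V ⟨γ, σ, hγ⟩ := by rw [hV]; trivial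
  have h2 : (lfm (K := K) γ - lfm (K := K) x') (Pi.single s 1) = 0 := h1
  rw [LinearMap.sub_apply, lfm_single, lfm_single, sub_eq_zero, hγ] at h2
  exact h2

end Conj

section Main

/-- Substituting linear forms does not increase the degree. -/
lemma totalDegree_aeval_le {K S : Type*} [Field K] {n : ℕ}
    (l : Fin n → MvPolynomial S K) (hl : ∀ i, (l i).IsHomogeneous 1)
    (F : MvPolynomial (Fin n) K) : (aeval l F).totalDegree ≤ F.totalDegree := by
  rw [aeval_def, eval₂_eq']
  apply totalDegree_finsetSum_le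
  intro m hm
  refine (totalDegree_mul _ _).trans ?_
  have h1 : (algebraMap K (MvPolynomial S K) (coeff m F)).totalDegree = 0 := by
    rw [MvPolynomial.algebraMap_eq]; exact totalDegree_C _
  rw [h1, zero_add]
  refine (totalDegree_finsetProd _ _).trans ?_
  have h2 : ∀ i, (l i ^ m i).totalDegree ≤ m i := by
    intro i
    refine (totalDegree_pow _ _).trans ?_
    have := (hl i).totalDegree_le
    nlinarith
  calc ∑ i, (l i ^ m i).totalDegree ≤ ∑ i, m i := Finset.sum_le_sum fun i _ => h2 i
    _ = m.sum (fun _ e => e) := by rw [Finsupp.sum_fintype]; simp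
    _ ≤ F.totalDegree := le_totalDegree hm

lemma aeval_push {K S : Type*} [Field K] [Fintype S] {d : ℕ} (y : Fin d → MvPolynomial S K)
    {B : Type*} [CommRing B] [Algebra K B] (f : MvPolynomial S K →ₐ[K] B)
    (z : MvPolynomial S K) (F : MvPolynomial (Fin (d + 1)) K) :
    aeval (Fin.cons (f z) (fun i => f (y i)) : Fin (d + 1) → B) F =
      f (aeval (Fin.cons z y : Fin (d + 1) → MvPolynomial S K) F) := by
  have h : (Fin.cons (f z) (fun i => f (y i)) : Fin (d + 1) → B) =
      fun i => f ((Fin.cons z y : Fin (d + 1) → MvPolynomial S K) i) := by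
    funext i
    refine Fin.cases ?_ (fun j => ?_) i <;> simp
  rw [h, ← MvPolynomial.comp_aeval_apply]

/-- **Separation lemma.** -/
theorem separation {K S : Type*} [Field K] [IsAlgClosed K] [CharZero K] [Fintype S]
    (P Q : Ideal (MvPolynomial S K)) (hPp : P.IsPrime) (hQp : Q.IsPrime) (d D : ℕ)
    (hP : ∃ y : Fin d → MvPolynomial S K, AlgebraicIndependent K (fun i => Ideal.Quotient.mk P (y i)))
    (hQ : ∃ y : Fin d → MvPolynomial S K, AlgebraicIndependent K (fun i => Ideal.Quotient.mk Q (y i)))
    (hPd : ∀ l : Fin (d + 1) → MvPolynomial S K, (∀ i, (l i).IsHomogeneous 1) →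
      ∃ F : MvPolynomial (Fin (d + 1)) K, F ≠ 0 ∧ F.totalDegree ≤ D ∧ aeval l F ∈ P)
    (hPQ : ∀ p ∈ P, p.totalDegree ≤ D → p ∈ Q) : P ≤ Q := by
  classical
  obtain ⟨c, hcP, hcQ⟩ := exists_linear_forms P Q hPp hQp d hP hQ d le_rfl
  let y : Fin d → MvPolynomial S K := fun i => lf (c i)
  let πP := Ideal.Quotient.mkₐ K P
  let πQ := Ideal.Quotient.mkₐ K Q
  have hπP : ∀ p, πP p = 0 ↔ p ∈ P := fun p => Ideal.Quotient.eq_zero_iff_mem
  have hπQ : ∀ p, πQ p = 0 ↔ p ∈ Q := fun p => Ideal.Quotient.eq_zero_iff_mem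
  -- relations
  have hcons : ∀ (e : S → K) (i : Fin (d + 1)),
      ((Fin.cons (lf e) y : Fin (d + 1) → MvPolynomial S K) i).IsHomogeneous 1 := by
    intro e i
    refine Fin.cases ?_ (fun j => ?_) i
    · simpa using lf_isHomogeneous e
    · simpa using lf_isHomogeneous (c j)
  have hPQ' : ∀ (e : S → K) (F : MvPolynomial (Fin (d + 1)) K), F.totalDegree ≤ D →
      aeval (Fin.cons (πP (lf e)) (fun i => πP (y i)) : Fin (d + 1) → _) F = 0 →
      aeval (Fin.cons (πQ (lf e)) (fun i => πQ (y i)) : Fin (d + 1) → _) F = 0 := by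
    intro e F hFD hF
    rw [aeval_push, hπP] at hF
    rw [aeval_push, hπQ]
    exact hPQ _ hF ((totalDegree_aeval_le _ (hcons e) F).trans hFD)
  -- irreducible relations
  have hrel : ∀ e : S → K, ∃ F : MvPolynomial (Fin (d + 1)) K, Irreducible F ∧
      F.totalDegree ≤ D ∧
      aeval (Fin.cons (πP (lf e)) (fun i => πP (y i)) : Fin (d + 1) → _) F = 0 := by
    intro e
    apply exists_irreducible
    obtain ⟨F, h1, h2, h3⟩ := hPd _ (hcons e)
    exact ⟨F, h1, h2, by rw [aeval_push, hπP]; exact h3⟩
  have hX : ∀ s : S, (X s : MvPolynomial S K) = lf (Pi.single s 1) := by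
    intro s
    have := algHom_lf (AlgHom.id K (MvPolynomial S K)) (Pi.single s 1)
    rw [lfm_single] at this
    simpa using this.symm
  obtain ⟨φ, hφi, hφ⟩ := exists_embedding πP (Ideal.Quotient.mkₐ_surjective K P)
    (fun i => πP (y i)) hcP (by
      intro s
      obtain ⟨F, h1, h2, h3⟩ := hrel (Pi.single s 1)
      exact ⟨F, h1.ne_zero, by rw [hX]; exact h3⟩)
  obtain ⟨ψ, hψi, hψ⟩ := exists_embedding πQ (Ideal.Quotient.mkₐ_surjective K Q)
    (fun i => πQ (y i)) hcQ (by
      intro s
      obtain ⟨F, h1, h2, h3⟩ := hrel (Pi.single s 1)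
      exact ⟨F, h1.ne_zero, by rw [hX]; exact hPQ' _ F h2 h3⟩)
  have hmin : ∀ e : S → K,
      minpoly (FractionRing (MvPolynomial (Fin d) K)) (lfm (fun s => φ (πP (X s))) e) =
      minpoly (FractionRing (MvPolynomial (Fin d) K)) (lfm (fun s => ψ (πQ (X s))) e) := by
    intro e
    obtain ⟨F, h1, h2, h3⟩ := hrel e
    have h4 := minpoly_eq _ hcP _ φ hφ F h1 h3
    have h5 := minpoly_eq _ hcQ _ ψ hψ F h1 (hPQ' e F h2 h3)
    have h6 := algHom_lf (φ.comp πP) e
    have h7 := algHom_lf (ψ.comp πQ) e
    simp only [AlgHom.comp_apply] at h6 h7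
    rw [← h6, ← h7, h4, h5]
  obtain ⟨σ, hσ⟩ := exists_conj _ _ hmin
  have hcomp : (σ.toAlgHom.restrictScalars K).comp (φ.comp πP) = ψ.comp πQ := by
    apply MvPolynomial.algHom_ext
    intro s
    exact hσ s
  intro p hp
  rw [← hπQ]
  apply hψi
  rw [map_zero]
  have h1 := DFunLike.congr_fun hcomp p
  have h2 : πP p = 0 := (hπP p).2 hp
  change σ (φ (πP p)) = ψ (πQ p) at h1
  rw [← h1, h2, map_zero, map_zero]

end Main

end Pool.Agent.R914.UN
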