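import Pool.Agent.R914.UN.Low
import Pool.Agent.R914.UN.Sep
import Pool.Agent.R914.UN.Greedy

/-!
# Bounded generation of the invariant tensors of a group generated by tori
-/

set_option linter.unusedSectionVars false
set_option linter.unusedSimpArgs false

namespace Pool.Agent.R914.UN
open MvPolynomial Matrix

variable {B : Type} [Fintype B] [DecidableEq B]

lemma mem_vanI {G : Set (Matrix B B ℂ)} {p : MvPolynomial (B × B) ℂ} :
    p ∈ vanI G ↔ ∀ g ∈ G, ev g p = 0 := by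
  rw [vanI]
  simp only [Submodule.mem_iInf, RingHom.mem_ker]

/-- The bound `D` for the degrees of the equations of the group. -/
def degBound (b w : ℕ) : ℕ := (b ^ 2 + 1) * ((2 * w + 1) * (b ^ 2 + 1)) ^ (b ^ 2)

lemma le_degBound {b w d : ℕ} (h : d ≤ b ^ 2) :
    (d + 1) * ((2 * w + 1) * (d + 1)) ^ d ≤ degBound b w := by
  rw [degBound]
  have h1 : (2 * w + 1) * (d + 1) ≤ (2 * w + 1) * (b ^ 2 + 1) :=
    Nat.mul_le_mul_left _ (by omega)
  have h2 : ((2 * w + 1) * (d + 1)) ^ d ≤ ((2 * w + 1) * (b ^ 2 + 1)) ^ d :=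
    Nat.pow_le_pow_left h1 d
  have h3 : ((2 * w + 1) * (b ^ 2 + 1)) ^ d ≤ ((2 * w + 1) * (b ^ 2 + 1)) ^ (b ^ 2) :=
    Nat.pow_le_pow_right (by positivity) h
  exact Nat.mul_le_mul (by omega) (h2.trans h3)

namespace TSys

variable {S : TSys B}

/-- The group fixes the tensors of the system. -/
def FixedBy (S : TSys B) (G : Submonoid (Matrix B B ℂ)) : Prop := ∀ g ∈ G, S.Fixes g

lemma ker_le (hS : S.HasForm) {G : Submonoid (Matrix B B ℂ)} (hG : S.FixedBy G) :
    S.ker ≤ vanI (G : Set (Matrix B B ℂ)) := by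
  intro p hp
  rw [mem_vanI]
  exact fun g hg => zero_of_fixes hS (hG g hg) hp

/-- **The zeros of the kernel belong to the closure of the group.** -/
theorem van_zero (hS : S.HasForm) {w : ℕ} {T : Set (ℤ → Matrix B B ℂ)}
    (hT : ∀ e ∈ T, curve w e 1 = 1) (hstar : ∀ g ∈ gen w T, gᴴ ∈ gen w T)
    (hfix : S.FixedBy (gen w T)) {D : ℕ} (hD : degBound (Fintype.card B) w ≤ D)
    (hop : ∀ n m : ℕ, n ≤ D → m ≤ D → ∀ M : Matrix (Fin n → B) (Fin m → B) ℂ,
      Comm (gen w T) M → S.Pres M) {g : Matrix B B ℂ} (hg : S.Fixes g)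
    {p : MvPolynomial (B × B) ℂ} (hp : p ∈ vanI (gen w T : Set (Matrix B B ℂ))) :
    ev g p = 0 := by
  obtain ⟨hprime, d, hd, ⟨y, hy⟩, hF⟩ := greedy w T hT
  set P := vanI (gen w T : Set (Matrix B B ℂ)) with hPdef
  have hlow : ∀ q ∈ P, q.totalDegree ≤ D → q ∈ S.ker := fun q hq hq' =>
    low_mem_ker S hstar hop hq hq'
  let Q : Ideal (MvPolynomial (B × B) ℂ) := P.comap (lt g).toRingHom
  have hQ : ∀ q, q ∈ Q ↔ lt g q ∈ P := fun q => Iff.rfl
  have hQprime : Q.IsPrime := Ideal.comap_isPrime _ _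
  have hu := hg.isUnit hS
  have h1 : P ≤ Q := by
    refine separation P Q hprime hQprime d D ⟨y, hy⟩ ⟨fun i => lt g⁻¹ (y i), ?_⟩ ?_ ?_
    · rw [algebraicIndependent_iff]
      intro F hF0
      have h2 : ∀ (I : Ideal (MvPolynomial (B × B) ℂ)) (z : Fin d → MvPolynomial (B × B) ℂ),
          aeval (fun i => Ideal.Quotient.mk I (z i)) F = Ideal.Quotient.mk I (aeval z F) := by
        intro I z
        exact (congrArg (fun f => f F) (comp_aeval (R := ℂ) z (Ideal.Quotient.mkₐ ℂ I))).symm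
      rw [h2, Ideal.Quotient.eq_zero_iff_mem, hQ] at hF0
      have h3 : lt g (aeval (fun i => lt g⁻¹ (y i)) F) = aeval y F := by
        rw [← AlgHom.comp_apply, comp_aeval]
        congr 1
        congr 1
        funext i
        rw [lt_lt, nonsing_inv_mul _ hu, lt_one]
      rw [h3, ← Ideal.Quotient.eq_zero_iff_mem, ← h2] at hF0
      exact (algebraicIndependent_iff.1 hy) F hF0
    · intro l hl
      obtain ⟨F, h2, h3, h4⟩ := hF l hl
      exact ⟨F, h2, h3.trans ((le_degBound hd).trans hD), h4⟩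
    · intro q hq hq'
      exact ker_le hS hfix (lt_mem_ker hS hg (hlow q hq hq'))
  have h2 : lt g p ∈ P := (hQ p).1 (h1 hp)
  have h3 := (mem_vanI.1 h2) 1 (Submonoid.one_mem _)
  rwa [ev_lt, mul_one] at h3

end TSys

/-- The matrix coefficient of a tensor, as a polynomial. -/
noncomputable def fp {ι : Type} [Fintype ι] [DecidableEq ι] (a : (ι → B) → ℂ) :
    MvPolynomial (B × B) ℂ :=
  ∑ I, ∑ J, C (star (a I) * a J) * xm I J

lemma ev_fp {ι : Type} [Fintype ι] [DecidableEq ι] (a : (ι → B) → ℂ) (g : Matrix B B ℂ) :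
    ev g (fp a) = star a ⬝ᵥ (tp ι g *ᵥ a) := by
  rw [fp, map_sum, dotProduct]
  refine Finset.sum_congr rfl fun I _ => ?_
  rw [map_sum, mulVec, dotProduct, Finset.mul_sum]
  refine Finset.sum_congr rfl fun J _ => ?_
  rw [map_mul, ev_C, ev_xm, Pi.star_apply]
  ring

lemma mu_fp (S : TSys B) {ι : Type} [Fintype ι] [DecidableEq ι] (a : (ι → B) → ℂ) :
    S.mu (fp a) = star a ⬝ᵥ (S.R ι *ᵥ a) := by
  rw [fp, map_sum, dotProduct]
  refine Finset.sum_congr rfl fun I _ => ?_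
  rw [map_sum, mulVec, dotProduct, Finset.mul_sum]
  refine Finset.sum_congr rfl fun J _ => ?_
  rw [S.mu_C_mul, S.mu_xm, Pi.star_apply]
  ring

lemma fp_mul {ι κ : Type} [Fintype ι] [DecidableEq ι] [Fintype κ] [DecidableEq κ]
    (a : (ι → B) → ℂ) (c : (κ → B) → ℂ) : fp a * fp c = fp (mulT a c) := by
  rw [fp, fp, fp, TSys.sum_sum, Finset.sum_mul_sum]
  refine Finset.sum_congr rfl fun I _ => Finset.sum_congr rfl fun I' _ => ?_
  rw [TSys.sum_sum, Finset.sum_mul_sum]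
  refine Finset.sum_congr rfl fun J _ => Finset.sum_congr rfl fun J' _ => ?_
  rw [← xm_mul]
  simp only [mulT, Sum.elim_comp_inl, Sum.elim_comp_inr, star_mul']
  simp only [map_mul]
  ring

lemma norm_mulT {ι κ : Type} [Fintype ι] [DecidableEq ι] [Fintype κ] [DecidableEq κ]
    (a : (ι → B) → ℂ) (c : (κ → B) → ℂ) :
    star (mulT a c) ⬝ᵥ mulT a c = (star a ⬝ᵥ a) * (star c ⬝ᵥ c) := by
  rw [dotProduct, dotProduct, dotProduct, TSys.sum_sum, Finset.sum_mul_sum]
  refine Finset.sum_congr rfl fun I _ => Finset.sum_congr rfl fun I' _ => ?_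
  simp only [Pi.star_apply, mulT, Sum.elim_comp_inl, Sum.elim_comp_inr, star_mul']
  ring

lemma fp_pow {ι : Type} [Fintype ι] [DecidableEq ι] {a : (ι → B) → ℂ} (ha : star a ⬝ᵥ a = 1) :
    ∀ k : ℕ, ∃ (κ : Type) (_ : Fintype κ) (_ : DecidableEq κ) (c : (κ → B) → ℂ),
      star c ⬝ᵥ c = 1 ∧ fp a ^ k = fp c
  | 0 => by
    refine ⟨Fin 0, inferInstance, inferInstance, fun _ => 1, ?_, ?_⟩
    · rw [dotProduct]; simp
    · rw [pow_zero, fp]
      simp [xm]
  | k + 1 => by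
    obtain ⟨κ, _, _, c, h1, h2⟩ := fp_pow ha k
    refine ⟨ι ⊕ κ, inferInstance, inferInstance, mulT a c, ?_, ?_⟩
    · rw [norm_mulT, ha, h1, mul_one]
    · rw [pow_succ', h2, fp_mul]

/-- **The machine.** -/
theorem machine {S : TSys B} (hS : S.HasForm) {w : ℕ} {T : Set (ℤ → Matrix B B ℂ)}
    (hT : ∀ e ∈ T, curve w e 1 = 1) (hstar : ∀ g ∈ gen w T, gᴴ ∈ gen w T)
    (hfix : S.FixedBy (gen w T)) {D : ℕ} (hD : degBound (Fintype.card B) w ≤ D)
    (hop : ∀ n m : ℕ, n ≤ D → m ≤ D → ∀ M : Matrix (Fin n → B) (Fin m → B) ℂ,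
      Comm (gen w T) M → S.Pres M) {ι : Type} [Fintype ι] [DecidableEq ι] {v : (ι → B) → ℂ}
    (hv : ∀ g ∈ gen w T, tp ι g *ᵥ v = v) : v ∈ S.A ι := by
  classical
  by_contra hcon
  set a : (ι → B) → ℂ := v - S.R ι *ᵥ v with ha
  have ha0 : a ≠ 0 := by
    intro h
    apply hcon
    rw [sub_eq_zero.1 h]
    exact (S.isProj ι).mem v
  have hRa : S.R ι *ᵥ a = 0 := by
    rw [ha, mulVec_sub, (S.isProj ι).self ((S.isProj ι).mem v), sub_self]
  have hga : ∀ g ∈ gen w T, tp ι g *ᵥ a = a := by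
    intro g hg
    rw [ha, mulVec_sub, hv g hg, hfix g hg ι _ ((S.isProj ι).mem v)]
  -- normalise
  set r : ℝ := ∑ i, ‖a i‖ ^ 2 with hr
  have hr0 : 0 < r := by
    obtain ⟨i, hi⟩ := Function.ne_iff.1 ha0
    refine Finset.sum_pos' (fun i _ => by positivity) ⟨i, Finset.mem_univ i, ?_⟩
    have : 0 < ‖a i‖ := norm_pos_iff.2 hi
    positivity
  set c : ℂ := Complex.ofReal (Real.sqrt r)⁻¹ with hc
  set u : (ι → B) → ℂ := c • a with hu
  have hu1 : star u ⬝ᵥ u = 1 := by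
    rw [hu, star_smul, smul_dotProduct, dotProduct_smul, star_dot_self, ← hr, smul_eq_mul,
      smul_eq_mul, hc, Complex.star_def, Complex.conj_ofReal, ← Complex.ofReal_mul,
      ← Complex.ofReal_mul]
    rw [← Complex.ofReal_one]
    congr 1
    have h1 : Real.sqrt r ≠ 0 := (Real.sqrt_pos.2 hr0).ne'
    have h2 : Real.sqrt r * Real.sqrt r = r := Real.mul_self_sqrt hr0.le
    field_simp
    rw [pow_two, h2]
  have hRu : S.R ι *ᵥ u = 0 := by rw [hu, mulVec_smul, hRa, smul_zero]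
  have hgu : ∀ g ∈ gen w T, tp ι g *ᵥ u = u := by
    intro g hg
    rw [hu, mulVec_smul, hga g hg]
  have h1 : fp u - 1 ∈ vanI (gen w T : Set (Matrix B B ℂ)) := by
    rw [mem_vanI]
    intro g hg
    rw [map_sub, map_one, ev_fp, hgu g hg, hu1, sub_self]
  have h2 : fp u - 1 ∈ S.ker.radical := by
    rw [← vanishingIdeal_zeroLocus_eq_radical (K := ℂ), mem_vanishingIdeal_iff]
    intro x hx
    set g : Matrix B B ℂ := Matrix.of fun i j => x (i, j) with hg
    have hev : ∀ q ∈ S.ker, ev g q = 0 := by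
      intro q hq
      have h1 := (mem_zeroLocus_iff).1 hx q hq
      rw [ev]
      rw [aeval_eq_eval] at h1
      exact h1
    have h3 := TSys.van_zero hS hT hstar hfix hD hop (S.fixes_of_zero hev) h1
    rw [aeval_eq_eval]
    exact h3
  obtain ⟨M, hM⟩ := h2
  have h3 : ∀ k : ℕ, S.mu (fp u ^ k) = ∑ j ∈ Finset.range M,
      (k.choose j : ℂ) * S.mu ((fp u - 1) ^ j) := by
    intro k
    have h4 : fp u ^ k = ∑ j ∈ Finset.range (k + 1 + M), C (k.choose j : ℂ) * (fp u - 1) ^ j := by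
      have h5 : fp u ^ k = ∑ j ∈ Finset.range (k + 1), C (k.choose j : ℂ) * (fp u - 1) ^ j := by
        conv_lhs => rw [show fp u = (fp u - 1) + 1 by ring]
        rw [add_pow]
        refine Finset.sum_congr rfl fun j _ => ?_
        rw [one_pow, mul_one, mul_comm]
        congr 1
      rw [h5]
      refine Finset.sum_subset (Finset.range_mono (by omega)) fun j _ hj => ?_
      rw [Nat.choose_eq_zero_of_lt (by simpa using hj), Nat.cast_zero, C_0, zero_mul]
    rw [h4, map_sum]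
    simp only [S.mu_C_mul]
    symm
    refine Finset.sum_subset (Finset.range_mono (by omega)) fun j _ hj => ?_
    have h5 : (fp u - 1) ^ j ∈ S.ker := by
      have h6 : M ≤ j := by simpa using hj
      obtain ⟨i, rfl⟩ := Nat.exists_eq_add_of_le h6
      rw [pow_add]
      exact Ideal.mul_mem_right _ _ hM
    have h6 := h5 1
    rw [mul_one] at h6
    rw [h6, mul_zero]
  have h4 : ∀ k : ℕ, ‖S.mu (fp u ^ k)‖ ≤ 1 := by
    intro k
    obtain ⟨κ, _, _, c', h5, h6⟩ := fp_pow hu1 k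
    rw [h6, mu_fp]
    exact (S.isProj κ).norm_le h5
  have h5 := moment (M := M) (fun j => S.mu ((fp u - 1) ^ j)) (fun k => by
    rw [← h3]
    exact h4 k) 1
  rw [← h3, ← h3, pow_one, pow_zero, S.mu_one, mu_fp, hRu, dotProduct_zero] at h5
  exact zero_ne_one h5

end Pool.Agent.R914.UN
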