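import Pool.Agent.R914.UN.HDefs

/-!
# Motivated classes: definitions
-/

open CategoryTheory AlgebraicGeometry

universe u

namespace Pool.Agent.R914.UN

open Pool.Agent.H914 Pool.Agent.H914.VarClass Pool.Agent.H914.VarClass.Obj
  Pool.Agent.H914.WeilCohomology Pool.Agent.Y121.AHS

variable {k : Type u} [Field k] {𝒱 : VarClass k} {ops : CycleOps 𝒱}

/-- The motivated classes of degree `2 j` (André): the smallest family of classes which contains the
classes of the algebraic cycles, is stable under linear combinations, products, pull-backs and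
push-forwards, and under the inverses of the Lefschetz isomorphisms
`ξ ^ (d - 2 j) : H^(2 j)(X) → H^(2 (d - j))(X)`, `ξ` the class of a divisor with the hard Lefschetz
property, `d = dim X`. -/
inductive IsMotivated (W : WeilCohomology.{u, 0} ops) : ∀ X : 𝒱.Obj, ℕ → W.H X → Prop
  | cl {X : 𝒱.Obj} {j : ℕ} {z : X.Cycles} : X.IsCyc j z → IsMotivated W X j (W.cl X z)
  | add {X : 𝒱.Obj} {j : ℕ} {a b : W.H X} : IsMotivated W X j a → IsMotivated W X j b →
      IsMotivated W X j (a + b)
  | smul {X : 𝒱.Obj} {j : ℕ} (r : W.K) {a : W.H X} : IsMotivated W X j a →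
      IsMotivated W X j (r • a)
  | mul {X : 𝒱.Obj} {i j : ℕ} {a b : W.H X} : IsMotivated W X i a → IsMotivated W X j b →
      IsMotivated W X (i + j) (a * b)
  | map {X Y : 𝒱.Obj} (f : X ⟶ Y) {j : ℕ} {a : W.H Y} : IsMotivated W Y j a →
      IsMotivated W X j (W.map f a)
  | push {X Y : 𝒱.Obj} (f : X ⟶ Y) {j l : ℕ} {a : W.H X} : l + X.dim = j + Y.dim →
      IsMotivated W X j a → IsMotivated W Y l (W.push f a)
  | lef {X : 𝒱.Obj} {D : X.Cycles} {j : ℕ} {a : W.H X} : X.IsCyc 1 D → HardLefschetz W X D →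
      2 * j ≤ X.dim → a ∈ W.gr X (2 * j) →
      IsMotivated W X (X.dim - j) (W.cl X D ^ (X.dim - 2 * j) * a) → IsMotivated W X j a

/-- All Hodge classes on `Y` are motivated. -/
def HodgeMotivated (T : HodgeTheory ops) (Y : 𝒱.Obj) : Prop :=
  ∀ (j : ℕ) (c : T.W.H Y), IsHodge T Y j c → IsMotivated T.W Y j c

end Pool.Agent.R914.UN
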