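import Pool.Agent.R914.UN.HMain
import Pool.Agent.R914.UN.MotDefs
import Pool.Agent.R914.UN.GenDefs
import Pool.Agent.H914R2.PDesc

/-!
# Uniform bounded generation: motivated and absolutely Hodge classes
-/

set_option linter.unusedSectionVars false
set_option linter.unusedVariables false

open CategoryTheory AlgebraicGeometry CategoryTheory.Limits TensorProduct

universe u v

namespace Pool.Agent.R914.UN

open Pool.Agent.H914 Pool.Agent.H447 Pool.Agent.W534 Pool.Agent.Y163 VarClass Obj WeilCohomology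
  Module
open Pool.Agent.Y121 Pool.Agent.Y121.AHS Pool.Agent.R940
open Pool.Agent.Y133.Half (ClassPred)

variable {k : Type u} [Field k] {𝒱 : VarClass k} {ops : CycleOps 𝒱}

variable {T : HodgeTheory ops} {X Z : 𝒱.Obj}

lemma IsMotivated.gr {W : WeilCohomology.{u, 0} ops} {X : 𝒱.Obj} {j : ℕ} {c : W.H X}
    (h : IsMotivated W X j c) : c ∈ W.gr X (2 * j) := by
  induction h with
  | cl hz => exact W.cl_mem hz
  | add _ _ ha hb => exact Submodule.add_mem _ ha hb
  | smul r _ ha => exact Submodule.smul_mem _ _ ha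
  | mul _ _ ha hb => rw [mul_add]; exact W.mul_mem ha hb
  | map f _ ha => exact W.map_mem f ha
  | push f h _ ha => exact AH.push_gr f h ha
  | lef _ _ _ ha _ _ => exact ha

/-- The motivated classes. -/
def motPred (W : WeilCohomology.{u, 0} ops) : ClassPred W where
  P X j c := IsMotivated W X j c
  gr h := h.gr
  zero {X j} := by
    have h1 : IsMotivated W X j ((0 : W.K) • W.cl X 0) := IsMotivated.smul 0
      (IsMotivated.cl (SmVar.IsCyc.zero _ _))
    rwa [zero_smul] at h1
  add := IsMotivated.add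
  smul := IsMotivated.smul
  cl := IsMotivated.cl
  mul := IsMotivated.mul
  map := IsMotivated.map
  push f _ _ h _ ha := IsMotivated.push f h ha

lemma em_cl_pow (T : AH.HodgeTheory ops) {D : X.Cycles} (hD : X.IsCyc 1 D) (n : ℕ) :
    AH.em T.W ℂ (T.W.cl X D ^ n) ∈ T.pq X n n := em_pow_pq T hD n

lemma act_shift (T : AH.HodgeTheory ops) {m : ℤ} {e : (baseW T.W ℂ).H X} (he : e ∈ T.pq X m m)
    (r : ℤ × ℤ) (x : (baseW T.W ℂ).H X) :
    act T (ind fun s => s = (r.1 + m, r.2 + m)) X (e * x) = e * act T (ind fun s => s = r) X x := by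
  refine pq_ind T (p := fun x => act T (ind fun s => s = (r.1 + m, r.2 + m)) X (e * x) =
    e * act T (ind fun s => s = r) X x) ?_ ?_ ?_ x
  · rw [mul_zero, map_zero, map_zero, mul_zero]
  · intro x y hx hy
    rw [mul_add, map_add, hx, hy, map_add, mul_add]
  · intro s x hx
    have h1 : e * x ∈ T.pq X (m + s.1) (m + s.2) := T.dec.mul he hx
    rw [act_of T _ hx, act_of T _ (r := (m + s.1, m + s.2)) h1, mul_smul_comm]
    congr 1
    by_cases hs : s = r
    · have h2 : ((m + s.1, m + s.2) : ℤ × ℤ) = (r.1 + m, r.2 + m) := by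
        rw [hs, add_comm m, add_comm m]
      exact (if_pos h2).trans (if_pos hs).symm
    · have h2 : ¬ ((m + s.1, m + s.2) : ℤ × ℤ) = (r.1 + m, r.2 + m) := by
        intro h
        apply hs
        rw [Prod.ext_iff] at h
        have h3 := h.1
        have h4 := h.2
        simp only at h3 h4
        exact Prod.ext (by omega) (by omega)
      exact (if_neg h2).trans (if_neg hs).symm

/-- Division by powers of a divisor class preserves Hodge classes. -/
lemma hodge_of_lef (T : AH.HodgeTheory ops) {D : X.Cycles} {j : ℕ} {a : T.W.H X}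
    (hD : X.IsCyc 1 D) (hl : HardLefschetz T.W X D) (hj : 2 * j ≤ X.dim)
    (ha : a ∈ T.W.gr X (2 * j))
    (h : AH.IsHodge T X (X.dim - j) (T.W.cl X D ^ (X.dim - 2 * j) * a)) : AH.IsHodge T X j a := by
  refine ⟨ha, ?_⟩
  set m := X.dim - 2 * j with hm
  have he := em_pow_pq T hD m
  set x := AH.em T.W ℂ a with hx
  set e := AH.em T.W ℂ (T.W.cl X D ^ m) with hedef
  have hex : e * x = AH.em T.W ℂ (T.W.cl X D ^ m * a) := (AH.em_mul _ _).symm
  have hty : e * x ∈ T.pq X (((j : ℤ), (j : ℤ)).1 + m) (((j : ℤ), (j : ℤ)).2 + m) := by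
    have h1 := h.2
    rw [← hex] at h1
    have h2 : ((X.dim - j : ℕ) : ℤ) = (j : ℤ) + m := by
      rw [hm]
      omega
    rw [h2] at h1
    exact h1
  have h1 := act_shift T he ((j : ℤ), (j : ℤ)) x
  have h2 : act T (ind fun s => s = (((j : ℤ), (j : ℤ)).1 + (m : ℤ), ((j : ℤ), (j : ℤ)).2 + (m : ℤ)))
      X (e * x) = e * x := by
    rw [act_of T _ (r := (((j : ℤ), (j : ℤ)).1 + (m : ℤ), ((j : ℤ), (j : ℤ)).2 + (m : ℤ))) hty]
    have h3 : ind (fun s => s = (((j : ℤ), (j : ℤ)).1 + (m : ℤ), ((j : ℤ), (j : ℤ)).2 + (m : ℤ)))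
      (((j : ℤ), (j : ℤ)).1 + (m : ℤ), ((j : ℤ), (j : ℤ)).2 + (m : ℤ)) = 1 := if_pos rfl
    rw [h3]
    exact one_smul (baseW T.W ℂ).K (e * x)
  rw [h2] at h1
  set y := act T (ind fun s => s = ((j : ℤ), (j : ℤ))) X x with hy
  have h3 : e * (x - y) = 0 := by rw [mul_sub, ← h1, sub_self]
  have hxg : x ∈ (baseW T.W ℂ).gr X (2 * j) := AH.em_gr ha
  have hyg : y ∈ (baseW T.W ℂ).gr X (2 * j) := act_gr _ hxg
  have hl' : HardLefschetz (baseW T.W ℂ) X D := base_hardLefschetz hD hl
  have h4 := (hl' (2 * j) hj).1 (x - y) (Submodule.sub_mem _ hxg hyg)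
  have h5 : x - y = 0 := by
    apply h4
    rw [LinearMap.pow_mulLeft, LinearMap.mulLeft_apply]
    have h6 : (baseW T.W ℂ).cl X D = AH.em T.W ℂ (T.W.cl X D) := rfl
    have h7 : ∀ n : ℕ, (AH.em T.W ℂ (T.W.cl X D) : (baseW T.W ℂ).H X) ^ n =
        AH.em T.W ℂ (T.W.cl X D ^ n) := by
      intro n
      induction n with
      | zero => rw [pow_zero, pow_zero]; rfl
      | succ n ih => rw [pow_succ, ih, pow_succ, AH.em_mul]
    rw [h6, h7]
    exact h3
  rw [sub_eq_zero] at h5
  rw [h5, hy]
  refine Submodule.iSup_induction _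
    (motive := fun x => act T (ind fun s => s = ((j : ℤ), (j : ℤ))) X x ∈ T.pq X j j)
    (gr_le (2 * j) hxg) ?_ ?_ ?_
  · intro r x hx
    rw [act_of T _ (r := r.1) hx]
    by_cases hr : r.1 = ((j : ℤ), (j : ℤ))
    · rw [hr] at hx
      exact Submodule.smul_mem _ _ hx
    · have h5 : ind (fun s => s = ((j : ℤ), (j : ℤ))) r.1 = 0 := if_neg hr
      rw [h5]
      exact (congrArg (· ∈ T.pq X j j) (zero_smul (baseW T.W ℂ).K x)).mpr
        (Submodule.zero_mem _)
  · rw [map_zero]; exact Submodule.zero_mem _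
  · intro x y hx hy; rw [map_add]; exact Submodule.add_mem _ hx hy

/-- Motivated classes are Hodge classes. -/
lemma IsMotivated.hodge (T : AH.HodgeTheory ops) {j : ℕ} {c : T.W.H X}
    (h : IsMotivated T.W X j c) : AH.IsHodge T X j c := by
  induction h with
  | cl hz => exact AH.IsHodge.cl hz
  | add _ _ ha hb => exact ha.add hb
  | smul r _ ha => exact ha.smul r
  | mul _ _ ha hb => exact ha.mul hb
  | map f _ ha => exact ha.map f
  | push f h _ ha => exact ha.push f h
  | lef hD hl hj ha _ ih => exact hodge_of_lef T hD hl hj ha ih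

/-- **The reduction for motivated classes.** -/
theorem hodge_mot (hpos : NonnegTypes T) (hsym : HodgeSymmetric T X) (hpol : IsPolarisable T X)
    (hN : HodgeMotivated T (pw X (uniBound (finrank T.W.K (T.W.H X)) X.dim - 1))) (n : ℕ) :
    HodgeMotivated T (pw X n) :=
  fun j c hc => hodge_pred hpos hsym hpol (motPred T.W)
    (fun Y j c h => IsMotivated.hodge (toH T) h) hN n j c hc

/-- All Hodge classes on `Y` are absolutely Hodge. -/
def HodgeAbsolute {T : HodgeTheory ops} (D : Conjugates T) (Y : 𝒱.Obj) : Prop :=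
  ∀ (j : ℕ) (c : T.W.H Y), IsHodge T Y j c → IsAbsHodge D Y j c

/-- **The reduction for absolutely Hodge classes.** -/
theorem hodge_abs (D : Conjugates T) (hpos : NonnegTypes T) (hsym : HodgeSymmetric T X)
    (hpol : IsPolarisable T X)
    (hN : HodgeAbsolute D (pw X (uniBound (finrank T.W.K (T.W.H X)) X.dim - 1))) (n : ℕ) :
    HodgeAbsolute D (pw X n) :=
  fun j c hc => hodge_pred hpos hsym hpol (AH.absPred (toD D)) (fun Y j c h => h.1) hN n j c hc

/-- The generated classes. -/
def genPred (T : HodgeTheory ops) (Y : 𝒱.Obj) : ClassPred T.W where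
  P X j c := IsGenerated T Y X j c
  gr h := by
    induction h with
    | hodge hc => exact hc.1
    | cl hz => exact T.W.cl_mem hz
    | add _ _ ha hb => exact Submodule.add_mem _ ha hb
    | smul r _ ha => exact Submodule.smul_mem _ _ ha
    | mul _ _ ha hb => rw [mul_add]; exact T.W.mul_mem ha hb
    | map f _ ha => exact T.W.map_mem f ha
    | push f h _ ha => exact AH.push_gr f h ha
  zero {X j} := by
    have h1 : IsGenerated T Y X j ((0 : T.W.K) • T.W.cl X 0) := IsGenerated.smul 0
      (IsGenerated.cl (SmVar.IsCyc.zero _ _))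
    rwa [zero_smul] at h1
  add := IsGenerated.add
  smul := IsGenerated.smul
  cl := IsGenerated.cl
  mul := IsGenerated.mul
  map := IsGenerated.map
  push f _ _ h _ ha := IsGenerated.push f h ha

/-- Generated classes are Hodge classes. -/
lemma IsGenerated.isHodge {Y : 𝒱.Obj} {j : ℕ} {c : T.W.H X}
    (h : IsGenerated T Y X j c) : AH.IsHodge (toH T) X j c := by
  induction h with
  | hodge hc => exact hc
  | cl hz => exact AH.IsHodge.cl (T := toH T) hz
  | add _ _ ha hb => exact ha.add hb
  | smul r _ ha => exact ha.smul r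
  | mul _ _ ha hb => exact ha.mul hb
  | map f _ ha => exact ha.map f
  | push f h _ ha => exact ha.push f h

/-- **Bounded generation.** -/
theorem hodge_generated (hpos : NonnegTypes T) (hsym : HodgeSymmetric T X)
    (hpol : IsPolarisable T X) (n j : ℕ) (c : T.W.H (pw X n)) (hc : IsHodge T (pw X n) j c) :
    IsGenerated T (pw X (uniBound (finrank T.W.K (T.W.H X)) X.dim - 1)) (pw X n) j c :=
  hodge_pred hpos hsym hpol (genPred T (pw X (uniBound (finrank T.W.K (T.W.H X)) X.dim - 1)))
    (fun Y j c h => h.isHodge) (fun j c hc => IsGenerated.hodge hc) n j c hc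

end Pool.Agent.R914.UN
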