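import Pool.Agent.R914.UN.Tp

/-!
# Systems of tensors closed under products and contractions
-/

set_option linter.unusedSectionVars false

namespace Pool.Agent.R914.UN
open MvPolynomial Matrix

variable {B : Type} [Fintype B] [DecidableEq B]

/-- The product of two tensors. -/
def mulT {ι κ : Type} (v : (ι → B) → ℂ) (u : (κ → B) → ℂ) : (ι ⊕ κ → B) → ℂ :=
  fun w => v (w ∘ Sum.inl) * u (w ∘ Sum.inr)

/-- The contraction of two tensors. -/
noncomputable def conT {ι κ : Type} [Fintype ι] [DecidableEq ι] (v : (ι → B) → ℂ)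
    (u : (ι ⊕ κ → B) → ℂ) : (κ → B) → ℂ :=
  fun w => ∑ x : ι → B, star (v x) * u (Sum.elim x w)

/-- A matrix applied to the first factors. -/
noncomputable def opT {ι ι' κ : Type} [Fintype ι] [DecidableEq ι] (M : Matrix (ι' → B) (ι → B) ℂ)
    (u : (ι ⊕ κ → B) → ℂ) : (ι' ⊕ κ → B) → ℂ :=
  fun w => ∑ x : ι → B, M (w ∘ Sum.inl) x * u (Sum.elim x (w ∘ Sum.inr))

/-- A system of tensors. -/
structure TSys (B : Type) [Fintype B] [DecidableEq B] where
  /-- the tensors -/
  A : ∀ (ι : Type) [Fintype ι] [DecidableEq ι], Submodule ℂ ((ι → B) → ℂ)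
  relabel : ∀ {ι κ : Type} [Fintype ι] [DecidableEq ι] [Fintype κ] [DecidableEq κ] (e : ι ≃ κ)
    {v : (ι → B) → ℂ}, v ∈ A ι → (fun w : κ → B => v (w ∘ e)) ∈ A κ
  empty : ∀ {ι : Type} [Fintype ι] [DecidableEq ι] [IsEmpty ι] (v : (ι → B) → ℂ), v ∈ A ι
  mul : ∀ {ι κ : Type} [Fintype ι] [DecidableEq ι] [Fintype κ] [DecidableEq κ]
    {v : (ι → B) → ℂ} {u : (κ → B) → ℂ}, v ∈ A ι → u ∈ A κ → mulT v u ∈ A (ι ⊕ κ)
  con : ∀ {ι κ : Type} [Fintype ι] [DecidableEq ι] [Fintype κ] [DecidableEq κ]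
    {v : (ι → B) → ℂ} {u : (ι ⊕ κ → B) → ℂ}, v ∈ A ι → u ∈ A (ι ⊕ κ) → conT v u ∈ A κ

namespace TSys

variable (S : TSys B) {ι ι' κ : Type} [Fintype ι] [DecidableEq ι] [Fintype κ] [DecidableEq κ]
  [Fintype ι'] [DecidableEq ι']

/-- The projection. -/
noncomputable def R (ι : Type) [Fintype ι] [DecidableEq ι] : Matrix (ι → B) (ι → B) ℂ :=
  Classical.choose (exists_isProj (S.A ι))

lemma isProj (ι : Type) [Fintype ι] [DecidableEq ι] : IsProj (S.A ι) (S.R ι) :=
  Classical.choose_spec (exists_isProj (S.A ι))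

/-- Sums over words on a disjoint union. -/
lemma sum_sum {M : Type*} [AddCommMonoid M] (f : (ι ⊕ κ → B) → M) :
    ∑ w, f w = ∑ x : ι → B, ∑ y : κ → B, f (Sum.elim x y) := by
  rw [← (Equiv.sumArrowEquivProdArrow ι κ B).symm.sum_comp f, Fintype.sum_prod_type]
  rfl

lemma R_mul {v : (ι → B) → ℂ} (hv : v ∈ S.A ι) (u : (κ → B) → ℂ) :
    S.R (ι ⊕ κ) *ᵥ mulT v u = mulT v (S.R κ *ᵥ u) := by
  refine (S.isProj _).unique (S.mul hv ((S.isProj κ).mem u)) fun c hc => ?_
  have h1 := (S.isProj κ).orth u _ (S.con hv hc)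
  rw [← h1, dotProduct, sum_sum, Finset.sum_comm, dotProduct]
  refine Finset.sum_congr rfl fun y _ => ?_
  simp only [Pi.star_apply, Pi.sub_apply, mulT, conT, Sum.elim_comp_inl, Sum.elim_comp_inr]
  rw [star_sum, Finset.sum_mul]
  refine Finset.sum_congr rfl fun x _ => ?_
  rw [star_mul', star_star]
  ring

lemma R_relabel (e : ι ≃ κ) (u : (ι → B) → ℂ) :
    S.R κ *ᵥ (fun w => u (w ∘ e)) = fun w => (S.R ι *ᵥ u) (w ∘ e) := by
  refine (S.isProj _).unique (S.relabel e ((S.isProj ι).mem u)) fun c hc => ?_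
  have h1 := (S.isProj ι).orth u _ (S.relabel e.symm hc)
  rw [← h1, dotProduct, dotProduct]
  refine Fintype.sum_equiv (e.symm.arrowCongr (Equiv.refl B)) _ _ fun w => ?_
  simp only [Pi.star_apply, Pi.sub_apply, Equiv.arrowCongr_apply, Equiv.coe_refl,
    Function.id_comp, Equiv.symm_symm]
  congr 3
  funext i
  simp

lemma R_apply_relabel (e : ι ≃ κ) (x y : κ → B) :
    S.R ι (x ∘ e) (y ∘ e) = S.R κ x y := by
  have h1 := congrFun (S.R_relabel e (Pi.single (y ∘ e) 1)) x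
  rw [mulVec_single_one] at h1
  have h2 : (fun w : κ → B => (Pi.single (y ∘ e) (1 : ℂ) : (ι → B) → ℂ) (w ∘ e)) =
      Pi.single y 1 := by
    funext w
    by_cases h : w = y
    · subst h
      rw [Pi.single_eq_same, Pi.single_eq_same]
    · rw [Pi.single_eq_of_ne h, Pi.single_eq_of_ne]
      intro h'
      apply h
      funext i
      have := congrFun h' (e.symm i)
      simpa using this
  rw [h2, mulVec_single_one] at h1
  exact h1.symm

/-- The matrix `M` preserves the system. -/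
def Pres (M : Matrix (ι' → B) (ι → B) ℂ) : Prop :=
  ∀ (κ : Type) [Fintype κ] [DecidableEq κ] (u : (ι ⊕ κ → B) → ℂ), u ∈ S.A (ι ⊕ κ) →
    opT M u ∈ S.A (ι' ⊕ κ)

lemma R_op {M : Matrix (ι' → B) (ι → B) ℂ} (hM : S.Pres M) (hM' : S.Pres Mᴴ)
    (u : (ι ⊕ κ → B) → ℂ) : S.R (ι' ⊕ κ) *ᵥ opT M u = opT M (S.R (ι ⊕ κ) *ᵥ u) := by
  refine (S.isProj _).unique (hM κ _ ((S.isProj _).mem u)) fun c hc => ?_
  have h1 := (S.isProj _).orth u _ (hM' κ _ hc)
  have h2 : ∀ z : (ι ⊕ κ → B) → ℂ, star c ⬝ᵥ opT M z = star (opT Mᴴ c) ⬝ᵥ z := by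
    intro z
    rw [dotProduct, dotProduct, sum_sum, sum_sum]
    simp only [Pi.star_apply, opT, Sum.elim_comp_inl, Sum.elim_comp_inr, star_sum,
      Finset.sum_mul, Finset.mul_sum]
    rw [Finset.sum_congr rfl fun x _ => Finset.sum_comm]
    rw [Finset.sum_comm]
    refine Finset.sum_congr rfl fun x _ => ?_
    rw [Finset.sum_comm]
    refine Finset.sum_congr rfl fun y _ => ?_
    refine Finset.sum_congr rfl fun x' _ => ?_
    rw [star_mul', conjTranspose_apply, star_star]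
    ring
  have h3 : opT M u - opT M (S.R (ι ⊕ κ) *ᵥ u) = opT M (u - S.R (ι ⊕ κ) *ᵥ u) := by
    funext w
    simp only [opT, Pi.sub_apply, mul_sub, Finset.sum_sub_distrib]
  rw [h3, h2, h1]

/-- The entries of the projection and the matrices which preserve the system. -/
lemma R_op_apply {M : Matrix (ι' → B) (ι → B) ℂ} (hM : S.Pres M) (hM' : S.Pres Mᴴ)
    (x : ι' → B) (y : ι → B) (s t : κ → B) :
    ∑ z : ι' → B, S.R (ι' ⊕ κ) (Sum.elim x s) (Sum.elim z t) * M z y =
      ∑ z : ι → B, M x z * S.R (ι ⊕ κ) (Sum.elim z s) (Sum.elim y t) := by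
  have h1 := congrFun (S.R_op hM hM' (κ := κ) (Pi.single (Sum.elim y t) 1)) (Sum.elim x s)
  rw [mulVec_single_one] at h1
  have h2 : ∀ w : ι' ⊕ κ → B, opT M (Pi.single (Sum.elim y t) (1 : ℂ) : (ι ⊕ κ → B) → ℂ) w =
      if w ∘ Sum.inr = t then M (w ∘ Sum.inl) y else 0 := by
    intro w
    simp only [opT]
    by_cases h : w ∘ Sum.inr = t
    · rw [if_pos h, Finset.sum_eq_single y]
      · rw [h, Pi.single_eq_same, mul_one]
      · intro x _ hx
        rw [Pi.single_eq_of_ne, mul_zero]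
        intro h'
        apply hx
        have := congrArg (fun f => f ∘ Sum.inl) h'
        simpa using this
      · intro h'; exact absurd (Finset.mem_univ _) h'
    · rw [if_neg h]
      refine Finset.sum_eq_zero fun x _ => ?_
      rw [Pi.single_eq_of_ne, mul_zero]
      intro h'
      apply h
      have := congrArg (fun f => f ∘ Sum.inr) h'
      simpa using this
  rw [mulVec, dotProduct, sum_sum] at h1
  simp only [h2, Sum.elim_comp_inl, Sum.elim_comp_inr, mul_ite, mul_zero, Finset.sum_ite_eq',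
    Finset.mem_univ, if_true] at h1
  rw [h1]
  simp only [opT, Sum.elim_comp_inl, Sum.elim_comp_inr]
  rfl

end TSys

end Pool.Agent.R914.UN
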