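import Pool.Agent.R914.UN.Defs

/-!
# Tensor powers of matrices and orthogonal projections
-/

set_option linter.unusedSectionVars false

namespace Pool.Agent.R914.UN
open MvPolynomial Matrix

section tp

variable {B : Type} [Fintype B] [DecidableEq B] {R : Type} [CommSemiring R]

/-- The tensor power of a matrix. -/
def tp (ι : Type) [Fintype ι] (g : Matrix B B R) : Matrix (ι → B) (ι → B) R :=
  Matrix.of fun I J => ∏ i, g (I i) (J i)

lemma tp_apply (ι : Type) [Fintype ι] (g : Matrix B B R) (I J : ι → B) :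
    tp ι g I J = ∏ i, g (I i) (J i) := rfl

lemma tp_one (ι : Type) [Fintype ι] [DecidableEq ι] : tp ι (1 : Matrix B B R) = 1 := by
  ext I J
  rw [tp_apply]
  by_cases h : I = J
  · subst h
    rw [Matrix.one_apply_eq]
    exact Finset.prod_eq_one fun i _ => Matrix.one_apply_eq _
  · rw [Matrix.one_apply_ne h]
    obtain ⟨i, hi⟩ := Function.ne_iff.1 h
    exact Finset.prod_eq_zero (Finset.mem_univ i) (Matrix.one_apply_ne hi)

lemma tp_mul (ι : Type) [Fintype ι] [DecidableEq ι] (g h : Matrix B B R) :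
    tp ι (g * h) = tp ι g * tp ι h := by
  ext I J
  rw [tp_apply, Matrix.mul_apply]
  simp only [Matrix.mul_apply, tp_apply]
  rw [Finset.prod_univ_sum, Fintype.piFinset_univ]
  exact Finset.sum_congr rfl fun K _ => Finset.prod_mul_distrib

lemma tp_conjTranspose (ι : Type) [Fintype ι] (g : Matrix B B ℂ) :
    tp ι gᴴ = (tp ι g)ᴴ := by
  ext I J
  rw [tp_apply, conjTranspose_apply, tp_apply, star_prod]
  rfl

end tp

section proj

variable {I : Type} [Fintype I] [DecidableEq I]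

/-- `P` is the orthogonal projection onto `U`. -/
structure IsProj (U : Submodule ℂ (I → ℂ)) (P : Matrix I I ℂ) : Prop where
  mem : ∀ v, P *ᵥ v ∈ U
  orth : ∀ v, ∀ u ∈ U, star u ⬝ᵥ (v - P *ᵥ v) = 0

lemma exists_isProj (U : Submodule ℂ (I → ℂ)) : ∃ P : Matrix I I ℂ, IsProj U P := by
  classical
  let e := WithLp.linearEquiv 2 ℂ (I → ℂ)
  let U' : Submodule ℂ (EuclideanSpace ℂ I) := U.comap e.toLinearMap
  let f : (I → ℂ) →ₗ[ℂ] (I → ℂ) :=
    e.toLinearMap ∘ₗ U'.subtype ∘ₗ (U'.orthogonalProjectionOnto : _ →L[ℂ] U').toLinearMap ∘ₗ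
      e.symm.toLinearMap
  refine ⟨LinearMap.toMatrix' f, ?_, ?_⟩
  · intro v
    rw [LinearMap.toMatrix'_mulVec]
    exact (U'.orthogonalProjectionOnto (e.symm v)).2
  · intro v u hu
    rw [LinearMap.toMatrix'_mulVec]
    have h1 := U'.sub_starProjection_mem_orthogonal (e.symm v)
    have h2 := (Submodule.mem_orthogonal _ _).1 h1 (e.symm u) (by
      change e (e.symm u) ∈ U
      rw [e.apply_symm_apply]
      exact hu)
    rw [EuclideanSpace.inner_eq_star_dotProduct] at h2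
    rw [dotProduct_comm]
    exact h2

variable {U : Submodule ℂ (I → ℂ)} {P : Matrix I I ℂ}

lemma star_dot_self (v : I → ℂ) : star v ⬝ᵥ v = ((∑ i, ‖v i‖ ^ 2 : ℝ) : ℂ) := by
  rw [dotProduct, Complex.ofReal_sum]
  refine Finset.sum_congr rfl fun i _ => ?_
  rw [Pi.star_apply, Complex.star_def, Complex.conj_mul', Complex.ofReal_pow]

lemma star_dot_self_eq_zero {v : I → ℂ} (h : star v ⬝ᵥ v = 0) : v = 0 := by
  rw [star_dot_self, Complex.ofReal_eq_zero,
    Finset.sum_eq_zero_iff_of_nonneg fun i _ => by positivity] at h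
  funext i
  have := h i (Finset.mem_univ i)
  simpa using this

lemma IsProj.unique (hP : IsProj U P) {v x : I → ℂ} (hx : x ∈ U)
    (h : ∀ u ∈ U, star u ⬝ᵥ (v - x) = 0) : P *ᵥ v = x := by
  have h1 : P *ᵥ v - x ∈ U := U.sub_mem (hP.mem v) hx
  have h2 : star (P *ᵥ v - x) ⬝ᵥ (P *ᵥ v - x) = 0 := by
    have h3 := h _ h1
    have h4 := hP.orth v _ h1
    have h5 : star (P *ᵥ v - x) ⬝ᵥ (P *ᵥ v - x) =
        star (P *ᵥ v - x) ⬝ᵥ (v - x) - star (P *ᵥ v - x) ⬝ᵥ (v - P *ᵥ v) := by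
      rw [← dotProduct_sub]
      congr 1
      abel
    rw [h5, h3, h4, sub_zero]
  exact sub_eq_zero.1 (star_dot_self_eq_zero h2)

lemma IsProj.self (hP : IsProj U P) {v : I → ℂ} (hv : v ∈ U) : P *ᵥ v = v :=
  hP.unique hv fun u _ => by rw [sub_self, dotProduct_zero]

lemma star_dot_comm (u v : I → ℂ) : star u ⬝ᵥ v = star (star v ⬝ᵥ u) := by
  rw [dotProduct, dotProduct, star_sum]
  refine Finset.sum_congr rfl fun i _ => ?_
  rw [star_mul', Pi.star_apply, Pi.star_apply, star_star, mul_comm]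

/-- The projection does not increase the norm. -/
lemma IsProj.norm_le (hP : IsProj U P) {v : I → ℂ} (hv : star v ⬝ᵥ v = 1) :
    ‖star v ⬝ᵥ (P *ᵥ v)‖ ≤ 1 := by
  have h1 : star v ⬝ᵥ (P *ᵥ v) = star (P *ᵥ v) ⬝ᵥ (P *ᵥ v) := by
    have h2 := hP.orth v _ (hP.mem v)
    rw [dotProduct_sub, sub_eq_zero] at h2
    rw [star_dot_comm v, h2, ← star_dot_comm]
  have h2 : star v ⬝ᵥ v = star (P *ᵥ v) ⬝ᵥ (P *ᵥ v) + star (v - P *ᵥ v) ⬝ᵥ (v - P *ᵥ v) := by
    have h3 := hP.orth v _ (hP.mem v)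
    have h4 : star (v - P *ᵥ v) ⬝ᵥ (P *ᵥ v) = 0 := by
      rw [star_dot_comm, h3, star_zero]
    have h5 : star (v - P *ᵥ v) ⬝ᵥ (v - P *ᵥ v) = star (v - P *ᵥ v) ⬝ᵥ v := by
      rw [dotProduct_sub, h4, sub_zero]
    rw [h5, star_sub, sub_dotProduct]
    rw [dotProduct_sub] at h3
    linear_combination h3
  have hnn : ∀ u : I → ℂ, 0 ≤ (star u ⬝ᵥ u).re ∧ (star u ⬝ᵥ u).im = 0 := by
    intro u
    rw [star_dot_self, Complex.ofReal_re, Complex.ofReal_im]
    exact ⟨by positivity, rfl⟩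
  rw [h1]
  have h3 := hnn (P *ᵥ v)
  have h4 := hnn (v - P *ᵥ v)
  have h5 := congrArg Complex.re (hv.symm.trans h2)
  rw [Complex.add_re, Complex.one_re] at h5
  have h6 : star (P *ᵥ v) ⬝ᵥ (P *ᵥ v) = (((star (P *ᵥ v) ⬝ᵥ (P *ᵥ v)).re : ℝ) : ℂ) :=
    Complex.ext rfl (by rw [h3.2, Complex.ofReal_im])
  rw [h6, Complex.norm_real, Real.norm_eq_abs, abs_of_nonneg h3.1]
  linarith [h4.1]

end proj

end Pool.Agent.R914.UN
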